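import Pool.Agent.Run7.h670.MY.Defs

/-!
# Families `√ρ w_n` with smooth functions `w_n`
-/

set_option autoImplicit false
set_option linter.unusedSectionVars false

open MeasureTheory Set Filter Topology Real
open scoped ContDiff RealInnerProductSpace

namespace Pool.Agent.Run7.h670.MY

variable {d : ℕ}

lemma pd_cont {η : V d → ℝ} (h : ContDiff ℝ ∞ η) (i : Fin d) : Continuous (pd i η) := by
  unfold pd
  exact (h.continuous_fderiv (by simp)).clm_apply continuous_const

lemma pd_supp {η : V d → ℝ} (h : HasCompactSupport η) (i : Fin d) : HasCompactSupport (pd i η) := by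
  have h1 := h.fderiv (𝕜 := ℝ)
  exact h1.comp_left (g := fun L : V d →L[ℝ] ℝ => L (EuclideanSpace.single i 1)) rfl

lemma pd_mul {b η : V d → ℝ} (hb : ContDiff ℝ ∞ b) (hη : ContDiff ℝ ∞ η) (i : Fin d) (x : V d) :
    pd i (fun x => b x * η x) x = b x * pd i η x + η x * pd i b x := by
  unfold pd
  have h1 : DifferentiableAt ℝ b x := (hb.differentiable (by simp)) x
  have h2 : DifferentiableAt ℝ η x := (hη.differentiable (by simp)) x
  rw [fderiv_fun_mul h1 h2]
  simp [smul_eq_mul]

lemma memLp_ofReal {f : V d → ℝ} (hc : Continuous f) (hs : HasCompactSupport f) :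
    MemLp (fun x => ((f x : ℝ) : ℂ)) 2 :=
  (hc.memLp_of_hasCompactSupport hs).ofReal

/-- The product rule for weak derivatives. -/
lemma prod_weak {f : V d → ℂ} {g : Fin d → V d → ℂ} (h : IsSobolev f g)
    {b : V d → ℝ} (hb : ContDiff ℝ ∞ b) {η : V d → ℝ} (hη : ContDiff ℝ ∞ η)
    (hs : HasCompactSupport η) (i : Fin d) :
    ∫ x, f x * ((b x : ℝ) : ℂ) * ((pd i η x : ℝ) : ℂ) =
      -∫ x, (g i x * ((b x : ℝ) : ℂ) + f x * ((pd i b x : ℝ) : ℂ)) * ((η x : ℝ) : ℂ) := by
  have hf := h.memLp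
  have hg := h.memLp_grad
  have hbη : ContDiff ℝ ∞ (fun x => b x * η x) := hb.mul hη
  have hbs : HasCompactSupport (fun x => b x * η x) := hs.mul_left
  have h1 := h.weak _ hbη hbs i
  have c1 : MemLp (fun x => ((pd i (fun x => b x * η x) x : ℝ) : ℂ)) 2 :=
    memLp_ofReal (pd_cont hbη i) (pd_supp hbs i)
  have c2 : MemLp (fun x => ((η x * pd i b x : ℝ) : ℂ)) 2 :=
    memLp_ofReal (hη.continuous.mul (pd_cont hb i)) hs.mul_right
  have c3 : MemLp (fun x => ((b x * η x : ℝ) : ℂ)) 2 := memLp_ofReal hbη.continuous hbs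
  have i1 : Integrable (fun x => f x * ((pd i (fun x => b x * η x) x : ℝ) : ℂ)) :=
    hf.integrable_mul c1
  have i2 : Integrable (fun x => f x * ((η x * pd i b x : ℝ) : ℂ)) := hf.integrable_mul c2
  have i3 : Integrable (fun x => g i x * ((b x * η x : ℝ) : ℂ)) := (hg i).integrable_mul c3
  have e1 : ∀ x, f x * ((b x : ℝ) : ℂ) * ((pd i η x : ℝ) : ℂ) =
      f x * ((pd i (fun x => b x * η x) x : ℝ) : ℂ) - f x * ((η x * pd i b x : ℝ) : ℂ) := by
    intro x
    rw [pd_mul hb hη]
    push_cast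
    ring
  have e2 : ∀ x, (g i x * ((b x : ℝ) : ℂ) + f x * ((pd i b x : ℝ) : ℂ)) * ((η x : ℝ) : ℂ) =
      g i x * ((b x * η x : ℝ) : ℂ) + f x * ((η x * pd i b x : ℝ) : ℂ) := by
    intro x
    push_cast
    ring
  simp only [e1, e2]
  rw [integral_sub i1 i2, integral_add i3 i2, h1]
  ring

/-- The product with a bounded smooth function. -/
lemma IsSobolev.mul_smooth {f : V d → ℂ} {g : Fin d → V d → ℂ} (h : IsSobolev f g)
    {b : V d → ℝ} (hb : ContDiff ℝ ∞ b) {K : ℝ} (hK : ∀ x, |b x| ≤ K)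
    (hK' : ∀ i x, |pd i b x| ≤ K) :
    IsSobolev (fun x => f x * ((b x : ℝ) : ℂ))
      (fun i x => g i x * ((b x : ℝ) : ℂ) + f x * ((pd i b x : ℝ) : ℂ)) := by
  have m : ∀ (F : V d → ℂ) (w : V d → ℝ), MemLp F 2 → Continuous w → (∀ x, |w x| ≤ K) →
      MemLp (fun x => F x * ((w x : ℝ) : ℂ)) 2 := by
    intro F w hF hw hwK
    refine hF.of_le_mul (c := K) (hF.1.mul
      (Complex.continuous_ofReal.comp hw).aestronglyMeasurable)
      (Filter.Eventually.of_forall fun x => ?_)
    rw [norm_mul, mul_comm, Complex.norm_real, Real.norm_eq_abs]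
    exact mul_le_mul_of_nonneg_right (hwK _) (norm_nonneg _)
  refine ⟨m _ _ h.memLp hb.continuous hK, fun i => (m _ _ (h.memLp_grad i) hb.continuous hK).add
    (m _ _ h.memLp (pd_cont hb i) (hK' i)), fun η h1 h2 i => prod_weak h hb h1 h2 i⟩

lemma IsSobolev.add {f f' : V d → ℂ} {g g' : Fin d → V d → ℂ} (h : IsSobolev f g)
    (h' : IsSobolev f' g') : IsSobolev (fun x => f x + f' x) (fun i x => g i x + g' i x) := by
  refine ⟨h.memLp.add h'.memLp, fun i => (h.memLp_grad i).add (h'.memLp_grad i),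
    fun η h1 h2 i => ?_⟩
  have c1 : MemLp (fun x => ((pd i η x : ℝ) : ℂ)) 2 := memLp_ofReal (pd_cont h1 i) (pd_supp h2 i)
  have c2 : MemLp (fun x => ((η x : ℝ) : ℂ)) 2 := memLp_ofReal h1.continuous h2
  have i1 : Integrable (fun x => f x * ((pd i η x : ℝ) : ℂ)) := h.memLp.integrable_mul c1
  have i2 : Integrable (fun x => f' x * ((pd i η x : ℝ) : ℂ)) := h'.memLp.integrable_mul c1
  have i3 : Integrable (fun x => g i x * ((η x : ℝ) : ℂ)) := (h.memLp_grad i).integrable_mul c2
  have i4 : Integrable (fun x => g' i x * ((η x : ℝ) : ℂ)) := (h'.memLp_grad i).integrable_mul c2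
  simp only [add_mul]
  rw [integral_add i1 i2, integral_add i3 i4, h.weak η h1 h2 i, h'.weak η h1 h2 i]
  ring

lemma IsSobolev.const_mul {f : V d → ℂ} {g : Fin d → V d → ℂ} (h : IsSobolev f g) (s : ℂ) :
    IsSobolev (fun x => s * f x) (fun i x => s * g i x) := by
  refine ⟨h.memLp.const_mul s, fun i => (h.memLp_grad i).const_mul s, fun η h1 h2 i => ?_⟩
  simp only [mul_assoc]
  rw [integral_const_mul, integral_const_mul, h.weak η h1 h2 i]
  ring

lemma IsSobolev.zero : IsSobolev (fun _ : V d => (0:ℂ)) (fun _ _ => 0) :=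
  ⟨MemLp.zero, fun _ => MemLp.zero, fun _ _ _ _ => by simp⟩

/-- The weak gradient of a real function is real. -/
lemma grad_real {f : V d → ℝ} {G : Fin d → V d → ℂ}
    (hG : IsSobolev (fun x => ((f x : ℝ) : ℂ)) G) (i : Fin d) : ∀ᵐ x, (G i x).im = 0 := by
  refine ae_eq_zero_of_integral_contDiff_smul_eq_zero (f := fun x => (G i x).im) ?_ ?_
  · have h1 : MemLp (fun x => (G i x).im) 2 := (hG.memLp_grad i).im
    exact h1.locallyIntegrable (by norm_num)
  · intro η h1 h2
    have h3 := congrArg Complex.im (hG.weak η h1 h2 i)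
    have c1 : MemLp (fun x => ((pd i η x : ℝ) : ℂ)) 2 := memLp_ofReal (pd_cont h1 i) (pd_supp h2 i)
    have c2 : MemLp (fun x => ((η x : ℝ) : ℂ)) 2 := memLp_ofReal h1.continuous h2
    have i2 : Integrable (fun x => G i x * ((η x : ℝ) : ℂ)) :=
      (hG.memLp_grad i).integrable_mul c2
    have e1 : (∫ x, ((f x : ℝ) : ℂ) * ((pd i η x : ℝ) : ℂ)).im = 0 := by
      have : ∀ x, ((f x : ℝ) : ℂ) * ((pd i η x : ℝ) : ℂ) = ((f x * pd i η x : ℝ) : ℂ) := by
        intro x; push_cast; ring
      simp only [this]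
      rw [integral_complex_ofReal, Complex.ofReal_im]
    have e2 : (∫ x, G i x * ((η x : ℝ) : ℂ)).im = ∫ x, η x • (G i x).im := by
      have := (integral_im (𝕜 := ℂ) i2)
      rw [show (∫ x, G i x * ((η x : ℝ) : ℂ)).im = RCLike.im (∫ x, G i x * ((η x : ℝ) : ℂ)) from rfl,
        ← this]
      refine integral_congr_ae (Eventually.of_forall fun x => ?_)
      simp [Complex.mul_im, mul_comm]
    rw [e1, Complex.neg_im, e2] at h3
    linarith

lemma norm_split (G : ℂ) (s u v u' v' : ℝ) :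
    ‖G * ((u : ℂ) + Complex.I * v) + s * ((u' : ℂ) + Complex.I * v')‖ ^ 2 =
      ‖G‖ ^ 2 * (u ^ 2 + v ^ 2) + s ^ 2 * (u' ^ 2 + v' ^ 2) +
        2 * s * (G.re * (u * u' + v * v') + G.im * (u * v' - v * u')) := by
  rw [← Complex.normSq_eq_norm_sq, ← Complex.normSq_eq_norm_sq, Complex.normSq_apply,
    Complex.normSq_apply]
  simp only [Complex.add_re, Complex.mul_re, Complex.ofReal_re, Complex.ofReal_im, mul_zero,
    sub_zero, Complex.add_im, Complex.mul_im, add_zero, zero_add, Complex.I_re, Complex.I_im,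
    zero_mul, one_mul]
  ring

/-- Differentiating `∑ w² = 1`. -/
lemma pd_sum_sq {ι : Type*} [Fintype ι] {w : ι → V d → ℝ} (hw : ∀ n, ContDiff ℝ ∞ (w n))
    (s1 : ∀ x, ∑ n, w n x ^ 2 = 1) (i : Fin d) (x : V d) : ∑ n, w n x * pd i (w n) x = 0 := by
  have h1 : pd i (fun x => ∑ n, w n x ^ 2) x = 0 := by
    have : (fun x : V d => ∑ n, w n x ^ 2) = fun _ => 1 := funext s1
    rw [this]; simp [pd]
  have h2 : pd i (fun x => ∑ n, w n x ^ 2) x = ∑ n, 2 * (w n x * pd i (w n) x) := by
    unfold pd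
    have hd : ∀ n ∈ (Finset.univ : Finset ι), DifferentiableAt ℝ (fun x => w n x ^ 2) x :=
      fun n _ => (((hw n).differentiable (by simp)) x).pow 2
    rw [fderiv_fun_sum hd]
    simp only [_root_.sum_apply]
    refine Finset.sum_congr rfl fun n _ => ?_
    have hn : DifferentiableAt ℝ (w n) x := ((hw n).differentiable (by simp)) x
    rw [fderiv_fun_pow 2 hn]
    simp; ring
  rw [h1] at h2
  have h3 : (∑ n, 2 * (w n x * pd i (w n) x)) = 2 * ∑ n, w n x * pd i (w n) x := by
    rw [Finset.mul_sum]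
  linarith

/-- **Families `√ρ w_n`.** `w n = u n + i v n`, `sp n` is the spin state of the `n`-th function. -/
lemma fam {N q : ℕ} {ρ : V d → ℝ} {G : Fin d → V d → ℂ} (h0 : ∀ x, 0 ≤ ρ x) (hi : Integrable ρ)
    (hG : IsSobolev (fun x => ((√(ρ x) : ℝ) : ℂ)) G) (sp : Fin N → Fin q)
    (u v : Fin N → V d → ℝ) (hu : ∀ n, ContDiff ℝ ∞ (u n)) (hv : ∀ n, ContDiff ℝ ∞ (v n))
    {K : ℝ} (bu : ∀ n x, |u n x| ≤ K) (bv : ∀ n x, |v n x| ≤ K)
    (bu' : ∀ n i x, |pd i (u n) x| ≤ K) (bv' : ∀ n i x, |pd i (v n) x| ≤ K)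
    (s1 : ∀ x, ∑ n, (u n x ^ 2 + v n x ^ 2) = 1)
    (hore : ∀ n m, sp n = sp m →
      ∫ x, ρ x * (u n x * u m x + v n x * v m x) = if n = m then (1:ℝ) else 0)
    (hoim : ∀ n m, sp n = sp m → ∫ x, ρ x * (u n x * v m x - v n x * u m x) = 0) :
    ∃ (φ : Fin N → Fin q → V d → ℂ) (g : Fin N → Fin q → Fin d → V d → ℂ), IsFamily ρ φ g ∧
      kinetic g = (∑ i, ∫ x, ‖G i x‖ ^ 2) +
        ∫ x, ρ x * ∑ n, ∑ i, (pd i (u n) x ^ 2 + pd i (v n) x ^ 2) := by
  classical
  set r : V d → ℂ := fun x => ((√(ρ x) : ℝ) : ℂ) with hr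
  set φ₀ : Fin N → V d → ℂ := fun n x => r x * ((u n x : ℝ) : ℂ) +
    Complex.I * (r x * ((v n x : ℝ) : ℂ)) with hφ₀
  set g₀ : Fin N → Fin d → V d → ℂ := fun n i x =>
    (G i x * ((u n x : ℝ) : ℂ) + r x * ((pd i (u n) x : ℝ) : ℂ)) +
    Complex.I * (G i x * ((v n x : ℝ) : ℂ) + r x * ((pd i (v n) x : ℝ) : ℂ)) with hg₀
  have sob : ∀ n, IsSobolev (φ₀ n) (g₀ n) := fun n =>
    (hG.mul_smooth (hu n) (bu n) (bu' n)).add
      ((hG.mul_smooth (hv n) (bv n) (bv' n)).const_mul Complex.I)
  have hK : 0 ≤ K ∨ N = 0 := by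
    rcases Nat.eq_zero_or_pos N with h | h
    · exact Or.inr h
    · exact Or.inl ((abs_nonneg _).trans (bu ⟨0, h⟩ 0))
  -- integrability of the products with bounded continuous functions
  have bdd : ∀ (w : V d → ℝ) (C : ℝ), Continuous w → (∀ x, |w x| ≤ C) →
      Integrable (fun x => ρ x * w x) := by
    intro w C hw hC
    refine (hi.mul_const C).mono' (hi.1.mul hw.aestronglyMeasurable)
      (Eventually.of_forall fun x => ?_)
    rw [norm_mul, Real.norm_eq_abs, Real.norm_eq_abs, abs_of_nonneg (h0 x)]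
    exact mul_le_mul_of_nonneg_left (hC x) (h0 x)
  have cu : ∀ n, Continuous (u n) := fun n => (hu n).continuous
  have cv : ∀ n, Continuous (v n) := fun n => (hv n).continuous
  have hsq : ∀ x, r x * r x = ((ρ x : ℝ) : ℂ) := by
    intro x
    simp only [hr]
    rw [← Complex.ofReal_mul, Real.mul_self_sqrt (h0 x)]
  refine ⟨fun n σ => if sp n = σ then φ₀ n else fun _ => 0,
    fun n σ => if sp n = σ then g₀ n else fun _ _ => 0, ⟨fun n σ => ?_, fun n m => ?_, fun x => ?_⟩,
    ?_⟩
  · by_cases h : sp n = σ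
    · simp only [h, if_true]; exact sob n
    · simp only [h, if_false]; exact IsSobolev.zero
  · -- orthonormality
    have e0 : ∀ σ, ∫ x, star ((if sp n = σ then φ₀ n else fun _ => 0) x) *
        (if sp m = σ then φ₀ m else fun _ => 0) x =
        if sp n = σ ∧ sp m = σ then ∫ x, star (φ₀ n x) * φ₀ m x else 0 := by
      intro σ
      by_cases h1 : sp n = σ <;> by_cases h2 : sp m = σ <;> simp [h1, h2]
    simp only [e0]
    by_cases hnm : sp n = sp m
    · have e1 : ∀ σ, (if sp n = σ ∧ sp m = σ then ∫ x, star (φ₀ n x) * φ₀ m x else 0) =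
          if sp n = σ then ∫ x, star (φ₀ n x) * φ₀ m x else 0 := by
        intro σ; rw [← hnm]; simp
      simp only [e1]
      rw [Finset.sum_ite_eq]
      simp only [Finset.mem_univ, if_true]
      have e2 : ∀ x, star (φ₀ n x) * φ₀ m x =
          ((ρ x * (u n x * u m x + v n x * v m x) : ℝ) : ℂ) +
          Complex.I * ((ρ x * (u n x * v m x - v n x * u m x) : ℝ) : ℂ) := by
        intro x
        have hst : ∀ t : ℝ, star (t : ℂ) = t := fun t => Complex.conj_ofReal t
        have hI : star Complex.I = -Complex.I := Complex.conj_I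
        simp only [hφ₀, star_add, star_mul', hst, hI]
        have hrs : star (r x) = r x := hst _
        rw [hrs]
        push_cast
        linear_combination ((u n x : ℂ) * u m x + Complex.I * (u n x * v m x) -
          Complex.I * (v n x * u m x) - Complex.I ^ 2 * (v n x * v m x)) * hsq x -
          (v n x * v m x * ρ x : ℂ) * Complex.I_sq
      simp only [e2]
      have i1 : Integrable (fun x => ρ x * (u n x * u m x + v n x * v m x)) := by
        refine bdd _ (K * K + K * K) (by fun_prop) fun x => ?_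
        refine (abs_add_le _ _).trans (add_le_add ?_ ?_)
        · rw [abs_mul]
          exact mul_le_mul (bu n x) (bu m x) (abs_nonneg _) ((abs_nonneg _).trans (bu n x))
        · rw [abs_mul]
          exact mul_le_mul (bv n x) (bv m x) (abs_nonneg _) ((abs_nonneg _).trans (bv n x))
      have i2 : Integrable (fun x => ρ x * (u n x * v m x - v n x * u m x)) := by
        refine bdd _ (K * K + K * K) (by fun_prop) fun x => ?_
        refine (abs_sub _ _).trans (add_le_add ?_ ?_)
        · rw [abs_mul]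
          exact mul_le_mul (bu n x) (bv m x) (abs_nonneg _) ((abs_nonneg _).trans (bu n x))
        · rw [abs_mul]
          exact mul_le_mul (bv n x) (bu m x) (abs_nonneg _) ((abs_nonneg _).trans (bv n x))
      rw [integral_add i1.ofReal (i2.ofReal.const_mul _), integral_const_mul,
        integral_complex_ofReal, integral_complex_ofReal, hore n m hnm, hoim n m hnm]
      split_ifs <;> simp
    · have e1 : ∀ σ, (if sp n = σ ∧ sp m = σ then ∫ x, star (φ₀ n x) * φ₀ m x else 0) = 0 := by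
        intro σ
        rw [if_neg]
        rintro ⟨h1, h2⟩
        exact hnm (h1.trans h2.symm)
      simp only [e1, Finset.sum_const_zero]
      rw [if_neg]
      rintro rfl
      exact hnm rfl
  · -- density
    have e1 : ∀ n, ∑ σ, ‖(if sp n = σ then φ₀ n else fun _ => 0) x‖ ^ 2 =
        ρ x * (u n x ^ 2 + v n x ^ 2) := by
      intro n
      have e2 : ∀ σ, ‖(if sp n = σ then φ₀ n else fun _ => 0) x‖ ^ 2 =
          if sp n = σ then ‖φ₀ n x‖ ^ 2 else 0 := by
        intro σ; by_cases h1 : sp n = σ <;> simp [h1]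
      simp only [e2]
      rw [Finset.sum_ite_eq]
      simp only [Finset.mem_univ, if_true]
      have e3 : φ₀ n x = (0:ℂ) * ((u n x : ℂ) + Complex.I * v n x) +
          ((√(ρ x) : ℝ) : ℂ) * ((u n x : ℂ) + Complex.I * v n x) := by
        simp only [hφ₀, hr]; ring
      rw [e3, norm_split]
      simp only [norm_zero, Complex.zero_re, Complex.zero_im]
      rw [Real.sq_sqrt (h0 x)]
      ring
    simp only [e1]
    rw [← Finset.mul_sum, s1, mul_one]
  · -- the kinetic energy
    have e1 : ∀ n, ∑ σ, ∑ i, ∫ x, ‖(if sp n = σ then g₀ n else fun _ _ => 0) i x‖ ^ 2 =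
        ∑ i, ∫ x, ‖g₀ n i x‖ ^ 2 := by
      intro n
      have e2 : ∀ σ, ∑ i, ∫ x, ‖(if sp n = σ then g₀ n else fun _ _ => 0) i x‖ ^ 2 =
          if sp n = σ then ∑ i, ∫ x, ‖g₀ n i x‖ ^ 2 else 0 := by
        intro σ; by_cases h1 : sp n = σ <;> simp [h1]
      simp only [e2]
      rw [Finset.sum_ite_eq]
      simp
    rw [kinetic, Finset.sum_congr rfl fun n _ => e1 n, Finset.sum_comm]
    have hgi : ∀ n i, Integrable (fun x => ‖g₀ n i x‖ ^ 2) := fun n i =>
      ((sob n).memLp_grad i).integrable_norm_pow (by norm_num)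
    have hGi : ∀ i, Integrable (fun x => ‖G i x‖ ^ 2) := fun i =>
      (hG.memLp_grad i).integrable_norm_pow (by norm_num)
    have hρi : ∀ i, Integrable (fun x => ρ x * ∑ n, (pd i (u n) x ^ 2 + pd i (v n) x ^ 2)) := by
      intro i
      refine bdd _ (∑ _n : Fin N, (K ^ 2 + K ^ 2)) ?_ fun x => ?_
      · exact continuous_finsetSum _ fun n _ => ((pd_cont (hu n) i).pow 2).add
          ((pd_cont (hv n) i).pow 2)
      · rw [abs_of_nonneg (Finset.sum_nonneg fun n _ => by positivity)]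
        refine Finset.sum_le_sum fun n _ => add_le_add ?_ ?_
        · rw [← sq_abs]; exact pow_le_pow_left₀ (abs_nonneg _) (bu' n i x) 2
        · rw [← sq_abs]; exact pow_le_pow_left₀ (abs_nonneg _) (bv' n i x) 2
    have e3 : ∀ i, ∑ n, ∫ x, ‖g₀ n i x‖ ^ 2 = (∫ x, ‖G i x‖ ^ 2) +
        ∫ x, ρ x * ∑ n, (pd i (u n) x ^ 2 + pd i (v n) x ^ 2) := by
      intro i
      rw [← integral_finsetSum _ fun n _ => hgi n i, ← integral_add (hGi i) (hρi i)]
      refine integral_congr_ae ?_
      filter_upwards [grad_real hG i] with x hx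
      have e4 : ∀ n, ‖g₀ n i x‖ ^ 2 = ‖G i x‖ ^ 2 * (u n x ^ 2 + v n x ^ 2) +
          ρ x * (pd i (u n) x ^ 2 + pd i (v n) x ^ 2) + 2 * √(ρ x) * (G i x).re *
            (u n x * pd i (u n) x + v n x * pd i (v n) x) := by
        intro n
        have e5 : g₀ n i x = G i x * ((u n x : ℂ) + Complex.I * v n x) +
            ((√(ρ x) : ℝ) : ℂ) * ((pd i (u n) x : ℂ) + Complex.I * pd i (v n) x) := by
          simp only [hg₀, hr]; ring
        rw [e5, norm_split, hx, Real.sq_sqrt (h0 x)]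
        ring
      rw [Finset.sum_congr rfl fun n _ => e4 n, Finset.sum_add_distrib, Finset.sum_add_distrib,
        ← Finset.mul_sum, ← Finset.mul_sum, ← Finset.mul_sum, s1]
      have e6 : ∑ n, (u n x * pd i (u n) x + v n x * pd i (v n) x) = 0 := by
        have := pd_sum_sq (ι := Fin N ⊕ Fin N) (w := Sum.elim u v)
          (fun n => by rcases n with n | n <;> simp [hu, hv])
          (fun x => by
            rw [Fintype.sum_sum_type]
            simp only [Sum.elim_inl, Sum.elim_inr]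
            rw [← Finset.sum_add_distrib]; exact s1 x) i x
        rw [Fintype.sum_sum_type] at this
        simp only [Sum.elim_inl, Sum.elim_inr] at this
        rw [← Finset.sum_add_distrib] at this
        exact this
      rw [e6]
      ring
    rw [Finset.sum_congr rfl fun i _ => e3 i, Finset.sum_add_distrib]
    congr 1
    rw [← integral_finsetSum _ fun i _ => hρi i]
    refine integral_congr_ae (Eventually.of_forall fun x => ?_)
    simp only
    rw [← Finset.mul_sum, Finset.sum_comm]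

end Pool.Agent.Run7.h670.MY
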