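import Pool.Agent.Run7.h670.MY.StmD

/-!
# The March-Young bound for N particles in dimension `d ≥ 30 N²`: statements of the pieces

Problem MP_ae5e3b_mp (and MP_2c73ad_mp).  For a density `ρ` on `ℝ^d` with `∫ ρ = N` and a unit
vector `e` let `F` be the density of the projection of `ρ dx` to the line `ℝ e` and
`Γ(t) = ∫_{-∞}^t F`.  The orbitals `√(ρ/N) exp(i k_j Γ(⟪e, x⟫))`, `k_j = (2π/N)(j - (N-1)/2)`, have
the kinetic energy `∫ |∇√ρ|² + (π²/3)(1 - 1/N²) ∫ F³`.  For a good direction `e` one has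
`∫ F³ ≤ (12/π) N ∫ F_P²` with `F_P` the projection to a good plane (N_DIR, N_PLDIR).
Every piece is a closed proposition; the complete proof is in its documentation.
-/

set_option autoImplicit false

open MeasureTheory Set
open scoped ENNReal RealInnerProductSpace ContDiff

namespace Pool.Agent.Run7.h670.MY

/-- Piece N_BATH.

Proof. Let `A = ofReal a`, `L = ∫⁻ g` (for `a ≤ 0` everything is `0`). If `∫⁻ |s| g = ∞` it is clear.
Otherwise `L < ∞` (`L ≤ ∫_{|s|<1} a + ∫ |s| g`).  For `r > 0`: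
`∫ |s| g ≥ r L - ∫ (r - |s|)⁺ g ≥ r L - a r²`; take `r = L / (2 a)`: `∫ |s| g ≥ L² / (4 a)`. -/
def N_BATH : Prop := ∀ (g : ℝ → ℝ≥0∞) (A : ℝ≥0∞), Measurable g → A ≠ ⊤ → (∀ s, g s ≤ A) →
  (∫⁻ s, g s) ^ 2 ≤ 4 * A * ∫⁻ s, ENNReal.ofReal |s| * g s

/-- The integral of `F` over the line at distance `t` from the origin, normal `(cos θ, sin θ)`. -/
noncomputable def ray (F : ℝ → ℝ → ℝ≥0∞) (θ t : ℝ) : ℝ≥0∞ :=
  ∫⁻ s : ℝ, F (t * Real.cos θ - s * Real.sin θ) (t * Real.sin θ + s * Real.cos θ)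

/-- Piece N_DIR (a good direction in the plane), from N_BATH.

Proof. We may assume `∫⁻ F² < ∞`, `M = ∫⁻ F < ∞`, so `F < ∞` a.e. (if `M = ∞`: if `∫⁻ F² = 0` then
`F = 0` a.e., contradiction, otherwise the right side is `∞`).  For fixed `θ`, expand the cube:
`∫⁻ t, (ray F θ t)³ ≤ 3 ∫⁻ t s, F(x) (∫⁻ s', F(x') 1[F(x') ≤ F(x)])²`, where `x, x'` are the points
of the line with the parameters `s, s'` (of three points one has the largest value of `F`;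
Tonelli).  Rotation (measure preserving): the right side is
`3 ∫⁻ x, F(x) (∫⁻ s, G_x(x + s ω))²` with `ω = (-sin θ, cos θ)`, `G_x = F 1[F ≤ F(x)] ≤ F(x)`.
Integrate over `θ ∈ (0, π)`: N_BATH gives `(∫⁻ s, G_x(x + s ω))² ≤ 4 F(x) ∫⁻ s, |s| G_x(x + s ω)`, and
by polar coordinates `∫⁻ θ in (0,π), ∫⁻ s, |s| G_x(x + s ω) = ∫⁻ G_x ≤ M`.  Hence
`∫⁻ θ in (0,π), ∫⁻ t, (ray F θ t)³ ≤ 12 M ∫⁻ F²`, and some `θ` is at most the mean. -/
def N_DIR : Prop := ∀ F : ℝ → ℝ → ℝ≥0∞, Measurable (fun z : ℝ × ℝ => F z.1 z.2) →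
  ∃ θ : ℝ, ∫⁻ t, ray F θ t ^ 3 ≤ ENNReal.ofReal (12 / Real.pi) *
    (∫⁻ z : ℝ × ℝ, F z.1 z.2) * ∫⁻ z : ℝ × ℝ, F z.1 z.2 ^ 2

/-- Piece N_LINE, from N_DIR (from a plane to a line).

Proof. `μ = volume.withDensity ρ`, `T x = (⟪a, x⟫, ⟪b, x⟫)`, `μ₂ = μ.map T`.  `T` is linear and
surjective, so `μ₂ ≪ volume` (`LinearMap.quasiMeasurePreserving`), `μ₂ = volume.withDensity Φ`,
`Φ = μ₂.rnDeriv volume` measurable, `∫⁻ Φ = ∫⁻ ρ < ∞`.  The hypothesis with `g = min Φ n`: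
`(∫⁻ Φ g)² ≤ L ∫⁻ g² ≤ L ∫⁻ Φ g` and `∫⁻ Φ g < ∞`, so `∫⁻ Φ g ≤ L`, and `n → ∞` gives `∫⁻ Φ² ≤ L`.
N_DIR for `Φ` gives `θ`; take `e = cos θ a + sin θ b` (a unit vector) and `F = ray Φ θ`:
`⟪e, x⟫ = cos θ ⟪a,x⟫ + sin θ ⟪b,x⟫`, and the image of `volume.withDensity Φ` under
`z ↦ cos θ z₁ + sin θ z₂` is `volume.withDensity (ray Φ θ)` (rotation and Tonelli). -/
def N_LINE : Prop := ∀ (d : ℕ) (ρ : V d → ℝ≥0∞) (a b : V d) (L : ℝ≥0∞), Measurable ρ →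
  ∫⁻ x, ρ x ≠ ⊤ → Orthonormal ℝ ![a, b] →
  (∀ g : ℝ → ℝ → ℝ≥0∞, Measurable (fun z : ℝ × ℝ => g z.1 z.2) →
      (∫⁻ x, ρ x * g ⟪a, x⟫ ⟪b, x⟫) ^ 2 ≤ L * ∫⁻ z : ℝ × ℝ, g z.1 z.2 ^ 2) →
  ∃ (e : V d) (F : ℝ → ℝ≥0∞), ‖e‖ = 1 ∧ Measurable F ∧
    (volume.withDensity ρ).map (fun x => ⟪e, x⟫) = volume.withDensity F ∧
    ∫⁻ t, F t ^ 3 ≤ ENNReal.ofReal (12 / Real.pi) * (∫⁻ x, ρ x) * L

/-- Piece N_APX (smooth approximation in `L³`).

Proof. `MemLp.exists_hasCompactSupport_eLpNorm_sub_le` gives a continuous compactly supported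
function, and the convolution with a `ContDiffBump` of small radius (uniform convergence, supports
in a fixed compact set) makes it smooth. -/
def N_APX : Prop := ∀ F : ℝ → ℝ, MemLp F 3 volume → ∀ ε : ℝ≥0∞, ε ≠ 0 →
  ∃ g : ℝ → ℝ, ContDiff ℝ ∞ g ∧ HasCompactSupport g ∧ eLpNorm (fun t => F t - g t) 3 volume ≤ ε

/-- Piece N_CLOSED (`IsSobolev` is closed).

Proof. The weak identity for `(f n, g n)`; the integrals converge because `η` and its derivatives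
are in `L²` (Cauchy-Schwarz). -/
def N_CLOSED : Prop := ∀ (d : ℕ) (f : V d → ℂ) (g : Fin d → V d → ℂ) (fn : ℕ → V d → ℂ)
  (gn : ℕ → Fin d → V d → ℂ), MemLp f 2 → (∀ i, MemLp (g i) 2) → (∀ n, IsSobolev (fn n) (gn n)) →
  Filter.Tendsto (fun n => eLpNorm (fun x => fn n x - f x) 2 volume) Filter.atTop (nhds 0) →
  (∀ i, Filter.Tendsto (fun n => eLpNorm (fun x => gn n i x - g i x) 2 volume)
    Filter.atTop (nhds 0)) → IsSobolev f g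

/-- Piece N_PHASE, from N_APX and N_CLOSED.

Proof. `√ρ` is `r`; the measure `ρ dx = r² dx` has the projection `F dt` to the line `ℝ e`.  For smooth
compactly supported `g` let `Γ_g(t) = ∫_0^t g` (smooth, bounded derivatives); then
`exp(i k Γ_g(⟪e, x⟫)) = u + i v` with smooth bounded `u, v` with bounded derivatives, and
`IsSobolev.mul_smooth`, `.add`, `.const_mul` of `Sob.lean` give
`IsSobolev (r exp(i k Γ_g)) ((G_i + i k g(⟪e,x⟫) e_i r) exp(i k Γ_g))`.  Choose `g_n → F` in `L³`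
(N_APX).  Then `Γ_{g_n}(t) → Γ(t) - Γ(0)` for every `t` (Hoelder on the interval), and by dominated
convergence and `∫ |g_n(⟪e,x⟫) - F(⟪e,x⟫)|² r² dx = ∫ |g_n - F|² F dt ≤ ‖g_n - F‖₃² ‖F‖₃` both the
functions and the gradients converge in `L²`; use N_CLOSED and multiply by `exp(i k Γ(0))`. -/
def N_PHASE : Prop := ∀ (d : ℕ) (ρ : V d → ℝ) (G : Fin d → V d → ℂ) (e : V d) (F : ℝ → ℝ) (k : ℝ),
  (∀ x, 0 ≤ ρ x) → Integrable ρ → IsSobolev (fun x => ((√(ρ x) : ℝ) : ℂ)) G →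
  ‖e‖ = 1 → Measurable F → (∀ t, 0 ≤ F t) → Integrable F → MemLp F 3 volume →
  (volume.withDensity (fun x => ENNReal.ofReal (ρ x))).map (fun x => ⟪e, x⟫) =
    volume.withDensity (fun t => ENNReal.ofReal (F t)) →
  IsSobolev (fun x => ((√(ρ x) : ℝ) : ℂ) *
      Complex.exp (Complex.I * ((k * ∫ s in Iic (⟪e, x⟫ : ℝ), F s : ℝ) : ℂ)))
    (fun i x => (G i x + Complex.I * ((k * F ⟪e, x⟫ * e i * √(ρ x) : ℝ) : ℂ)) *
      Complex.exp (Complex.I * ((k * ∫ s in Iic (⟪e, x⟫ : ℝ), F s : ℝ) : ℂ)))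

/-- Piece N_PIT (probability integral transform), for a density on the line.

Proof. `Γ(t) = ∫ s in Iic t, F s` is continuous and monotone from `0` to `M`; the measure `F dt` has
the image `volume.restrict (Icc 0 M)` under `Γ`: for `0 < s < M` the set `{Γ ≤ s}` is a half line
`Iic t` with `Γ(t) = s`.  Hence the integral is `∫_0^M exp(2π i m s / M) ds = 0`. -/
def N_PIT : Prop := ∀ (F : ℝ → ℝ) (M : ℝ) (m : ℤ), Measurable F → (∀ t, 0 ≤ F t) →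
  Integrable F → ∫ t, F t = M → 0 < M → m ≠ 0 →
  ∫ t, (F t : ℂ) * Complex.exp (Complex.I *
    ((2 * Real.pi * m / M * ∫ s in Iic t, F s : ℝ) : ℂ)) = 0

/-- Piece N_NUM: `N^(2-2/d) d ω^(4/d) ≤ π²` for `d ≥ 30 N²`.

Proof. `Γ(x + 1) ≥ ∫_x^∞ x^x exp(-t) dt = (x/e)^x`, so `ω = π^(d/2) / Γ(d/2 + 1) ≤ (2 π e / d)^(d/2)`
and `ω^(4/d) ≤ (2 π e / d)²`; `N^(2-2/d) ≤ N²`, and `4 e² N² ≤ 30 N² ≤ d`. -/
def N_NUM : Prop := ∀ d N : ℕ, 1 ≤ N → 30 * N ^ 2 ≤ d →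
  (N : ℝ) ^ (2 - 2 / (d : ℝ)) * d * om d ^ (4 / (d : ℝ)) ≤ Real.pi ^ 2

end Pool.Agent.Run7.h670.MY
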