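import Pool.Agent.Run7.h670.MY.Line

/-!
# The bounds for every number of particles
-/

set_option autoImplicit false

open MeasureTheory Set Filter Topology Real
open scoped RealInnerProductSpace ENNReal

namespace Pool.Agent.Run7.h670.MY

lemma sum_id (N : ℕ) : ∑ n : Fin N, (n : ℝ) = N * (N - 1) / 2 := by
  rw [Fin.sum_univ_eq_sum_range (fun n => (n : ℝ)) N]
  induction N with
  | zero => simp
  | succ k ih => rw [Finset.sum_range_succ, ih]; push_cast; ring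

lemma sum_sq (N : ℕ) : ∑ n : Fin N, (n : ℝ) ^ 2 = N * (N - 1) * (2 * N - 1) / 6 := by
  rw [Fin.sum_univ_eq_sum_range (fun n => (n : ℝ) ^ 2) N]
  induction N with
  | zero => simp
  | succ k ih => rw [Finset.sum_range_succ, ih]; push_cast; ring

section
variable (hPL : D_PLANE) (hCS2 : D_CS2) (hCAKE : D_CAKE) (hLINE : N_LINE) (hPH : N_PHASE)
  (hPIT : N_PIT) {d N q : ℕ} (hd : 2 ≤ d) (hN : 1 ≤ N) {ρ : V d → ℝ} {G : Fin d → V d → ℂ}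
  (h0 : ∀ x, 0 ≤ ρ x) (hi : Integrable ρ) (hρ : ∫ x, ρ x = N)
  (hG : IsSobolev (fun x => ((√(ρ x) : ℝ) : ℂ)) G)
  (hI : Integrable fun x => ρ x ^ (1 + 2 / (d : ℝ)))
include hPL hCS2 hCAKE hLINE hPH hPIT hd hN h0 hi hρ hG hI

/-- All particles in one spin state. -/
theorem allN_one : ∃ (φ : Fin N → Fin 1 → V d → ℂ) (g : Fin N → Fin 1 → Fin d → V d → ℂ),
    IsFamily ρ φ g ∧ kinetic g ≤ (∑ i, ∫ x, ‖G i x‖ ^ 2) +
      π ^ 2 / 3 * (BB d * (N : ℝ) ^ (2 - 2 / (d : ℝ)) * ∫ x, ρ x ^ (1 + 2 / (d : ℝ))) := by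
  have hN0 : (0:ℝ) < N := by exact_mod_cast hN
  obtain ⟨e, F, he, hF, hF0, hFi, hF3, hmap, hle⟩ :=
    good_line hPL hCS2 hCAKE hLINE hd h0 hi hN0 hρ hI
  set κ : Fin N → ℝ := fun n => (n : ℝ) - ((N : ℝ) - 1) / 2 with hκ
  obtain ⟨φ, g, h1, h2⟩ := trig hPH hPIT hN h0 hi hρ hG he hF hF0 hFi hF3 hmap (fun _ => (0 : Fin 1))
    κ (fun n m hnm _ => ⟨(m : ℤ) - n, by
        have : (n : ℕ) ≠ m := fun h => hnm (Fin.ext h)
        omega, by simp only [hκ]; push_cast; ring⟩) (by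
      simp only [hκ]
      rw [Finset.sum_sub_distrib, sum_id, Finset.sum_const, Finset.card_univ, Fintype.card_fin,
        nsmul_eq_mul]
      ring)
  refine ⟨φ, g, h1, ?_⟩
  rw [h2]
  have hs : ∑ n, κ n ^ 2 = N * ((N:ℝ) ^ 2 - 1) / 12 := by
    have e1 : ∀ n : Fin N, κ n ^ 2 = (n : ℝ) ^ 2 - ((N : ℝ) - 1) * n + (((N : ℝ) - 1) / 2) ^ 2 := by
      intro n; simp only [hκ]; ring
    rw [Finset.sum_congr rfl fun n _ => e1 n, Finset.sum_add_distrib, Finset.sum_sub_distrib,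
      ← Finset.mul_sum, sum_id, sum_sq, Finset.sum_const, Finset.card_univ, Fintype.card_fin,
      nsmul_eq_mul]
    ring
  have hcoef : 4 * π ^ 2 / (N:ℝ) ^ 3 * ∑ n, κ n ^ 2 ≤ π ^ 2 / 3 := by
    rw [hs]
    have : 4 * π ^ 2 / (N:ℝ) ^ 3 * (N * ((N:ℝ) ^ 2 - 1) / 12) =
        π ^ 2 / 3 - π ^ 2 / (3 * (N:ℝ) ^ 2) := by
      field_simp
      ring
    rw [this]
    have : 0 ≤ π ^ 2 / (3 * (N:ℝ) ^ 2) := by positivity
    linarith
  have hF30 : 0 ≤ ∫ t, F t ^ 3 := integral_nonneg fun t => pow_nonneg (hF0 t) 3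
  have h3 : (4 * π ^ 2 / (N:ℝ) ^ 3 * ∑ n, κ n ^ 2) * ∫ t, F t ^ 3 ≤ π ^ 2 / 3 *
      (BB d * (N : ℝ) ^ (2 - 2 / (d : ℝ)) * ∫ x, ρ x ^ (1 + 2 / (d : ℝ))) :=
    mul_le_mul hcoef hle hF30 (by positivity)
  linarith

/-- The particles are distributed over `q` spin states. -/
theorem allN_spin (hq : 1 ≤ q) :
    ∃ (φ : Fin N → Fin q → V d → ℂ) (g : Fin N → Fin q → Fin d → V d → ℂ),
    IsFamily ρ φ g ∧ kinetic g ≤ (∑ i, ∫ x, ‖G i x‖ ^ 2) +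
      π ^ 2 / (q : ℝ) ^ 2 *
        (BB d * (N : ℝ) ^ (2 - 2 / (d : ℝ)) * ∫ x, ρ x ^ (1 + 2 / (d : ℝ))) := by
  have hN0 : (0:ℝ) < N := by exact_mod_cast hN
  have hq0 : (0:ℝ) < q := by exact_mod_cast hq
  obtain ⟨e, F, he, hF, hF0, hFi, hF3, hmap, hle⟩ :=
    good_line hPL hCS2 hCAKE hLINE hd h0 hi hN0 hρ hI
  set y : Fin N → ℝ := fun n => (((n : ℕ) / q : ℕ) : ℝ) with hy
  set c : ℝ := (∑ n, y n) / N with hc
  set κ : Fin N → ℝ := fun n => y n - c with hκ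
  obtain ⟨φ, g, h1, h2⟩ := trig hPH hPIT hN h0 hi hρ hG he hF hF0 hFi hF3 hmap
    (fun n => (⟨(n : ℕ) % q, Nat.mod_lt _ hq⟩ : Fin q))
    κ (fun n m hnm hs => by
      have h4 : (n : ℕ) % q = (m : ℕ) % q := congrArg Fin.val hs
      refine ⟨(((m : ℕ) / q : ℕ) : ℤ) - (((n : ℕ) / q : ℕ) : ℤ), ?_, ?_⟩
      · intro h5
        have h6 : (m : ℕ) / q = (n : ℕ) / q := by omega
        have h7 : (n : ℕ) = m := by
          rw [← Nat.div_add_mod (n : ℕ) q, ← Nat.div_add_mod (m : ℕ) q, h4, h6]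
        exact hnm (Fin.ext h7)
      · simp only [hκ, hy]
        rw [Int.cast_sub, Int.cast_natCast, Int.cast_natCast]
        ring) (by
      simp only [hκ]
      rw [Finset.sum_sub_distrib, Finset.sum_const, Finset.card_univ, Fintype.card_fin,
        nsmul_eq_mul, hc]
      field_simp
      ring)
  refine ⟨φ, g, h1, ?_⟩
  rw [h2]
  set K : ℝ := N / q with hK
  have hy1 : ∀ n, 0 ≤ y n ∧ y n ≤ K := by
    intro n
    refine ⟨Nat.cast_nonneg _, ?_⟩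
    simp only [hy, hK]
    refine (Nat.cast_div_le).trans ?_
    have : ((n : ℕ) : ℝ) ≤ N := by exact_mod_cast n.2.le
    gcongr
  have hs : ∑ n, κ n ^ 2 ≤ N * (K / 2) ^ 2 := by
    have e1 : ∑ n, κ n ^ 2 = ∑ n, (y n - K / 2) ^ 2 - N * (c - K / 2) ^ 2 := by
      have e2 : ∀ n, κ n ^ 2 = (y n - K / 2) ^ 2 - 2 * (c - K / 2) * y n +
          (c ^ 2 - (K / 2) ^ 2) := by
        intro n; simp only [hκ]; ring
      have e3 : ∑ n, y n = N * c := by rw [hc]; field_simp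
      rw [Finset.sum_congr rfl fun n _ => e2 n, Finset.sum_add_distrib, Finset.sum_sub_distrib,
        ← Finset.mul_sum, e3, Finset.sum_const, Finset.card_univ, Fintype.card_fin, nsmul_eq_mul]
      ring
    have e4 : ∑ n, (y n - K / 2) ^ 2 ≤ ∑ _n : Fin N, (K / 2) ^ 2 := by
      refine Finset.sum_le_sum fun n _ => ?_
      obtain ⟨h3, h4⟩ := hy1 n
      nlinarith
    rw [Finset.sum_const, Finset.card_univ, Fintype.card_fin, nsmul_eq_mul] at e4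
    have e5 : 0 ≤ N * (c - K / 2) ^ 2 := by positivity
    linarith
  have hcoef : 4 * π ^ 2 / (N:ℝ) ^ 3 * ∑ n, κ n ^ 2 ≤ π ^ 2 / (q:ℝ) ^ 2 := by
    have h3 : 4 * π ^ 2 / (N:ℝ) ^ 3 * ∑ n, κ n ^ 2 ≤ 4 * π ^ 2 / (N:ℝ) ^ 3 * (N * (K / 2) ^ 2) :=
      mul_le_mul_of_nonneg_left hs (by positivity)
    refine h3.trans (le_of_eq ?_)
    rw [hK]
    field_simp
    try norm_num
  have hF30 : 0 ≤ ∫ t, F t ^ 3 := integral_nonneg fun t => pow_nonneg (hF0 t) 3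
  have h3 : (4 * π ^ 2 / (N:ℝ) ^ 3 * ∑ n, κ n ^ 2) * ∫ t, F t ^ 3 ≤ π ^ 2 / (q:ℝ) ^ 2 *
      (BB d * (N : ℝ) ^ (2 - 2 / (d : ℝ)) * ∫ x, ρ x ^ (1 + 2 / (d : ℝ))) :=
    mul_le_mul hcoef hle hF30 (by positivity)
  linarith

end

end Pool.Agent.Run7.h670.MY
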