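import Mathlib

/-!
# Families of orthonormal functions with a prescribed density: definitions
-/

set_option autoImplicit false

open MeasureTheory Set
open scoped ContDiff RealInnerProductSpace

namespace Pool.Agent.Run7.h670.MY

/-- The space `ℝ^d`. -/
abbrev V (d : ℕ) := EuclideanSpace ℝ (Fin d)

variable {d : ℕ}

/-- The `i`-th partial derivative of a smooth function. -/
noncomputable def pd (i : Fin d) (η : V d → ℝ) (x : V d) : ℝ :=
  fderiv ℝ η x (EuclideanSpace.single i 1)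

/-- `f` is in the Sobolev space `H¹(ℝ^d)` and `g` is its weak gradient. -/
structure IsSobolev (f : V d → ℂ) (g : Fin d → V d → ℂ) : Prop where
  memLp : MemLp f 2
  memLp_grad : ∀ i, MemLp (g i) 2
  weak : ∀ η : V d → ℝ, ContDiff ℝ ∞ η → HasCompactSupport η → ∀ i,
    ∫ x, f x * (pd i η x : ℂ) = -∫ x, g i x * (η x : ℂ)

/-- `φ₁, ..., φ_N` are functions on `ℝ^d` with `q` spin states (`φ n σ` is the component of `φ_n`
in the spin state `σ`), all components are in `H¹(ℝ^d)` with the weak gradients `g`, the functions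
are orthonormal and their density `∑_n ∑_σ |φ_n(x; σ)|²` is `ρ`. -/
structure IsFamily (ρ : V d → ℝ) {N q : ℕ} (φ : Fin N → Fin q → V d → ℂ)
    (g : Fin N → Fin q → Fin d → V d → ℂ) : Prop where
  sobolev : ∀ n σ, IsSobolev (φ n σ) (g n σ)
  orthonormal : ∀ n m, ∑ σ, ∫ x, star (φ n σ x) * φ m σ x = if n = m then (1 : ℂ) else 0
  density : ∀ x, ∑ n, ∑ σ, ‖φ n σ x‖ ^ 2 = ρ x

/-- The kinetic energy `∑_n ∑_σ ∫ |∇φ_n(x; σ)|² dx`. -/
noncomputable def kinetic {N q : ℕ} (g : Fin N → Fin q → Fin d → V d → ℂ) : ℝ :=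
  ∑ n, ∑ σ, ∑ i, ∫ x, ‖g n σ i x‖ ^ 2

end Pool.Agent.Run7.h670.MY
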