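import Pool.Agent.Run7.h670.MY.AllN

/-!
# The final forms for every number of particles
-/

set_option autoImplicit false

open MeasureTheory Set Filter Topology Real
open scoped RealInnerProductSpace ENNReal

namespace Pool.Agent.Run7.h670.MY

/-- The factor `N^(2-2/d) d |B₁|^(4/d) / π²`. -/
noncomputable def thet (d N : ℕ) : ℝ :=
  (N : ℝ) ^ (2 - 2 / (d : ℝ)) * d * (volume.real (Metric.ball (0 : V d) 1)) ^ (4 / (d : ℝ)) / π ^ 2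

lemma const_eq {d N : ℕ} (hd : 2 ≤ d) :
    π ^ 2 / 3 * (BB d * (N : ℝ) ^ (2 - 2 / (d : ℝ))) = thet d N * Kcl d := by
  have hdr : (2:ℝ) ≤ d := by exact_mod_cast hd
  have hpi := Real.pi_pos
  have hom := om_pos d
  rw [thet, Kcl, vol_ball (by omega), BB]
  have e : om d ^ (2 / (d : ℝ)) = om d ^ (4 / (d : ℝ)) * om d ^ (-(2 / (d : ℝ))) := by
    rw [← Real.rpow_add hom]
    congr 1
    ring
  rw [e]
  field_simp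
  norm_num

lemma thet_le (hNUM : N_NUM) {d N : ℕ} (hN : 1 ≤ N) (h : 30 * N ^ 2 ≤ d) : thet d N ≤ 1 := by
  have hpi := Real.pi_pos
  have hd : 1 ≤ d := by nlinarith [Nat.one_le_pow 2 N hN]
  rw [thet, vol_ball hd, div_le_one (by positivity)]
  exact hNUM d N hN h

/-- Spinless particles. -/
theorem fin_one (hPL : D_PLANE) (hCS2 : D_CS2) (hCAKE : D_CAKE) (hLINE : N_LINE) (hPH : N_PHASE)
    (hPIT : N_PIT) {d N : ℕ} (hd : 2 ≤ d) (hN : 1 ≤ N) {f : V d → ℝ} {G : Fin d → V d → ℂ}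
    (h0 : ∀ x, 0 ≤ f x) (hi : Integrable f) (h1 : ∫ x, f x = 1)
    (hG : IsSobolev (fun x => ((√(f x) : ℝ) : ℂ)) G)
    (hI : Integrable fun x => f x ^ (1 + 2 / (d : ℝ))) :
    ∃ (φ : Fin N → Fin 1 → V d → ℂ) (g : Fin N → Fin 1 → Fin d → V d → ℂ),
      IsFamily (fun x => N * f x) φ g ∧
      (N:ℝ) ^ (-1 - 2 / (d:ℝ)) * kinetic g ≤
        thet d N * (Kcl d * ∫ x, f x ^ (1 + 2 / (d : ℝ))) +
          (N:ℝ) ^ (-(2 / (d:ℝ))) * ∑ i, ∫ x, ‖G i x‖ ^ 2 := by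
  have hN0 : (0:ℝ) < N := by exact_mod_cast hN
  set t : ℂ := ((√(N:ℝ) : ℝ) : ℂ) with ht
  have hsob : IsSobolev (fun x => ((√(N * f x) : ℝ) : ℂ)) (fun i x => t * G i x) := by
    have e : (fun x => ((√(N * f x) : ℝ) : ℂ)) = fun x => t * ((√(f x) : ℝ) : ℂ) := by
      funext x
      rw [Real.sqrt_mul hN0.le, Complex.ofReal_mul]
    rw [e]
    exact hG.const_mul t
  have hpow : ∀ x, (N * f x) ^ (1 + 2 / (d:ℝ)) =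
      (N:ℝ) ^ (1 + 2 / (d:ℝ)) * f x ^ (1 + 2 / (d:ℝ)) := fun x =>
    Real.mul_rpow hN0.le (h0 x)
  obtain ⟨φ, g, k1, k2⟩ := allN_one hPL hCS2 hCAKE hLINE hPH hPIT hd hN
    (ρ := fun x => N * f x) (fun x => mul_nonneg hN0.le (h0 x)) (hi.const_mul _)
    (by rw [integral_const_mul, h1, mul_one]) hsob
    (by simp only [hpow]; exact hI.const_mul _)
  refine ⟨φ, g, k1, ?_⟩
  have h3 : ∀ i, ∫ x, ‖t * G i x‖ ^ 2 = N * ∫ x, ‖G i x‖ ^ 2 := by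
    intro i
    rw [← integral_const_mul]
    refine integral_congr_ae (Filter.Eventually.of_forall fun x => ?_)
    simp only
    rw [norm_mul, mul_pow, ht, Complex.norm_real, Real.norm_eq_abs, sq_abs,
      Real.sq_sqrt hN0.le]
  rw [Finset.sum_congr rfl fun i _ => h3 i, ← Finset.mul_sum] at k2
  simp only [hpow] at k2
  rw [integral_const_mul] at k2
  set Γ := ∑ i, ∫ x, ‖G i x‖ ^ 2 with hΓ
  set I := ∫ x, f x ^ (1 + 2 / (d : ℝ)) with hIdef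
  have h4 := mul_le_mul_of_nonneg_left k2 (by positivity : 0 ≤ (N:ℝ) ^ (-1 - 2 / (d:ℝ)))
  refine h4.trans (le_of_eq ?_)
  have p1 : (N:ℝ) ^ (-1 - 2 / (d:ℝ)) * (N:ℝ) ^ (1 + 2 / (d:ℝ)) = 1 := by
    rw [← Real.rpow_add hN0]
    have : (-1 - 2 / (d:ℝ)) + (1 + 2 / (d:ℝ)) = 0 := by ring
    rw [this, Real.rpow_zero]
  have p2 : (N:ℝ) ^ (-1 - 2 / (d:ℝ)) * N = (N:ℝ) ^ (-(2 / (d:ℝ))) := by
    have : -(2 / (d:ℝ)) = (-1 - 2 / (d:ℝ)) + 1 := by ring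
    rw [this, Real.rpow_add hN0, Real.rpow_one]
  have hc := const_eq (N := N) hd
  calc (N:ℝ) ^ (-1 - 2 / (d:ℝ)) * (N * Γ + π ^ 2 / 3 * (BB d * (N:ℝ) ^ (2 - 2 / (d:ℝ)) *
        ((N:ℝ) ^ (1 + 2 / (d:ℝ)) * I)))
      = ((N:ℝ) ^ (-1 - 2 / (d:ℝ)) * N) * Γ + (π ^ 2 / 3 * (BB d * (N:ℝ) ^ (2 - 2 / (d:ℝ)))) *
        (((N:ℝ) ^ (-1 - 2 / (d:ℝ)) * (N:ℝ) ^ (1 + 2 / (d:ℝ))) * I) := by ring
    _ = _ := by rw [p1, p2, hc]; ring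

lemma om_three : om 3 = π * 4 / 3 := by
  rw [← vol_ball (by norm_num), measureReal_def, EuclideanSpace.volume_ball_fin_three]
  have := Real.pi_pos
  rw [ENNReal.ofReal_one, one_pow, one_mul, ENNReal.toReal_ofReal (by positivity)]

lemma num3 : π ^ 2 * BB 3 ≤ 31 / 5 * (3 / 5 * (6 * π ^ 2) ^ (2 / 3 : ℝ)) := by
  have hpi := Real.pi_pos
  have h3 : ((3:ℕ):ℝ) = 3 := by norm_num
  have e1 : π ^ 2 * BB 3 = 108 / 5 * (π * 4 / 3) ^ (2 / 3 : ℝ) := by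
    rw [BB, om_three, h3]
    field_simp
    norm_num
  rw [e1]
  have h1 : 0 ≤ 108 / 5 * (π * 4 / 3) ^ (2 / 3 : ℝ) := by positivity
  have h2 : 0 ≤ 31 / 5 * (3 / 5 * (6 * π ^ 2) ^ (2 / 3 : ℝ)) := by positivity
  rw [← pow_le_pow_iff_left₀ h1 h2 (n := 3) (by norm_num), mul_pow, mul_pow, mul_pow]
  have e2 : ∀ x : ℝ, 0 ≤ x → (x ^ (2 / 3 : ℝ)) ^ 3 = x ^ 2 := by
    intro x hx
    rw [← Real.rpow_natCast, ← Real.rpow_mul hx]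
    norm_num
  rw [e2 _ (by positivity), e2 _ (by positivity)]
  have h4 : 9.8 ≤ π ^ 2 := by nlinarith [Real.pi_gt_d2]
  have h5 : 0 < π ^ 2 := by positivity
  nlinarith

/-- Three dimensions, with spin. -/
theorem fin_three (hPL : D_PLANE) (hCS2 : D_CS2) (hCAKE : D_CAKE) (hLINE : N_LINE)
    (hPH : N_PHASE) (hPIT : N_PIT) {q N : ℕ} (hq : 1 ≤ q) (hN : 1 ≤ N) {ρ : V 3 → ℝ}
    {G : Fin 3 → V 3 → ℂ} (h0 : ∀ x, 0 ≤ ρ x) (hi : Integrable ρ) (hρ : ∫ x, ρ x = N)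
    (hG : IsSobolev (fun x => ((√(ρ x) : ℝ) : ℂ)) G)
    (hI : Integrable fun x => ρ x ^ (5 / 3 : ℝ)) :
    ∃ (φ : Fin N → Fin q → V 3 → ℂ) (g : Fin N → Fin q → Fin 3 → V 3 → ℂ), IsFamily ρ φ g ∧
      kinetic g ≤ 31 / 5 * ((N : ℝ) / q) ^ (4 / 3 : ℝ) *
        ((q : ℝ) ^ (-(2 / 3) : ℝ) * (3 / 5 * (6 * π ^ 2) ^ (2 / 3 : ℝ)) *
          ∫ x, ρ x ^ (5 / 3 : ℝ)) + ∑ i, ∫ x, ‖G i x‖ ^ 2 := by
  have hN0 : (0:ℝ) < N := by exact_mod_cast hN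
  have hq0 : (0:ℝ) < q := by exact_mod_cast hq
  have e3 : 1 + 2 / ((3:ℕ):ℝ) = 5 / 3 := by norm_num
  have e4 : 2 - 2 / ((3:ℕ):ℝ) = 4 / 3 := by norm_num
  obtain ⟨φ, g, k1, k2⟩ := allN_spin (q := q) hPL hCS2 hCAKE hLINE hPH hPIT (d := 3) (by norm_num)
    hN h0 hi hρ hG (by rw [e3]; exact hI) hq
  rw [e3, e4] at k2
  refine ⟨φ, g, k1, ?_⟩
  set I := ∫ x, ρ x ^ (5 / 3 : ℝ) with hIdef
  have hI0 : 0 ≤ I := integral_nonneg fun x => Real.rpow_nonneg (h0 x) _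
  have h5 : ((N : ℝ) / q) ^ (4 / 3 : ℝ) * (q : ℝ) ^ (-(2 / 3) : ℝ) =
      (N:ℝ) ^ (4 / 3 : ℝ) / (q : ℝ) ^ 2 := by
    rw [Real.div_rpow hN0.le hq0.le, Real.rpow_neg hq0.le, div_mul_eq_mul_div, mul_comm,
      ← div_eq_inv_mul, div_div]
    rw [← Real.rpow_add hq0]
    have : (2 / 3 : ℝ) + 4 / 3 = ((2:ℕ):ℝ) := by norm_num
    have h6 : (4 / 3 : ℝ) + 2 / 3 = ((2:ℕ):ℝ) := by norm_num
    first
      | rw [this, Real.rpow_natCast]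
      | rw [h6, Real.rpow_natCast]
  have h6 := num3
  have h7 : π ^ 2 / (q:ℝ) ^ 2 * (BB 3 * (N:ℝ) ^ (4 / 3 : ℝ) * I) ≤
      31 / 5 * ((N : ℝ) / q) ^ (4 / 3 : ℝ) *
        ((q : ℝ) ^ (-(2 / 3) : ℝ) * (3 / 5 * (6 * π ^ 2) ^ (2 / 3 : ℝ)) * I) := by
    have e5 : 31 / 5 * ((N : ℝ) / q) ^ (4 / 3 : ℝ) *
        ((q : ℝ) ^ (-(2 / 3) : ℝ) * (3 / 5 * (6 * π ^ 2) ^ (2 / 3 : ℝ)) * I) =
        (31 / 5 * (3 / 5 * (6 * π ^ 2) ^ (2 / 3 : ℝ))) *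
          ((((N : ℝ) / q) ^ (4 / 3 : ℝ) * (q : ℝ) ^ (-(2 / 3) : ℝ)) * I) := by ring
    rw [e5, h5]
    have e6 : π ^ 2 / (q:ℝ) ^ 2 * (BB 3 * (N:ℝ) ^ (4 / 3 : ℝ) * I) =
        (π ^ 2 * BB 3) * ((N:ℝ) ^ (4 / 3 : ℝ) / (q : ℝ) ^ 2 * I) := by ring
    rw [e6]
    exact mul_le_mul_of_nonneg_right h6 (by positivity)
  linarith

end Pool.Agent.Run7.h670.MY
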