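import Pool.Agent.Run7.h670.MY.Tri

/-!
# The choice of the plane and of the barycentre
-/

set_option autoImplicit false

open MeasureTheory Set Filter Topology Real
open scoped ContDiff RealInnerProductSpace ENNReal

namespace Pool.Agent.Run7.h670.MY

/-- The semiclassical constant `K_c = (3/5) (6 π²)^(2/3)`. -/
noncomputable def Kc : ℝ := 3 / 5 * (6 * Real.pi ^ 2) ^ (2 / 3 : ℝ)

lemma inner_null {d : ℕ} {a : V d} (ha : a ≠ 0) (t : ℝ) : volume {x : V d | ⟪a, x⟫ = t} = 0 := by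
  rcases ({x : V d | ⟪a, x⟫ = t}).eq_empty_or_nonempty with h | ⟨x₀, hx₀⟩
  · rw [h, measure_empty]
  · set L : V d →ₗ[ℝ] ℝ := (innerSL ℝ a).toLinearMap with hL
    have hK : LinearMap.ker L ≠ ⊤ := by
      intro h
      apply ha
      have h1 : a ∈ LinearMap.ker L := by rw [h]; trivial
      have h2 : (⟪a, a⟫ : ℝ) = 0 := h1
      exact inner_self_eq_zero.1 h2
    have h1 := Measure.addHaar_affineSubspace (volume : Measure (V d))
      (AffineSubspace.mk' x₀ (LinearMap.ker L)) (by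
        intro h
        apply hK
        have := congrArg AffineSubspace.direction h
        rwa [AffineSubspace.direction_mk', AffineSubspace.direction_top] at this)
    refine measure_mono_null (fun x hx => ?_) h1
    rw [SetLike.mem_coe, AffineSubspace.mem_mk', LinearMap.mem_ker, vsub_eq_sub, map_sub,
      sub_eq_zero]
    exact (show (⟪a, x⟫ : ℝ) = t from hx).trans (show (⟪a, x₀⟫ : ℝ) = t from hx₀).symm

/-- The barycentre for a density on `ℝ^d` and a projection to a plane. -/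
lemma bary_of {d : ℕ} (hBAR : S_BAR) {ρ : V d → ℝ} (hm : Measurable ρ) (h0 : ∀ x, 0 ≤ ρ x)
    (hi : Integrable ρ) (h2 : ∫ x, ρ x = 2) {a b : V d} (ha : a ≠ 0) :
    ∃ p q c : ℝ, 0 < c ∧ ∫ x, ρ x * hh p q c ⟪a, x⟫ ⟪b, x⟫ = 1 ∧
      ∫ x, ρ x * ((⟪a, x⟫ - p) / (c ^ 2 + (⟪a, x⟫ - p) ^ 2 + (⟪b, x⟫ - q) ^ 2)) = 0 ∧
      ∫ x, ρ x * ((⟪b, x⟫ - q) / (c ^ 2 + (⟪a, x⟫ - p) ^ 2 + (⟪b, x⟫ - q) ^ 2)) = 0 := by
  set μ : Measure (V d) := volume.withDensity fun x => ENNReal.ofReal (ρ x) with hμ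
  have hμu : μ univ = ENNReal.ofReal 2 := by
    rw [hμ, withDensity_apply _ MeasurableSet.univ, Measure.restrict_univ,
      ← ofReal_integral_eq_lintegral_ofReal hi (Eventually.of_forall h0), h2]
  set T : V d → ℝ × ℝ := fun x => (⟪a, x⟫, ⟪b, x⟫) with hT
  have hTm : Measurable T := by fun_prop
  set ν := μ.map T with hν
  have hνu : ν univ = ENNReal.ofReal 2 := by
    rw [hν, Measure.map_apply hTm MeasurableSet.univ, preimage_univ, hμu]
  have hνf : IsFiniteMeasure ν := ⟨by rw [hνu]; exact ENNReal.ofReal_lt_top⟩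
  have hν0 : ν univ ≠ 0 := by rw [hνu]; simp
  have hat : ∀ z, ν {z} = 0 := by
    intro z
    rw [hν, Measure.map_apply hTm (measurableSet_singleton z)]
    have h1 : volume (T ⁻¹' {z}) = 0 := by
      refine measure_mono_null (fun x hx => ?_) (inner_null ha z.1)
      have : T x = z := hx
      change (⟪a, x⟫ : ℝ) = z.1
      rw [← this]
    exact (withDensity_absolutelyContinuous volume _) h1
  obtain ⟨p, q, c, hc, k1, k2, k3⟩ := hBAR ν hνf hν0 hat
  have hint : ∀ g : ℝ × ℝ → ℝ, Measurable g → ∫ z, g z ∂ν = ∫ x, ρ x * g (T x) := by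
    intro g hg
    rw [hν, integral_map hTm.aemeasurable hg.aestronglyMeasurable, hμ,
      integral_withDensity_eq_integral_toReal_smul₀ hm.ennreal_ofReal.aemeasurable
        (Eventually.of_forall fun _ => ENNReal.ofReal_lt_top)]
    refine integral_congr_ae (Eventually.of_forall fun x => ?_)
    simp only [smul_eq_mul]
    rw [ENNReal.toReal_ofReal (h0 x)]
  refine ⟨p, q, c, hc, ?_, ?_, ?_⟩
  · rw [hint (fun z => hh p q c z.1 z.2) (by unfold hh; fun_prop)] at k1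
    rw [k1, measureReal_def, hνu, ENNReal.toReal_ofReal (by norm_num)]
    norm_num
  · rw [hint (fun z => (z.1 - p) / (c ^ 2 + (z.1 - p) ^ 2 + (z.2 - q) ^ 2)) (by fun_prop)] at k2
    exact k2
  · rw [hint (fun z => (z.2 - q) / (c ^ 2 + (z.1 - p) ^ 2 + (z.2 - q) ^ 2)) (by fun_prop)] at k3
    exact k3

/-- An orthonormal pair in the plane orthogonal to `e`. -/
lemma exists_perp (e : E) (he : ‖e‖ = 1) : ∃ a b : E, Orthonormal ℝ ![a, b, e] := by
  have hfin : Module.finrank ℝ E = 3 := by simp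
  have hon : Orthonormal ℝ (fun _ : Unit => e) := ⟨fun _ => he, fun i j h => absurd rfl h⟩
  -- extend `{e}` to an orthonormal basis
  obtain ⟨bs, hbs⟩ := Orthonormal.exists_orthonormalBasis_extension_of_card_eq
    (𝕜 := ℝ) (E := E) (ι := Fin 3) (by simp) (v := fun _ => e) (s := {2})
    (by
      refine ⟨fun i => he, fun i j h => ?_⟩
      exact absurd (Subsingleton.elim i j) h)
  refine ⟨bs 0, bs 1, ?_⟩
  have h2 : bs 2 = e := hbs 2 rfl
  have : ![bs 0, bs 1, e] = bs := by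
    funext i
    fin_cases i
    · rfl
    · rfl
    · exact h2.symm
  rw [this]
  exact bs.orthonormal

lemma isON_of {a b e : E} (h : Orthonormal ℝ ![a, b, e]) : IsON a b := by
  have ha : ‖a‖ = 1 := h.1 0
  have hb : ‖b‖ = 1 := h.1 1
  have hab : (⟪a, b⟫ : ℝ) = 0 := h.2 (i := 0) (j := 1) (by decide)
  refine ⟨?_, ?_, ?_⟩
  · rw [← EuclideanSpace.real_norm_sq_eq, ha]; norm_num
  · rw [← EuclideanSpace.real_norm_sq_eq, hb]; norm_num
  · rw [← hab, PiLp.inner_apply]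
    exact Finset.sum_congr rfl fun i _ => by simp [mul_comm]

/-- The geometric theorem in three dimensions. -/
theorem geo3 (hDIR : S_DIR) (hCAKE : S_CAKE) (hBAR : S_BAR) (hNUM : S_NUM) (hCOST : S_COST)
    {ρ : E → ℝ} (h0 : ∀ x, 0 ≤ ρ x) (hi : Integrable ρ) (h2 : ∫ x, ρ x = 2) :
    ∃ (a b : V 3) (p q c : ℝ), IsON a b ∧ 0 < c ∧
      ∫ x, ρ x * hh p q c ⟪a, x⟫ ⟪b, x⟫ = 1 ∧
      ∫ x, ρ x * ((⟪a, x⟫ - p) / (c ^ 2 + (⟪a, x⟫ - p) ^ 2 + (⟪b, x⟫ - q) ^ 2)) = 0 ∧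
      ∫ x, ρ x * ((⟪b, x⟫ - q) / (c ^ 2 + (⟪a, x⟫ - p) ^ 2 + (⟪b, x⟫ - q) ^ 2)) = 0 ∧
      ENNReal.ofReal ((c ^ 2)⁻¹ * ∫ x, ρ x *
        (hh p q c ⟪a, x⟫ ⟪b, x⟫ + hh p q c ⟪a, x⟫ ⟪b, x⟫ ^ 2)) ≤
      ENNReal.ofReal Kc * ∫⁻ x, ENNReal.ofReal (ρ x ^ (5 / 3 : ℝ)) := by
  -- a measurable version
  obtain ⟨r, hrm, hr⟩ : ∃ r : E → ℝ, (Measurable r ∧ ∀ x, 0 ≤ r x) ∧ ρ =ᵐ[volume] r := by
    refine ⟨fun x => max 0 (hi.1.mk ρ x), ⟨?_, fun x => le_max_left _ _⟩, ?_⟩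
    · exact measurable_const.max hi.1.stronglyMeasurable_mk.measurable
    · filter_upwards [hi.1.ae_eq_mk] with x hx
      rw [← hx, max_eq_right (h0 x)]
  obtain ⟨hrm, hr0⟩ := hrm
  have hri : Integrable r := hi.congr hr
  have hr2 : ∫ x, r x = 2 := by rw [← h2]; exact (integral_congr_ae hr).symm
  obtain ⟨e, he, hle⟩ := hDIR (fun x => ENNReal.ofReal (r x)) hrm.ennreal_ofReal
  obtain ⟨a, b, hab⟩ := exists_perp e he
  have ha0 : a ≠ 0 := by
    intro h
    have : ‖a‖ = 1 := hab.1 0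
    rw [h, norm_zero] at this; exact zero_ne_one this
  obtain ⟨p, q, c, hc, k1, k2, k3⟩ := bary_of hBAR hrm hr0 hri hr2 (a := a) (b := b) ha0
  have hcost := hCOST r a b e p q c hrm hr0 hri hr2 hab hc k1
  have hM : ∫⁻ x, ENNReal.ofReal (r x) = ENNReal.ofReal 2 := by
    rw [← ofReal_integral_eq_lintegral_ofReal hri (Eventually.of_forall hr0), hr2]
  have hcake := hCAKE r hrm hr0 (by rw [hM]; exact ENNReal.ofReal_ne_top)
  rw [hM] at hcake
  have cg : ∀ g : E → ℝ, ∫ x, r x * g x = ∫ x, ρ x * g x := by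
    intro g
    refine integral_congr_ae ?_
    filter_upwards [hr] with x hx
    rw [hx]
  have cg2 : ∫⁻ x, ENNReal.ofReal (r x ^ (5 / 3 : ℝ)) =
      ∫⁻ x, ENNReal.ofReal (ρ x ^ (5 / 3 : ℝ)) := by
    refine lintegral_congr_ae ?_
    filter_upwards [hr] with x hx
    rw [hx]
  rw [cg] at k1 k2 k3 hcost
  rw [cg2] at hcake
  refine ⟨a, b, p, q, c, isON_of hab, hc, k1, k2, k3, hcost.trans ?_⟩
  set I := ∫⁻ x, ENNReal.ofReal (ρ x ^ (5 / 3 : ℝ)) with hI
  have hpi := Real.pi_pos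
  have hcB : 0 ≤ cB := by unfold cB; positivity
  calc ENNReal.ofReal (π * (17 / 8 : ℝ) ^ 2 / 3) * lineEn (fun x => ENNReal.ofReal (r x)) e
      ≤ ENNReal.ofReal (π * (17 / 8 : ℝ) ^ 2 / 3) * (ENNReal.ofReal (2 * π)⁻¹ *
          (ENNReal.ofReal (6 / 5 * cB) * ENNReal.ofReal 2 ^ (1 / 3 : ℝ) * I)) := by
        gcongr
        exact hle.trans (by gcongr)
    _ = ENNReal.ofReal ((π * (17 / 8 : ℝ) ^ 2 / 3) * (2 * π)⁻¹ * (6 / 5 * cB) *
          (2:ℝ) ^ (1 / 3 : ℝ)) * I := by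
        have key : ∀ A B C D : ℝ, 0 ≤ A → 0 ≤ B → 0 ≤ C → 0 ≤ D →
            ENNReal.ofReal (A * B * C * D) = ENNReal.ofReal A * ENNReal.ofReal B *
              ENNReal.ofReal C * ENNReal.ofReal D := by
          intro A B C D hA hB hC hD
          rw [ENNReal.ofReal_mul (by positivity), ENNReal.ofReal_mul (by positivity),
            ENNReal.ofReal_mul (by positivity)]
        rw [key _ _ _ _ (by positivity) (by positivity) (by positivity) (by positivity),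
          ← ENNReal.ofReal_rpow_of_pos (by norm_num : (0:ℝ) < 2)]
        ring
    _ ≤ ENNReal.ofReal Kc * I := by
        gcongr
        exact hNUM

end Pool.Agent.Run7.h670.MY
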