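import Pool.Agent.Run7.h670.MY.Stm
import Pool.Agent.Run7.h670.MY.Defs

/-!
# The March-Young bound for two fermions in every dimension: statements of the pieces

Problem MP_ae5e3b_mp.  For `ρ ≥ 0` on `ℝ^d` with `∫ ρ = 2` and an orthonormal pair `(a, b)` the
trial functions of `Stm.lean` have the extra kinetic energy `c⁻² ∫ ρ (h + h²)`, and this is at most
`(17/4) ∫ F²`, where `F` is the density of the projection to the plane of `(a, b)` (pieces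
D_COST, D_INT).  The mean over the planes of `∫ F²` is `(d - 2) / (2π)` times the energy with the
kernel `|x - y|⁻²` (D_STEP, D_RED, D_PLANE), and this energy is bounded by D_CAKE.
Every piece is a closed proposition; the complete proof is in its documentation.
-/

set_option autoImplicit false

open MeasureTheory Set
open scoped ENNReal RealInnerProductSpace

namespace Pool.Agent.Run7.h670.MY

/-- The energy with the kernel `|x - y|⁻²`, for measures. -/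
noncomputable def en {d : ℕ} (μ : Measure (V d)) : ℝ≥0∞ :=
  ∫⁻ x, ∫⁻ y, ENNReal.ofReal (‖x - y‖ ^ 2)⁻¹ ∂μ ∂μ

/-- The energy with the kernel `|x - y|⁻²`, for functions on `ℝ^d`. -/
noncomputable def rieszD {d : ℕ} (f : V d → ℝ≥0∞) : ℝ≥0∞ :=
  ∫⁻ x, ∫⁻ y, f x * f y * ENNReal.ofReal (‖x - y‖ ^ 2)⁻¹

/-- `K_n = ∫ exp(-|y|²) |y|⁻² dy` over `ℝ^n`. -/
noncomputable def KK (n : ℕ) : ℝ≥0∞ :=
  ∫⁻ y : V n, ENNReal.ofReal (Real.exp (-‖y‖ ^ 2) * (‖y‖ ^ 2)⁻¹)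

/-- The volume of the unit ball of `ℝ^d`. -/
noncomputable def om (d : ℕ) : ℝ := √Real.pi ^ d / Real.Gamma (d / 2 + 1)

/-- Piece D_KK.

Proof. `integral_fun_norm_addHaar` (or its lintegral version `lintegral_fun_norm_addHaar`) gives
`K_n = n ω_n ∫_0^∞ r^(n-1) r⁻² exp(-r²) dr` with `ω_n = om n` (`EuclideanSpace.volume_ball`), and the
last integral is `Γ(n/2 - 1) / 2` (`Real.integral_rpow_mul_exp_neg_rpow` or
`integral_rpow_mul_exp_neg_mul_sq`...).  As `Γ(n/2 + 1) = (n/2) (n/2 - 1) Γ(n/2 - 1)`,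
`K_n = π^(n/2) / (n/2 - 1)`. -/
def D_KK : Prop := ∀ n : ℕ, 3 ≤ n →
  KK n = ENNReal.ofReal (2 * √Real.pi ^ n / ((n : ℝ) - 2))

/-- Piece D_ROT.

Proof. By homogeneity `‖v‖ = 1`.  A linear isometry equivalence of `V (n + 1)` maps `v` to the
basis vector `e₀` and preserves the volume (`LinearIsometryEquiv.measurePreserving`); the
integrand becomes `exp(-‖g‖²) (g₁² + ... + g_n²)⁻¹`.  Splitting off the coordinate `0`
(`MeasurableEquiv.piFinSuccAbove`, `EuclideanSpace.volume_preserving_...`) the integral is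
`(∫ exp(-t²) dt) K_n = √π K_n` (Tonelli). -/
def D_ROT : Prop := ∀ n : ℕ, 1 ≤ n → ∀ v : V (n + 1), v ≠ 0 →
  ∫⁻ g : V (n + 1), ENNReal.ofReal (Real.exp (-‖g‖ ^ 2) * (‖g‖ ^ 2 * ‖v‖ ^ 2 - ⟪v, g⟫ ^ 2)⁻¹) =
    ENNReal.ofReal (‖v‖ ^ 2)⁻¹ * (ENNReal.ofReal √Real.pi * KK n)

/-- Piece D_STEP (projection to a good hyperplane), from D_KK and D_ROT.

Proof. For `g ≠ 0` in `V (n + 1)` there is a linear isometry `S_g : V n → V (n + 1)` whose range is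
the orthogonal complement of `g` (`Orthonormal.exists_orthonormalBasis_extension_of_card_eq`), and
its adjoint `T_g` satisfies `‖T_g v‖² = ‖v‖² - ⟪v, g⟫² / ‖g‖²`.  Hence
`en (μ.map T_g) = ∫⁻ x, ∫⁻ y, ofReal (‖g‖² (‖g‖² ‖x - y‖² - ⟪x - y, g⟫²)⁻¹)`.  Integrate with respect
to `g` with the weight `w(g) = exp(-‖g‖²) ‖g‖⁻²`, total mass `K_{n+1}` (positive, finite): by
Tonelli and D_ROT the result is `√π K_n en μ` (the terms with `x = y` are `0`).  So some `g ≠ 0`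
has `en (μ.map T_g) ≤ (√π K_n / K_{n+1}) en μ`, and the factor is `(n - 1) / (n - 2)` by D_KK. -/
def D_STEP : Prop := ∀ n : ℕ, 3 ≤ n → ∀ μ : Measure (V (n + 1)), IsFiniteMeasure μ →
  ∃ S : V n →ₗᵢ[ℝ] V (n + 1),
    en (μ.map (ContinuousLinearMap.adjoint S.toContinuousLinearMap)) ≤
      ENNReal.ofReal (((n : ℝ) - 1) / ((n : ℝ) - 2)) * en μ

/-- Piece D_RED, from D_STEP by induction (`d = 3`: the identity; the adjoint of a composition is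
the composition of the adjoints, `Measure.map_map`; the product of the factors is `d - 2`). -/
def D_RED : Prop := ∀ d : ℕ, 3 ≤ d → ∀ μ : Measure (V d), IsFiniteMeasure μ →
  ∃ S : V 3 →ₗᵢ[ℝ] V d,
    en (μ.map (ContinuousLinearMap.adjoint S.toContinuousLinearMap)) ≤
      ENNReal.ofReal ((d : ℝ) - 2) * en μ

/-- Piece D_PLANE, from D_RED and the pieces S_DIR and S_CS of `Stm.lean`.

Proof. `μ = volume.withDensity ρ`, `S` from D_RED, `T` the adjoint of `S`, `μ₃ = μ.map T`.  `T` is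
surjective (`T ∘ S = id`), so `μ₃ ≪ volume` (`LinearMap.quasiMeasurePreserving`), and
`μ₃ = volume.withDensity f` with `f = μ₃.rnDeriv volume` measurable
(`Measure.withDensity_rnDeriv_eq`).  Then `riesz f = en μ₃` (`lintegral_withDensity_eq_lintegral_mul`)
and similarly `rieszD ρ = en μ`.  S_DIR gives a unit vector `e`; take `a', b'` with
`(a', b', e)` orthonormal, `a = S a'`, `b = S b'`, `L = lineEn f e`.  As `⟪S a', x⟫ = ⟪a', T x⟫`,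
`∫⁻ ρ g(⟪a,x⟫, ⟪b,x⟫) = ∫⁻ f g(⟪a',y⟫, ⟪b',y⟫)` (`lintegral_map`), and S_CS applies. -/
def D_PLANE : Prop := ∀ d : ℕ, 3 ≤ d → ∀ ρ : V d → ℝ≥0∞, Measurable ρ → ∫⁻ x, ρ x ≠ ∞ →
  ∃ (a b : V d) (L : ℝ≥0∞), Orthonormal ℝ ![a, b] ∧
    L ≤ ENNReal.ofReal (((d : ℝ) - 2) / (2 * Real.pi)) * rieszD ρ ∧
    ∀ g : ℝ → ℝ → ℝ≥0∞, Measurable (fun z : ℝ × ℝ => g z.1 z.2) →
      (∫⁻ x, ρ x * g ⟪a, x⟫ ⟪b, x⟫) ^ 2 ≤ L * ∫⁻ z : ℝ × ℝ, g z.1 z.2 ^ 2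

/-- Piece D_CS2 (the plane case): Cauchy-Schwarz and the change of variables
`x ↦ (⟪a, x⟫, ⟪b, x⟫)`, which preserves the volume. -/
def D_CS2 : Prop := ∀ (f : V 2 → ℝ≥0∞) (g : ℝ → ℝ → ℝ≥0∞) (a b : V 2), Measurable f →
  Measurable (fun z : ℝ × ℝ => g z.1 z.2) → Orthonormal ℝ ![a, b] →
  (∫⁻ x, f x * g ⟪a, x⟫ ⟪b, x⟫) ^ 2 ≤ (∫⁻ x, f x ^ 2) * ∫⁻ z : ℝ × ℝ, g z.1 z.2 ^ 2

/-- Piece D_BALL: potential of a set of given volume.  As S_BALL (theorem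
`Pool.Agent.Run7.h799.MY.t_BALL`): with `R` the radius of the ball of volume `vol A`,
`∫_A k ≤ ∫_{B(y,R)} k = d ω_d R^(d-2) / (d - 2)`, `R = (vol A / ω_d)^(1/d)`. -/
def D_BALL : Prop := ∀ d : ℕ, 3 ≤ d → ∀ (A : Set (V d)) (y : V d), MeasurableSet A →
  volume A ≠ ∞ →
  ∫⁻ x in A, ENNReal.ofReal (‖x - y‖ ^ 2)⁻¹ ≤
    ENNReal.ofReal ((d : ℝ) / ((d : ℝ) - 2) * om d ^ (2 / (d : ℝ))) *
      volume A ^ (1 - 2 / (d : ℝ))

/-- Piece D_CAKE, from D_BALL.  As S_CAKE (theorem `Pool.Agent.Run7.h305.MYC.t_CAKE`, file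
`Pool/Agent/Run7/h305/MY/CAKE.lean`): with `V a = vol {f > a}` and `C` the constant of D_BALL,
`rieszD f ≤ 2 C ∫⁻ b, V b * ∫⁻ a in Ioo 0 b, V(a)^(1 - 2/d)`, by Hoelder (exponents `d/(d-2)` and
`d/2`) the inner integral is at most `M^(1 - 2/d) b^(2/d)`, and
`∫⁻ b, V b * b^(2/d) = (d / (d + 2)) ∫⁻ f^(1 + 2/d)`. -/
def D_CAKE : Prop := ∀ d : ℕ, 3 ≤ d → ∀ f : V d → ℝ, Measurable f → (∀ x, 0 ≤ f x) →
  ∫⁻ x, ENNReal.ofReal (f x) ≠ ∞ →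
  rieszD (fun x => ENNReal.ofReal (f x)) ≤
    ENNReal.ofReal (2 * ((d : ℝ) / ((d : ℝ) + 2)) *
        ((d : ℝ) / ((d : ℝ) - 2) * om d ^ (2 / (d : ℝ)))) *
      (∫⁻ x, ENNReal.ofReal (f x)) ^ (1 - 2 / (d : ℝ)) *
      ∫⁻ x, ENNReal.ofReal (f x ^ (1 + 2 / (d : ℝ)))

/-- Piece D_NUM: the constants.

Proof. The claim is `(17/4) d ω^(4/d) 2^(1 - 2/d) ≤ 4 π³`, `ω = π^(d/2) / Γ(d/2 + 1)`.  Raise to the
power `d/2`: it is `(17 d / (8 π))^(d/2) ≤ 2 Γ(d/2 + 1)²`.  This holds for `d = 3, 4, 5, 6, 7`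
(for `d = 5`: `(85 / (8 π))⁵ = 442.5 < 487.9 = 4 Γ(7/2)⁴`, `Γ(7/2) = 15 √π / 8`), and if it holds for
`d ≥ 6` then for `d + 2`: the left side gets the factor
`(1 + 2/d)^(d/2) 17 (d + 2) / (8 π) ≤ e 17 (d + 2) / (8 π)`, the right side the factor
`(d + 2)² / 4`, and `17 e / (8 π) ≤ 8 / 4`. -/
def D_NUM : Prop := ∀ d : ℕ, 3 ≤ d →
  17 / 4 * (((d : ℝ) - 2) / (2 * Real.pi)) *
      (2 * ((d : ℝ) / ((d : ℝ) + 2)) * ((d : ℝ) / ((d : ℝ) - 2) * om d ^ (2 / (d : ℝ)))) *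
      (2:ℝ) ^ (1 - 2 / (d : ℝ)) ≤
    4 * Real.pi ^ 2 * d / (d + 2) * om d ^ (-(2 / (d : ℝ)))

/-- The truncated function `((h - 1/8) (h + 4))⁺`. -/
noncomputable def gg (p q c s t : ℝ) : ℝ :=
  max 0 ((hh p q c s t - 1 / 8) * (hh p q c s t + 4))

/-- Piece D_INT.

Proof. Translate to `p = q = 0`; polar coordinates; with `D = c² + r²`, `h = c² / D`, the integral is
`π ∫_{c²}^{8c²} (h² + (31/8) h - 1/2)² dD = π c² (511/1536 + (31/4) (63/128) + (897/64) (7/8)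
- (31/8) log 8 + 7/4)`, about `31.74 c²` (see the theorem `Run7.h834.MY.t_INT` for `∫ h³`). -/
def D_INT : Prop := ∀ p q c : ℝ, 0 < c →
  ∫⁻ z : ℝ × ℝ, ENNReal.ofReal (gg p q c z.1 z.2) ^ 2 ≤ ENNReal.ofReal (255 / 8 * c ^ 2)

/-- Piece D_COST, from D_INT.

Proof. Let `m(x) = hh p q c ⟪a, x⟫ ⟪b, x⟫`, `S = ∫ ρ (m + m²)`.  As `∫ ρ = 2`, `∫ ρ m = 1`:
`∫ ρ (m - 1/8) (m + 4) = ∫ ρ (m² + (31/8) m - 1/2) = S - 1 + 31/8 - 1 = S + 15/8`.  Hence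
`(S + 15/8)² ≤ L (255/8) c²` by the hypothesis and D_INT; with `u = √L c` (if `L = ∞` the claim is
trivial): `S ≤ √(255/8) u - 15/8 ≤ (17/4) u²`, because
`√(255/8) u ≤ (17/4) u² + (255/8) / 17` (AM-GM) and `(255/8) / 17 = 15/8`. -/
def D_COST : Prop := ∀ (d : ℕ) (ρ : V d → ℝ) (a b : V d) (p q c : ℝ) (L : ℝ≥0∞), Measurable ρ →
  (∀ x, 0 ≤ ρ x) → Integrable ρ → ∫ x, ρ x = 2 → 0 < c →
  ∫ x, ρ x * hh p q c ⟪a, x⟫ ⟪b, x⟫ = 1 →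
  (∫⁻ x, ENNReal.ofReal (ρ x) * ENNReal.ofReal (gg p q c ⟪a, x⟫ ⟪b, x⟫)) ^ 2 ≤
    L * ∫⁻ z : ℝ × ℝ, ENNReal.ofReal (gg p q c z.1 z.2) ^ 2 →
  ENNReal.ofReal ((c ^ 2)⁻¹ * ∫ x, ρ x *
      (hh p q c ⟪a, x⟫ ⟪b, x⟫ + hh p q c ⟪a, x⟫ ⟪b, x⟫ ^ 2)) ≤
    ENNReal.ofReal (17 / 4) * L

end Pool.Agent.Run7.h670.MY
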