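import Pool.Agent.Run7.h670.MY.Geo
import Pool.Agent.Run7.h670.MY.StmD

/-!
# The choice of the plane and of the barycentre, every dimension
-/

set_option autoImplicit false

open MeasureTheory Set Filter Topology Real
open scoped ContDiff RealInnerProductSpace ENNReal

namespace Pool.Agent.Run7.h670.MY

/-- The semiclassical constant `K_cl = (4π²d/(d+2)) |B₁|^{-2/d}`. -/
noncomputable def Kcl (d : ℕ) : ℝ :=
  4 * Real.pi ^ 2 * d / (d + 2) *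
    (volume.real (Metric.ball (0 : V d) 1)) ^ (-(2 / (d:ℝ)))

lemma vol_ball {d : ℕ} (hd : 1 ≤ d) : volume.real (Metric.ball (0 : V d) 1) = om d := by
  haveI : Nonempty (Fin d) := ⟨⟨0, hd⟩⟩
  rw [measureReal_def, EuclideanSpace.volume_ball, om]
  simp only [Fintype.card_fin, ENNReal.ofReal_one, one_pow, one_mul]
  rw [ENNReal.toReal_ofReal]
  have : 0 < Real.Gamma ((d:ℝ) / 2 + 1) := Real.Gamma_pos_of_pos (by positivity)
  positivity

lemma om_pos (d : ℕ) : 0 < om d := by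
  unfold om
  have : 0 < Real.Gamma ((d:ℝ) / 2 + 1) := Real.Gamma_pos_of_pos (by positivity)
  positivity

lemma om_two : om 2 = π := by
  unfold om
  have : ((2:ℕ):ℝ) / 2 + 1 = 2 := by norm_num
  rw [this, Real.Gamma_two, Real.sq_sqrt Real.pi_pos.le, div_one]

lemma Kcl_two : Kcl 2 = 2 * π := by
  unfold Kcl
  rw [vol_ball (by norm_num), om_two]
  have : -(2 / ((2:ℕ):ℝ)) = -1 := by norm_num
  rw [this, Real.rpow_neg_one]
  have := Real.pi_pos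
  push_cast
  field_simp
  norm_num

lemma isON_of2 {d : ℕ} {a b : V d} (h : Orthonormal ℝ ![a, b]) : IsON a b := by
  have ha : ‖a‖ = 1 := h.1 0
  have hb : ‖b‖ = 1 := h.1 1
  have hab : (⟪a, b⟫ : ℝ) = 0 := h.2 (i := 0) (j := 1) (by decide)
  refine ⟨?_, ?_, ?_⟩
  · rw [← EuclideanSpace.real_norm_sq_eq, ha]; norm_num
  · rw [← EuclideanSpace.real_norm_sq_eq, hb]; norm_num
  · rw [← hab, PiLp.inner_apply]
    exact Finset.sum_congr rfl fun i _ => by simp [mul_comm]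

/-- The common part: a plane with the Cauchy-Schwarz property. -/
lemma geo_core (hBAR : S_BAR) (hCOST : D_COST) {d : ℕ} {ρ r : V d → ℝ} (h0 : ∀ x, 0 ≤ ρ x)
    (hi : Integrable ρ) (h2 : ∫ x, ρ x = 2) (hrm : Measurable r) (hr0 : ∀ x, 0 ≤ r x)
    (hr : ρ =ᵐ[volume] r) {a b : V d} {L : ℝ≥0∞} (hab : Orthonormal ℝ ![a, b])
    (hCS : ∀ g : ℝ → ℝ → ℝ≥0∞, Measurable (fun z : ℝ × ℝ => g z.1 z.2) →
      (∫⁻ x, ENNReal.ofReal (r x) * g ⟪a, x⟫ ⟪b, x⟫) ^ 2 ≤ L * ∫⁻ z : ℝ × ℝ, g z.1 z.2 ^ 2) :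
    ∃ (p q c : ℝ), IsON a b ∧ 0 < c ∧
      ∫ x, ρ x * hh p q c ⟪a, x⟫ ⟪b, x⟫ = 1 ∧
      ∫ x, ρ x * ((⟪a, x⟫ - p) / (c ^ 2 + (⟪a, x⟫ - p) ^ 2 + (⟪b, x⟫ - q) ^ 2)) = 0 ∧
      ∫ x, ρ x * ((⟪b, x⟫ - q) / (c ^ 2 + (⟪a, x⟫ - p) ^ 2 + (⟪b, x⟫ - q) ^ 2)) = 0 ∧
      ENNReal.ofReal ((c ^ 2)⁻¹ * ∫ x, ρ x *
        (hh p q c ⟪a, x⟫ ⟪b, x⟫ + hh p q c ⟪a, x⟫ ⟪b, x⟫ ^ 2)) ≤ ENNReal.ofReal (17 / 4) * L := by
  have hri : Integrable r := hi.congr hr
  have hr2 : ∫ x, r x = 2 := by rw [← h2]; exact (integral_congr_ae hr).symm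
  have ha0 : a ≠ 0 := by
    intro h
    have : ‖a‖ = 1 := hab.1 0
    rw [h, norm_zero] at this; exact zero_ne_one this
  obtain ⟨p, q, c, hc, k1, k2, k3⟩ := bary_of hBAR hrm hr0 hri hr2 (a := a) (b := b) ha0
  have hcost := hCOST d r a b p q c L hrm hr0 hri hr2 hc k1
    (hCS (fun s t => ENNReal.ofReal (gg p q c s t)) (by
      unfold gg hh
      fun_prop))
  have cg : ∀ g : V d → ℝ, ∫ x, r x * g x = ∫ x, ρ x * g x := by
    intro g
    refine integral_congr_ae ?_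
    filter_upwards [hr] with x hx
    rw [hx]
  rw [cg] at k1 k2 k3 hcost
  exact ⟨p, q, c, isON_of2 hab, hc, k1, k2, k3, hcost⟩

/-- The geometric theorem in every dimension `d ≥ 2`. -/
theorem geoD (hBAR : S_BAR) (hCOST : D_COST) (hPL : D_PLANE) (hCS2 : D_CS2) (hCAKE : D_CAKE)
    (hNUM : D_NUM) {d : ℕ} (hd : 2 ≤ d) {ρ : V d → ℝ} (h0 : ∀ x, 0 ≤ ρ x) (hi : Integrable ρ)
    (h2 : ∫ x, ρ x = 2) :
    ∃ (a b : V d) (p q c : ℝ), IsON a b ∧ 0 < c ∧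
      ∫ x, ρ x * hh p q c ⟪a, x⟫ ⟪b, x⟫ = 1 ∧
      ∫ x, ρ x * ((⟪a, x⟫ - p) / (c ^ 2 + (⟪a, x⟫ - p) ^ 2 + (⟪b, x⟫ - q) ^ 2)) = 0 ∧
      ∫ x, ρ x * ((⟪b, x⟫ - q) / (c ^ 2 + (⟪a, x⟫ - p) ^ 2 + (⟪b, x⟫ - q) ^ 2)) = 0 ∧
      ENNReal.ofReal ((c ^ 2)⁻¹ * ∫ x, ρ x *
        (hh p q c ⟪a, x⟫ ⟪b, x⟫ + hh p q c ⟪a, x⟫ ⟪b, x⟫ ^ 2)) ≤
      ENNReal.ofReal (Kcl d) * ∫⁻ x, ENNReal.ofReal (ρ x ^ (1 + 2 / (d : ℝ))) := by
  -- a measurable version
  obtain ⟨r, hrm, hr⟩ : ∃ r : V d → ℝ, (Measurable r ∧ ∀ x, 0 ≤ r x) ∧ ρ =ᵐ[volume] r := by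
    refine ⟨fun x => max 0 (hi.1.mk ρ x), ⟨?_, fun x => le_max_left _ _⟩, ?_⟩
    · exact measurable_const.max hi.1.stronglyMeasurable_mk.measurable
    · filter_upwards [hi.1.ae_eq_mk] with x hx
      rw [← hx, max_eq_right (h0 x)]
  obtain ⟨hrm, hr0⟩ := hrm
  have hri : Integrable r := hi.congr hr
  have hr2 : ∫ x, r x = 2 := by rw [← h2]; exact (integral_congr_ae hr).symm
  have hM : ∫⁻ x, ENNReal.ofReal (r x) = ENNReal.ofReal 2 := by
    rw [← ofReal_integral_eq_lintegral_ofReal hri (Eventually.of_forall hr0), hr2]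
  have cg2 : ∫⁻ x, ENNReal.ofReal (r x ^ (1 + 2 / (d : ℝ))) =
      ∫⁻ x, ENNReal.ofReal (ρ x ^ (1 + 2 / (d : ℝ))) := by
    refine lintegral_congr_ae ?_
    filter_upwards [hr] with x hx
    rw [hx]
  set I := ∫⁻ x, ENNReal.ofReal (ρ x ^ (1 + 2 / (d : ℝ))) with hI
  rcases hd.eq_or_lt with rfl | hd3
  · -- the plane
    have hab : Orthonormal ℝ ![(EuclideanSpace.single 0 1 : V 2), EuclideanSpace.single 1 1] := by
      have h := (EuclideanSpace.basisFun (Fin 2) ℝ).orthonormal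
      have e : ![(EuclideanSpace.single 0 1 : V 2), EuclideanSpace.single 1 1] =
          (EuclideanSpace.basisFun (Fin 2) ℝ) := by
        funext i
        fin_cases i <;> simp
      rw [e]; exact h
    obtain ⟨p, q, c, hON, hc, k1, k2, k3, k4⟩ := geo_core hBAR hCOST h0 hi h2 hrm hr0 hr hab
      (L := ∫⁻ x, ENNReal.ofReal (r x) ^ 2)
      (fun g hg => hCS2 (fun x => ENNReal.ofReal (r x)) g _ _ hrm.ennreal_ofReal hg hab)
    refine ⟨_, _, p, q, c, hON, hc, k1, k2, k3, k4.trans ?_⟩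
    have e1 : ∫⁻ x, ENNReal.ofReal (r x) ^ 2 = I := by
      rw [← cg2]
      refine lintegral_congr fun x => ?_
      rw [← ENNReal.ofReal_pow (hr0 x)]
      congr 1
      rw [← Real.rpow_natCast]
      norm_num
    rw [e1, Kcl_two]
    gcongr
    linarith [Real.pi_gt_three]
  · have hd3' : 3 ≤ d := hd3
    have hdr : (3:ℝ) ≤ d := by exact_mod_cast hd3'
    obtain ⟨a, b, L, hab, hL, hCS⟩ := hPL d hd3' (fun x => ENNReal.ofReal (r x))
      hrm.ennreal_ofReal (by rw [hM]; exact ENNReal.ofReal_ne_top)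
    obtain ⟨p, q, c, hON, hc, k1, k2, k3, k4⟩ := geo_core hBAR hCOST h0 hi h2 hrm hr0 hr hab hCS
    refine ⟨_, _, p, q, c, hON, hc, k1, k2, k3, k4.trans ?_⟩
    have hcake := hCAKE d hd3' r hrm hr0 (by rw [hM]; exact ENNReal.ofReal_ne_top)
    rw [hM, cg2] at hcake
    have hnum := hNUM d hd3'
    have hpi := Real.pi_pos
    have hom := om_pos d
    have hK : Kcl d = 4 * Real.pi ^ 2 * d / (d + 2) * om d ^ (-(2 / (d : ℝ))) := by
      rw [Kcl, vol_ball (by omega)]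
    have hd2 : (0:ℝ) ≤ (d:ℝ) - 2 := by linarith
    set C := 2 * ((d : ℝ) / ((d : ℝ) + 2)) * ((d : ℝ) / ((d : ℝ) - 2) * om d ^ (2 / (d : ℝ))) with hC
    have hC0 : 0 ≤ C := by rw [hC]; positivity
    calc ENNReal.ofReal (17 / 4) * L
        ≤ ENNReal.ofReal (17 / 4) * (ENNReal.ofReal (((d : ℝ) - 2) / (2 * π)) *
          (ENNReal.ofReal C * ENNReal.ofReal 2 ^ (1 - 2 / (d : ℝ)) * I)) := by
          gcongr
          exact hL.trans (by gcongr)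
      _ = ENNReal.ofReal (17 / 4 * (((d : ℝ) - 2) / (2 * π)) * C *
            (2:ℝ) ^ (1 - 2 / (d : ℝ))) * I := by
          have key : ∀ A B C D : ℝ, 0 ≤ A → 0 ≤ B → 0 ≤ C → 0 ≤ D →
              ENNReal.ofReal (A * B * C * D) = ENNReal.ofReal A * ENNReal.ofReal B *
                ENNReal.ofReal C * ENNReal.ofReal D := by
            intro A B C D hA hB hC hD
            rw [ENNReal.ofReal_mul (by positivity), ENNReal.ofReal_mul (by positivity),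
              ENNReal.ofReal_mul (by positivity)]
          rw [key _ _ _ _ (by positivity) (by positivity) hC0 (by positivity),
            ← ENNReal.ofReal_rpow_of_pos (by norm_num : (0:ℝ) < 2)]
          ring
      _ ≤ ENNReal.ofReal (Kcl d) * I := by
          gcongr
          rw [hK]
          exact hnum

end Pool.Agent.Run7.h670.MY
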