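import Pool.Agent.Run7.h670.MY.Trig
import Pool.Agent.Run7.h670.MY.GeoD

/-!
# A good line, every dimension; the bound for every number of particles
-/

set_option autoImplicit false

open MeasureTheory Set Filter Topology Real
open scoped RealInnerProductSpace ENNReal

namespace Pool.Agent.Run7.h670.MY

/-- The constant `(12/π²) (d²/(d+2)) |B₁|^(2/d)`. -/
noncomputable def BB (d : ℕ) : ℝ := 12 / π * (1 / π * (d ^ 2 / (d + 2)) * om d ^ (2 / (d : ℝ)))

/-- A good line. -/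
theorem good_line (hPL : D_PLANE) (hCS2 : D_CS2) (hCAKE : D_CAKE) (hLINE : N_LINE)
    {d : ℕ} (hd : 2 ≤ d) {ρ : V d → ℝ} (h0 : ∀ x, 0 ≤ ρ x) (hi : Integrable ρ) {M : ℝ}
    (hM0 : 0 < M) (h2 : ∫ x, ρ x = M) (hI : Integrable fun x => ρ x ^ (1 + 2 / (d : ℝ))) :
    ∃ (e : V d) (F : ℝ → ℝ), ‖e‖ = 1 ∧ Measurable F ∧ (∀ t, 0 ≤ F t) ∧ Integrable F ∧
      MemLp F 3 volume ∧
      (volume.withDensity (fun x => ENNReal.ofReal (ρ x))).map (fun x => ⟪e, x⟫) =
        volume.withDensity (fun t => ENNReal.ofReal (F t)) ∧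
      ∫ t, F t ^ 3 ≤ BB d * M ^ (2 - 2 / (d : ℝ)) * ∫ x, ρ x ^ (1 + 2 / (d : ℝ)) := by
  have hdr : (2:ℝ) ≤ d := by exact_mod_cast hd
  -- a measurable version
  obtain ⟨r, hrm, hr⟩ : ∃ r : V d → ℝ, (Measurable r ∧ ∀ x, 0 ≤ r x) ∧ ρ =ᵐ[volume] r := by
    refine ⟨fun x => max 0 (hi.1.mk ρ x), ⟨?_, fun x => le_max_left _ _⟩, ?_⟩
    · exact measurable_const.max hi.1.stronglyMeasurable_mk.measurable
    · filter_upwards [hi.1.ae_eq_mk] with x hx
      rw [← hx, max_eq_right (h0 x)]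
  obtain ⟨hrm, hr0⟩ := hrm
  have hri : Integrable r := hi.congr hr
  have hr2 : ∫ x, r x = M := by rw [← h2]; exact (integral_congr_ae hr).symm
  have hM : ∫⁻ x, ENNReal.ofReal (r x) = ENNReal.ofReal M := by
    rw [← ofReal_integral_eq_lintegral_ofReal hri (Eventually.of_forall hr0), hr2]
  have hIr : ∫⁻ x, ENNReal.ofReal (r x ^ (1 + 2 / (d : ℝ))) =
      ENNReal.ofReal (∫ x, ρ x ^ (1 + 2 / (d : ℝ))) := by
    rw [ofReal_integral_eq_lintegral_ofReal hI
      (Eventually.of_forall fun x => Real.rpow_nonneg (h0 x) _)]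
    refine lintegral_congr_ae ?_
    filter_upwards [hr] with x hx
    rw [hx]
  set I := ∫ x, ρ x ^ (1 + 2 / (d : ℝ)) with hIdef
  have hI0 : 0 ≤ I := integral_nonneg fun x => Real.rpow_nonneg (h0 x) _
  have hmeas : volume.withDensity (fun x => ENNReal.ofReal (ρ x)) =
      volume.withDensity (fun x => ENNReal.ofReal (r x)) := by
    refine withDensity_congr_ae ?_
    filter_upwards [hr] with x hx
    rw [hx]
  have hpi := Real.pi_pos
  have hom := om_pos d
  -- the good plane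
  obtain ⟨a, b, L, hab, hCS, hL⟩ : ∃ (a b : V d) (L : ℝ≥0∞), Orthonormal ℝ ![a, b] ∧
      (∀ g : ℝ → ℝ → ℝ≥0∞, Measurable (fun z : ℝ × ℝ => g z.1 z.2) →
        (∫⁻ x, ENNReal.ofReal (r x) * g ⟪a, x⟫ ⟪b, x⟫) ^ 2 ≤ L * ∫⁻ z : ℝ × ℝ, g z.1 z.2 ^ 2) ∧
      L ≤ ENNReal.ofReal ((1 / π * (d ^ 2 / (d + 2)) * om d ^ (2 / (d : ℝ))) *
        M ^ (1 - 2 / (d : ℝ)) * I) := by
    rcases hd.eq_or_lt with rfl | hd3
    · have hab : Orthonormal ℝ ![(EuclideanSpace.single 0 1 : V 2), EuclideanSpace.single 1 1] := by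
        have h := (EuclideanSpace.basisFun (Fin 2) ℝ).orthonormal
        have e : ![(EuclideanSpace.single 0 1 : V 2), EuclideanSpace.single 1 1] =
            (EuclideanSpace.basisFun (Fin 2) ℝ) := by
          funext i
          fin_cases i <;> simp
        rw [e]; exact h
      refine ⟨_, _, ∫⁻ x, ENNReal.ofReal (r x) ^ 2, hab,
        fun g hg => hCS2 (fun x => ENNReal.ofReal (r x)) g _ _ hrm.ennreal_ofReal hg hab, ?_⟩
      have e1 : ∫⁻ x, ENNReal.ofReal (r x) ^ 2 = ENNReal.ofReal I := by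
        rw [← hIr]
        refine lintegral_congr fun x => ?_
        rw [← ENNReal.ofReal_pow (hr0 x)]
        congr 1
        rw [← Real.rpow_natCast]
        norm_num
      rw [e1, om_two]
      refine ENNReal.ofReal_le_ofReal (le_of_eq ?_)
      have e3 : (2:ℝ) / ((2:ℕ):ℝ) = 1 := by norm_num
      rw [e3, sub_self, Real.rpow_one, Real.rpow_zero]
      push_cast
      field_simp
      norm_num
    · have hd3' : 3 ≤ d := hd3
      have hdr3 : (3:ℝ) ≤ d := by exact_mod_cast hd3'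
      obtain ⟨a, b, L, hab, hL, hCS⟩ := hPL d hd3' (fun x => ENNReal.ofReal (r x))
        hrm.ennreal_ofReal (by rw [hM]; exact ENNReal.ofReal_ne_top)
      refine ⟨a, b, L, hab, hCS, hL.trans ?_⟩
      have hcake := hCAKE d hd3' r hrm hr0 (by rw [hM]; exact ENNReal.ofReal_ne_top)
      rw [hM, hIr] at hcake
      have hd2 : (0:ℝ) < (d:ℝ) - 2 := by linarith
      refine (mul_le_mul_right hcake _).trans ?_
      rw [ENNReal.ofReal_rpow_of_pos hM0, ← ENNReal.ofReal_mul (by positivity),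
        ← ENNReal.ofReal_mul (by positivity), ← ENNReal.ofReal_mul (by positivity)]
      refine ENNReal.ofReal_le_ofReal (le_of_eq ?_)
      field_simp
  -- the good line
  obtain ⟨e, Φ, he, hΦm, hmap, hΦ3⟩ := hLINE d (fun x => ENNReal.ofReal (r x)) a b L
    hrm.ennreal_ofReal (by rw [hM]; exact ENNReal.ofReal_ne_top) hab hCS
  rw [hM] at hΦ3
  have hΦ1 : ∫⁻ t, Φ t = ENNReal.ofReal M := by
    have h3 := congrArg (fun ν : Measure ℝ => ν univ) hmap
    beta_reduce at h3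
    rw [Measure.map_apply (by fun_prop) MeasurableSet.univ, preimage_univ,
      withDensity_apply _ MeasurableSet.univ, withDensity_apply _ MeasurableSet.univ,
      Measure.restrict_univ, Measure.restrict_univ, hM] at h3
    exact h3.symm
  have hΦfin : ∀ᵐ t, Φ t < ∞ := ae_lt_top hΦm (by rw [hΦ1]; exact ENNReal.ofReal_ne_top)
  set F : ℝ → ℝ := fun t => (Φ t).toReal with hF
  have hFm : Measurable F := hΦm.ennreal_toReal
  have hF0 : ∀ t, 0 ≤ F t := fun t => ENNReal.toReal_nonneg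
  have hFΦ : (fun t => ENNReal.ofReal (F t)) =ᵐ[volume] Φ := by
    filter_upwards [hΦfin] with t ht
    exact ENNReal.ofReal_toReal ht.ne
  have hF1 : ∫⁻ t, ENNReal.ofReal (F t) = ENNReal.ofReal M := by
    rw [← hΦ1]; exact lintegral_congr_ae hFΦ
  have hFi : Integrable F := by
    refine ⟨hFm.aestronglyMeasurable, ?_⟩
    rw [hasFiniteIntegral_iff_ofReal (Eventually.of_forall hF0), hF1]
    exact ENNReal.ofReal_lt_top
  set C : ℝ := BB d * M ^ (2 - 2 / (d : ℝ)) * I with hC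
  have hF3 : ∫⁻ t, ENNReal.ofReal (F t ^ 3) ≤ ENNReal.ofReal C := by
    have e1 : ∫⁻ t, ENNReal.ofReal (F t ^ 3) = ∫⁻ t, Φ t ^ 3 := by
      refine lintegral_congr_ae ?_
      filter_upwards [hFΦ] with t ht
      rw [← ht, ENNReal.ofReal_pow (hF0 t)]
    rw [e1]
    refine (hΦ3.trans (mul_le_mul_right hL _)).trans ?_
    rw [← ENNReal.ofReal_mul (by positivity), ← ENNReal.ofReal_mul (by positivity)]
    refine ENNReal.ofReal_le_ofReal (le_of_eq ?_)
    rw [hC, BB]
    have e2 : M ^ (2 - 2 / (d : ℝ)) = M * M ^ (1 - 2 / (d : ℝ)) := by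
      have : 2 - 2 / (d : ℝ) = 1 + (1 - 2 / (d : ℝ)) := by ring
      rw [this, Real.rpow_add hM0, Real.rpow_one]
    rw [e2]
    ring
  have hC0 : 0 ≤ C := by
    rw [hC, BB]; positivity
  have hF3i : Integrable (fun t => F t ^ 3) := by
    refine ⟨(hFm.pow_const 3).aestronglyMeasurable, ?_⟩
    rw [hasFiniteIntegral_iff_ofReal (Eventually.of_forall fun t => pow_nonneg (hF0 t) 3)]
    exact hF3.trans_lt ENNReal.ofReal_lt_top
  refine ⟨e, F, he, hFm, hF0, hFi, ?_, ?_, ?_⟩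
  · rw [← memLp_norm_iff hFm.aestronglyMeasurable]
    have : MemLp F 3 volume := by
      rw [← integrable_norm_rpow_iff hFm.aestronglyMeasurable (by norm_num) (by norm_num)]
      refine hF3i.congr (Eventually.of_forall fun t => ?_)
      simp only
      rw [Real.norm_eq_abs, abs_of_nonneg (hF0 t)]
      have : (3 : ℝ≥0∞).toReal = ((3:ℕ):ℝ) := by norm_num
      rw [this, Real.rpow_natCast]
    exact this.norm
  · rw [hmeas, hmap]
    exact (withDensity_congr_ae hFΦ).symm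
  · rw [← ENNReal.ofReal_le_ofReal_iff hC0, ofReal_integral_eq_lintegral_ofReal hF3i
      (Eventually.of_forall fun t => pow_nonneg (hF0 t) 3)]
    exact hF3

end Pool.Agent.Run7.h670.MY
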