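import Pool.Agent.Run7.h670.MY.Geo

/-!
# Distribution over the spin states
-/

set_option autoImplicit false

open MeasureTheory Set Filter Topology Real
open scoped ContDiff RealInnerProductSpace ENNReal

namespace Pool.Agent.Run7.h670.MY

lemma pd_const {d : ℕ} (i : Fin d) (t : ℝ) (x : V d) : pd i (fun _ : V d => t) x = 0 := by
  unfold pd; simp

lemma pd_const_mul {d : ℕ} {w : V d → ℝ} (hw : ContDiff ℝ ∞ w) (i : Fin d) (t : ℝ) (x : V d) :
    pd i (fun y => t * w y) x = t * pd i w x := by
  unfold pd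
  have h := ((hw.differentiable (by simp)).differentiableAt (x := x)).hasFDerivAt.const_mul t
  rw [h.fderiv]
  rfl

/-- At most one particle per spin state. -/
lemma few {d q N : ℕ} (hN : 1 ≤ N) (hNq : N ≤ q) {ρ : V d → ℝ} {G : Fin d → V d → ℂ}
    (h0 : ∀ x, 0 ≤ ρ x) (hi : Integrable ρ) (hρ : ∫ x, ρ x = N)
    (hG : IsSobolev (fun x => ((√(ρ x) : ℝ) : ℂ)) G) :
    ∃ (φ : Fin N → Fin q → V d → ℂ) (g : Fin N → Fin q → Fin d → V d → ℂ), IsFamily ρ φ g ∧
      kinetic g = ∑ i, ∫ x, ‖G i x‖ ^ 2 := by
  have hN0 : (0:ℝ) < N := by exact_mod_cast hN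
  have hs : (√(N:ℝ))⁻¹ ^ 2 = (N:ℝ)⁻¹ := by rw [inv_pow, Real.sq_sqrt hN0.le]
  have hs1 : |(√(N:ℝ))⁻¹| ≤ 1 := by
    rw [abs_of_nonneg (by positivity)]
    refine inv_le_one_of_one_le₀ ?_
    rw [Real.one_le_sqrt]; exact_mod_cast hN
  obtain ⟨φ, g, h1, h2⟩ := fam h0 hi hG (Fin.castLE hNq) (fun _ _ => (√(N:ℝ))⁻¹) (fun _ _ => 0)
    (fun _ => contDiff_const) (fun _ => contDiff_const) (K := 1) (fun _ _ => hs1)
    (fun _ _ => by simp) (fun _ _ _ => by rw [pd_const]; simp) (fun _ _ _ => by rw [pd_const]; simp)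
    (fun x => by
      simp only [hs]
      rw [Finset.sum_const, Finset.card_univ, Fintype.card_fin, nsmul_eq_mul]
      field_simp
      norm_num)
    (fun n m h => by
      have : n = m := Fin.castLE_injective hNq h
      rw [if_pos this]
      have e : ∀ x, ρ x * ((√(N:ℝ))⁻¹ * (√(N:ℝ))⁻¹ + 0 * 0) = ρ x * (N:ℝ)⁻¹ := by
        intro x; rw [← hs]; ring
      simp only [e]
      rw [integral_mul_const, hρ]
      exact mul_inv_cancel₀ hN0.ne')
    (fun n m _ => by simp)
  refine ⟨φ, g, h1, ?_⟩
  rw [h2]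
  simp only [pd_const]
  simp

section many

variable {d : ℕ} (s r : ℕ)

/-- The spin states. -/
def spin : Fin (s + r + s) → Fin (s + r) :=
  Fin.addCases (fun i => i) (fun j => Fin.castAdd r j)

lemma spin_left (i : Fin (s + r)) : spin s r (Fin.castAdd s i) = i := by simp [spin]
lemma spin_right (j : Fin s) : spin s r (Fin.natAdd (s + r) j) = Fin.castAdd r j := by
  simp [spin]

/-- A family of functions indexed by the particles. -/
def tri3 (f g h : V d → ℝ) : Fin (s + r + s) → V d → ℝ :=
  Fin.addCases (Fin.addCases (fun _ => f) (fun _ => g)) (fun _ => h)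

lemma tri3_ll (f g h : V d → ℝ) (j : Fin s) :
    tri3 s r f g h (Fin.castAdd s (Fin.castAdd r j)) = f := by simp [tri3]
lemma tri3_lr (f g h : V d → ℝ) (k : Fin r) :
    tri3 s r f g h (Fin.castAdd s (Fin.natAdd s k)) = g := by simp [tri3]
lemma tri3_r (f g h : V d → ℝ) (j : Fin s) :
    tri3 s r f g h (Fin.natAdd (s + r) j) = h := by simp [tri3]

lemma tri3_forall {f g h : V d → ℝ} {P : (V d → ℝ) → Prop} (hf : P f) (hg : P g) (hh : P h)
    (n : Fin (s + r + s)) : P (tri3 s r f g h n) := by
  induction n using Fin.addCases with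
  | left i =>
    induction i using Fin.addCases with
    | left j => rw [tri3_ll]; exact hf
    | right k => rw [tri3_lr]; exact hg
  | right j => rw [tri3_r]; exact hh

lemma tri3_sum {f g h f' g' h' : V d → ℝ} (Q : (V d → ℝ) → (V d → ℝ) → ℝ) :
    ∑ n, Q (tri3 s r f g h n) (tri3 s r f' g' h' n) = s * Q f f' + r * Q g g' + s * Q h h' := by
  rw [Fin.sum_univ_add, Fin.sum_univ_add]
  simp only [tri3_ll, tri3_lr, tri3_r]
  simp

/-- More than one particle per spin state. -/
lemma many (hs : 1 ≤ s) {ρ : V d → ℝ} {G : Fin d → V d → ℂ}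
    (h0 : ∀ x, 0 ≤ ρ x) (hi : Integrable ρ) {N : ℝ} (hN : N = s + r + s) (hρ : ∫ x, ρ x = N)
    (hG : IsSobolev (fun x => ((√(ρ x) : ℝ) : ℂ)) G) {a b : V d} {p q c : ℝ} (hON : IsON a b)
    (hc : 0 < c) (k1 : ∫ x, (2 / N * ρ x) * hh p q c ⟪a, x⟫ ⟪b, x⟫ = 1)
    (k2 : ∫ x, (2 / N * ρ x) *
      ((⟪a, x⟫ - p) / (c ^ 2 + (⟪a, x⟫ - p) ^ 2 + (⟪b, x⟫ - q) ^ 2)) = 0)
    (k3 : ∫ x, (2 / N * ρ x) *
      ((⟪b, x⟫ - q) / (c ^ 2 + (⟪a, x⟫ - p) ^ 2 + (⟪b, x⟫ - q) ^ 2)) = 0) :
    ∃ (φ : Fin (s + r + s) → Fin (s + r) → V d → ℂ)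
      (g : Fin (s + r + s) → Fin (s + r) → Fin d → V d → ℂ), IsFamily ρ φ g ∧
      kinetic g = (∑ i, ∫ x, ‖G i x‖ ^ 2) + s * ((c ^ 2)⁻¹ * ∫ x, (2 / N * ρ x) *
        (hh p q c ⟪a, x⟫ ⟪b, x⟫ + hh p q c ⟪a, x⟫ ⟪b, x⟫ ^ 2)) := by
  have hs0 : (1:ℝ) ≤ s := by exact_mod_cast hs
  have hN0 : 0 < N := by rw [hN]; positivity
  set α : ℝ := √(2 / N) with hα
  set β : ℝ := √(1 / N) with hβ
  have hα2 : α * α = 2 / N := Real.mul_self_sqrt (by positivity)
  have hβ2 : β * β = 1 / N := Real.mul_self_sqrt (by positivity)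
  have hα0 : 0 ≤ α := Real.sqrt_nonneg _
  have hβ0 : 0 ≤ β := Real.sqrt_nonneg _
  have s1 := w1_smooth a b p q hc
  have s2 := w2_smooth a b p q hc
  have s3 := w3_smooth a b p q hc
  set W1 : V d → ℝ := w1 a b p q c with hW1
  set W2 : V d → ℝ := w2 a b p q c with hW2
  set W3 : V d → ℝ := w3 a b p q c with hW3
  set K : ℝ := α + β + α * (2 / c) with hK
  have hc2 : 0 ≤ α * (2 / c) := by positivity
  have bnd : ∀ {w : V d → ℝ}, (∀ x, |w x| ≤ 1) → ∀ x, |α * w x| ≤ K := by
    intro w hw x
    rw [abs_mul, abs_of_nonneg hα0]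
    have := mul_le_mul_of_nonneg_left (hw x) hα0
    rw [hK]; linarith
  have bnd' : ∀ {w : V d → ℝ}, ContDiff ℝ ∞ w → ∀ i, (∀ x, |pd i w x| ≤ 2 / c) →
      ∀ x, |pd i (fun y => α * w y) x| ≤ K := by
    intro w hw i hb x
    rw [pd_const_mul hw, abs_mul, abs_of_nonneg hα0]
    have := mul_le_mul_of_nonneg_left (hb x) hα0
    rw [hK]; linarith
  have hK0 : 0 ≤ K := by rw [hK]; positivity
  -- integrals
  have bdd : ∀ (w : V d → ℝ), Continuous w → (∀ x, |w x| ≤ 1) → Integrable (fun x => ρ x * w x) := by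
    intro w hw hC
    refine hi.mono' (hi.1.mul hw.aestronglyMeasurable) (Eventually.of_forall fun x => ?_)
    rw [norm_mul, Real.norm_eq_abs, Real.norm_eq_abs, abs_of_nonneg (h0 x)]
    exact mul_le_of_le_one_right (h0 x) (hC x)
  have A1 : ∫ x, ρ x * ((α * W1 x) * (α * W1 x) + 0 * 0) = 1 := by
    rw [← k1]
    refine integral_congr_ae (Eventually.of_forall fun x => ?_)
    simp only
    rw [← w1_sq a b p q hc x, ← hα2]
    ring
  have A2 : ∫ x, ρ x * ((α * W1 x) * (α * W2 x)) = 0 := by
    have : ∫ x, ρ x * ((α * W1 x) * (α * W2 x)) = c * ∫ x, (2 / N * ρ x) *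
        ((⟪a, x⟫ - p) / (c ^ 2 + (⟪a, x⟫ - p) ^ 2 + (⟪b, x⟫ - q) ^ 2)) := by
      rw [← integral_const_mul]
      refine integral_congr_ae (Eventually.of_forall fun x => ?_)
      simp only
      have hs := ss_sq a b p q hc x
      have hD := DD_pos a b p q hc x
      rw [← hα2, hW1, hW2]
      have e : (⟪a, x⟫ - p) / (c ^ 2 + (⟪a, x⟫ - p) ^ 2 + (⟪b, x⟫ - q) ^ 2) =
          (⟪a, x⟫ - p) * ss a b p q c x ^ 2 := by
        rw [div_eq_iff (show (c ^ 2 + (⟪a, x⟫ - p) ^ 2 + (⟪b, x⟫ - q) ^ 2) ≠ 0 from hD.ne')]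
        have : ss a b p q c x ^ 2 * (c ^ 2 + (⟪a, x⟫ - p) ^ 2 + (⟪b, x⟫ - q) ^ 2) = 1 := hs
        linear_combination (-(⟪a, x⟫ - p)) * this
      rw [e]
      simp only [w1, w2]
      ring
    rw [this, k2, mul_zero]
  have A3 : ∫ x, ρ x * ((α * W1 x) * (α * W3 x)) = 0 := by
    have : ∫ x, ρ x * ((α * W1 x) * (α * W3 x)) = c * ∫ x, (2 / N * ρ x) *
        ((⟪b, x⟫ - q) / (c ^ 2 + (⟪a, x⟫ - p) ^ 2 + (⟪b, x⟫ - q) ^ 2)) := by
      rw [← integral_const_mul]
      refine integral_congr_ae (Eventually.of_forall fun x => ?_)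
      simp only
      have hs := ss_sq a b p q hc x
      have hD := DD_pos a b p q hc x
      rw [← hα2, hW1, hW3]
      have e : (⟪b, x⟫ - q) / (c ^ 2 + (⟪a, x⟫ - p) ^ 2 + (⟪b, x⟫ - q) ^ 2) =
          (⟪b, x⟫ - q) * ss a b p q c x ^ 2 := by
        rw [div_eq_iff (show (c ^ 2 + (⟪a, x⟫ - p) ^ 2 + (⟪b, x⟫ - q) ^ 2) ≠ 0 from hD.ne')]
        have : ss a b p q c x ^ 2 * (c ^ 2 + (⟪a, x⟫ - p) ^ 2 + (⟪b, x⟫ - q) ^ 2) = 1 := hs
        linear_combination (-(⟪b, x⟫ - q)) * this
      rw [e]
      simp only [w1, w3]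
      ring
    rw [this, k3, mul_zero]
  have A4 : ∫ x, ρ x * ((α * W2 x) * (α * W2 x) + (α * W3 x) * (α * W3 x)) = 1 := by
    have e : ∀ x, ρ x * ((α * W2 x) * (α * W2 x) + (α * W3 x) * (α * W3 x)) =
        2 / N * ρ x - ρ x * ((α * W1 x) * (α * W1 x) + 0 * 0) := by
      intro x
      have := w_sq a b p q hc x
      rw [← hα2]
      linear_combination (ρ x * α * α) * this
    simp only [e]
    have hI : Integrable (fun x => ρ x * ((α * W1 x) * (α * W1 x) + 0 * 0)) := by
      have := (bdd (fun x => W1 x * W1 x) (s1.continuous.mul s1.continuous) (fun x => by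
        rw [abs_mul]
        have h := (w_abs a b p q hc x).1
        exact mul_le_one₀ h (abs_nonneg _) h)).const_mul (α * α)
      refine this.congr (Eventually.of_forall fun x => ?_)
      simp only; ring
    rw [integral_sub (hi.const_mul _) hI, A1, integral_const_mul, hρ, div_mul_cancel₀ _ hN0.ne']
    norm_num
  have A5 : ∫ x, ρ x * (β * β + 0 * 0) = 1 := by
    simp only [hβ2]
    rw [integral_mul_const, hρ]
    field_simp
    norm_num
  set u := tri3 s r (fun x => α * W1 x) (fun _ => β) (fun x => α * W2 x) with hu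
  set v := tri3 s r (fun _ : V d => (0:ℝ)) (fun _ => 0) (fun x => α * W3 x) with hv
  obtain ⟨φ, g, h1, h2⟩ := fam h0 hi hG (spin s r) u v
    (fun n => tri3_forall s r (P := fun w => ContDiff ℝ ∞ w) (contDiff_const.mul s1)
      contDiff_const (contDiff_const.mul s2) n)
    (fun n => tri3_forall s r (P := fun w => ContDiff ℝ ∞ w) contDiff_const
      contDiff_const (contDiff_const.mul s3) n) (K := K)
    (fun n => tri3_forall s r (P := fun w => ∀ x, |w x| ≤ K)
      (bnd fun x => (w_abs a b p q hc x).1) (fun x => by rw [abs_of_nonneg hβ0, hK]; linarith)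
      (bnd fun x => (w_abs a b p q hc x).2.1) n)
    (fun n => tri3_forall s r (P := fun w => ∀ x, |w x| ≤ K)
      (fun x => by simpa using hK0) (fun x => by simpa using hK0)
      (bnd fun x => (w_abs a b p q hc x).2.2) n)
    (fun n i => tri3_forall s r (P := fun w => ∀ x, |pd i w x| ≤ K)
      (bnd' s1 i fun x => (pd_abs a b p q hc hON i x).1) (fun x => by
        rw [pd_const]; simpa using hK0)
      (bnd' s2 i fun x => (pd_abs a b p q hc hON i x).2.1) n)
    (fun n i => tri3_forall s r (P := fun w => ∀ x, |pd i w x| ≤ K)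
      (fun x => by rw [pd_const]; simpa using hK0) (fun x => by rw [pd_const]; simpa using hK0)
      (bnd' s3 i fun x => (pd_abs a b p q hc hON i x).2.2) n)
    (fun x => by
      have := tri3_sum s r (f := fun x => α * W1 x) (g := fun _ => β) (h := fun x => α * W2 x)
        (f' := fun _ : V d => (0:ℝ)) (g' := fun _ => 0) (h' := fun x => α * W3 x)
        (fun f g => f x ^ 2 + g x ^ 2)
      rw [this]
      have hw := w_sq a b p q hc x
      have e : (s:ℝ) * ((α * W1 x) ^ 2 + 0 ^ 2) + r * (β ^ 2 + 0 ^ 2) +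
          s * ((α * W2 x) ^ 2 + (α * W3 x) ^ 2) =
          s * (α * α) * (W1 x ^ 2 + W2 x ^ 2 + W3 x ^ 2) + r * (β * β) := by ring
      rw [e, hw, hα2, hβ2, mul_one]
      rw [hN] at *
      field_simp
      ring)
    (fun n m hnm => by
      induction n using Fin.addCases with
      | left i =>
        induction m using Fin.addCases with
        | left i' =>
          rw [spin_left, spin_left] at hnm
          subst hnm
          rw [if_pos rfl]
          induction i using Fin.addCases with
          | left j => simp only [hu, hv, tri3_ll]; exact A1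
          | right k => simp only [hu, hv, tri3_lr]; exact A5
        | right j' =>
          rw [spin_left, spin_right] at hnm
          subst hnm
          rw [if_neg (by
            intro h
            have := congrArg Fin.val h
            simp only [Fin.val_castAdd, Fin.val_natAdd] at this
            have := j'.2
            omega)]
          simp only [hu, hv, tri3_ll, tri3_r, zero_mul, add_zero]
          exact A2
      | right j =>
        induction m using Fin.addCases with
        | left i' =>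
          rw [spin_left, spin_right] at hnm
          subst hnm
          rw [if_neg (by
            intro h
            have := congrArg Fin.val h
            simp only [Fin.val_castAdd, Fin.val_natAdd] at this
            have := j.2
            omega)]
          simp only [hu, hv, tri3_ll, tri3_r, mul_zero, add_zero]
          rw [← A2]
          exact integral_congr_ae (Eventually.of_forall fun x => by simp only; ring)
        | right j' =>
          rw [spin_right, spin_right] at hnm
          have : j = j' := Fin.castAdd_injective _ _ hnm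
          subst this
          rw [if_pos rfl]
          simp only [hu, hv, tri3_r]
          exact A4)
    (fun n m hnm => by
      induction n using Fin.addCases with
      | left i =>
        induction m using Fin.addCases with
        | left i' =>
          rw [spin_left, spin_left] at hnm
          subst hnm
          induction i using Fin.addCases with
          | left j => simp only [hu, hv, tri3_ll]; simp
          | right k => simp only [hu, hv, tri3_lr]; simp
        | right j' =>
          rw [spin_left, spin_right] at hnm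
          subst hnm
          simp only [hu, hv, tri3_ll, tri3_r, zero_mul, sub_zero]
          exact A3
      | right j =>
        induction m using Fin.addCases with
        | left i' =>
          rw [spin_left, spin_right] at hnm
          subst hnm
          simp only [hu, hv, tri3_ll, tri3_r, mul_zero, zero_sub]
          rw [← neg_zero, ← A3, ← integral_neg]
          exact integral_congr_ae (Eventually.of_forall fun x => by simp only; ring)
        | right j' =>
          rw [spin_right, spin_right] at hnm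
          have : j = j' := Fin.castAdd_injective _ _ hnm
          subst this
          simp only [hu, hv, tri3_r]
          have e : ∀ x, ρ x * (α * W2 x * (α * W3 x) - α * W3 x * (α * W2 x)) = 0 := by
            intro x; ring
          simp only [e]
          simp)
  refine ⟨φ, g, h1, ?_⟩
  rw [h2]
  congr 1
  rw [← integral_const_mul, ← integral_const_mul]
  refine integral_congr_ae (Eventually.of_forall fun x => ?_)
  simp only
  have e := tri3_sum s r (f := fun x => α * W1 x) (g := fun _ => β) (h := fun x => α * W2 x)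
    (f' := fun _ : V d => (0:ℝ)) (g' := fun _ => 0) (h' := fun x => α * W3 x)
    (fun f g => ∑ i, (pd i f x ^ 2 + pd i g x ^ 2))
  rw [e]
  simp only [pd_const, pd_const_mul s1, pd_const_mul s2, pd_const_mul s3]
  have e2 := grad_sum a b p q hc hON x
  simp only [← hW1, ← hW2, ← hW3] at e2
  rw [Finset.sum_add_distrib, Finset.sum_add_distrib] at e2
  simp only [Finset.sum_add_distrib, mul_pow, ← Finset.mul_sum]
  simp only [ne_eq, OfNat.ofNat_ne_zero, not_false_eq_true, zero_pow, Finset.sum_const_zero,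
    mul_zero, add_zero]
  rw [show α ^ 2 = 2 / N by rw [← hα2]; ring]
  linear_combination (ρ x * s * (2 / N)) * e2

end many

end Pool.Agent.Run7.h670.MY
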