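import Mathlib

/-!
# The March-Young bound for two fermions per spin state: statements of the pieces

Problem MP_2c73ad_mp (and MP_ae5e3b_mp).  For `ρ ≥ 0` on `ℝ³` with `∫ ρ = 2` there are
orthonormal `φ₁ = √ρ c / √(c² + |z - p|²)`, `φ₂ = √ρ (z - p) / √(c² + |z - p|²)`, where
`z = (⟪a, x⟫, ⟪b, x⟫)` is the projection to a plane (a complex number), and `(p, c)` is the
conformal barycentre of the projected measure (piece BAR).  With `h = c² / (c² + |z - p|²)` the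
kinetic energy is `∫ |∇√ρ|² + c⁻² ∫ ρ (h + h²)`, and `∫ ρ h = 1`.

Every piece is a closed proposition; the complete proof is in its documentation.
-/

set_option autoImplicit false

open MeasureTheory Set
open scoped ENNReal RealInnerProductSpace

namespace Pool.Agent.Run7.h670.MY

/-- Space. -/
abbrev E := EuclideanSpace ℝ (Fin 3)

/-- The square of the `L²` norm of the projection of `f` along the unit vector `e`. -/
noncomputable def lineEn (f : E → ℝ≥0∞) (e : E) : ℝ≥0∞ :=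
  ∫⁻ x, f x * ∫⁻ t : ℝ, f (x + t • e)

/-- The Riesz energy with the kernel `|x - y|⁻²`. -/
noncomputable def riesz (f : E → ℝ≥0∞) : ℝ≥0∞ :=
  ∫⁻ x, ∫⁻ y, f x * f y * ENNReal.ofReal (‖x - y‖ ^ 2)⁻¹

/-- The constant `4 π (3 / (4 π)) ^ (1/3)`: the integral of `|x|⁻²` over the ball of volume one. -/
noncomputable def cB : ℝ := 4 * Real.pi * (3 / (4 * Real.pi)) ^ (1 / 3 : ℝ)

/-- The weight `c² / (c² + (s - p)² + (t - q)²)` (the function `h`). -/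
noncomputable def hh (p q c s t : ℝ) : ℝ := c ^ 2 / (c ^ 2 + (s - p) ^ 2 + (t - q) ^ 2)

/-- Piece DIR (a good direction).

Proof. Translation: `riesz f = ∫⁻ x, f x * ∫⁻ v, f (x + v) * ofReal (‖v‖²)⁻¹`.  Polar coordinates
for `v` (`Measure.toSphere`, `measurePreserving_homeomorphUnitSphereProd` or a lintegral version:
the density is `r² dr dσ`): the inner integral is `∫⁻ σ, ∫⁻ r in Ioi 0, f (x + r σ)` (the factors
`r²` and `r⁻²` cancel).  Tonelli: `riesz f = ∫⁻ σ, (∫⁻ x, f x * ∫⁻ r in Ioi 0, f (x + r σ))`, and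
for each unit vector `σ` the inner expression is half of `lineEn f σ`: indeed
`∫⁻ t : ℝ, f (x + t σ) = ∫⁻ r in Ioi 0, f (x + r σ) + ∫⁻ r in Ioi 0, f (x - r σ)` and
`∫⁻ x, f x * ∫⁻ r in Ioi 0, f (x - r σ) = ∫⁻ x, f x * ∫⁻ r in Ioi 0, f (x + r σ)` (Tonelli and the
translation `x ↦ x + r σ`).  The total mass of the surface measure is `3 vol(ball) = 4 π`.  So the
mean of `lineEn f σ` over the sphere is `(2 / (4 π)) riesz f`, and some `σ` is at most the mean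
(`exists_le_lintegral` / `exists_le_laverage`). -/
def S_DIR : Prop := ∀ f : E → ℝ≥0∞, Measurable f →
  ∃ e : E, ‖e‖ = 1 ∧ lineEn f e ≤ ENNReal.ofReal (2 * Real.pi)⁻¹ * riesz f

/-- Piece CS (Cauchy-Schwarz on the plane).

Proof. `(a, b, e)` is an orthonormal basis; the map `(s, t, r) ↦ s a + t b + r e` preserves the
volume (`OrthonormalBasis.measurePreserving_repr`, `EuclideanSpace.volume_preserving_...`).  With
`F s t = ∫⁻ r, f (s a + t b + r e)` the left side is `(∫⁻ F g)²`, at most `∫⁻ F² * ∫⁻ g²`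
(`ENNReal.lintegral_mul_le_Lp_mul_Lq`, exponents `2, 2`), and
`∫⁻ F² = ∫⁻ s t, ∫⁻ r, f (s a + t b + r e) * F s t = lineEn f e` because
`F s t = ∫⁻ t', f (x + t' e)` for every `x = s a + t b + r e` (translation in `ℝ`). -/
def S_CS : Prop := ∀ (f : E → ℝ≥0∞) (g : ℝ → ℝ → ℝ≥0∞) (a b e : E), Measurable f →
  Measurable (fun z : ℝ × ℝ => g z.1 z.2) → Orthonormal ℝ ![a, b, e] →
  (∫⁻ x, f x * g ⟪a, x⟫ ⟪b, x⟫) ^ 2 ≤ lineEn f e * ∫⁻ z : ℝ × ℝ, g z.1 z.2 ^ 2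

/-- Piece INT: `∫ h³ = π c² / 2` over the plane.

Proof. Translate to `p = q = 0`; polar coordinates in the plane (`integral_comp_polarCoord_symm`
or its lintegral version): `∫₀^∞ 2 π r c⁶ / (c² + r²)³ dr = π c² / 2` (primitive
`-π c⁶ / (2 (c² + r²)²)`). -/
def S_INT : Prop := ∀ p q c : ℝ, 0 < c →
  ∫⁻ z : ℝ × ℝ, ENNReal.ofReal (hh p q c z.1 z.2 ^ 3) = ENNReal.ofReal (Real.pi * c ^ 2 / 2)

/-- Piece BALL: potential of a set of given volume.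

Proof. We may assume `0 < vol A`.  Let `R > 0` with `(4/3) π R³ = vol A`, `k x = ‖x - y‖⁻²`.
Pointwise `k ≤ (k - R⁻²)⁺ + R⁻²`, and `(k - R⁻²)⁺` vanishes outside of `B(y, R)`; so
`∫_A k ≤ ∫_{B(y,R)} (k - R⁻²) + R⁻² vol A = ∫_{B(y,R)} k = 4 π R` (`vol B(y,R) = vol A`; the last
integral: `integral_fun_norm_addHaar` or polar coordinates).  And
`4 π R = 4 π (3 / (4 π))^(1/3) (vol A)^(1/3)`. -/
def S_BALL : Prop := ∀ (A : Set E) (y : E), MeasurableSet A → volume A ≠ ∞ →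
  ∫⁻ x in A, ENNReal.ofReal (‖x - y‖ ^ 2)⁻¹ ≤
    ENNReal.ofReal cB * volume A ^ (1 / 3 : ℝ)

/-- Piece CAKE: the bound for the Riesz energy.

Proof. Let `V a = vol {f > a}` (finite for `a > 0` by Chebyshev), `k` the kernel.
`ofReal (f x) = ∫⁻ a in Ioi 0, 1_{a < f x}`, so by Tonelli
`riesz f = ∫⁻ a in Ioi 0, ∫⁻ b in Ioi 0, ∫⁻ x in {f > a}, ∫⁻ y in {f > b}, k (x - y)`.
By BALL the inner double integral is at most `cB V(a)^(1/3) V(b)` and also at most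
`cB V(b)^(1/3) V(a)` (Tonelli, symmetry of `k`).  Use the first for `a < b`, the second for
`b ≤ a`; by symmetry `riesz f ≤ 2 cB ∫⁻ b in Ioi 0, V b * ∫⁻ a in Ioo 0 b, V(a)^(1/3)`.  By Hölder
(exponents `3, 3/2`) `∫⁻ a in Ioo 0 b, V(a)^(1/3) ≤ (∫⁻ V)^(1/3) b^(2/3) = M^(1/3) b^(2/3)`, where
`∫⁻ a in Ioi 0, V a = M = ∫⁻ f` (layer cake), and
`∫⁻ b in Ioi 0, V b * b^(2/3) = (3/5) ∫⁻ f^(5/3)` (`lintegral_rpow_eq_lintegral_meas_lt_mul`).
The constant is `2 * (3/5) cB = (6/5) cB`. -/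
def S_CAKE : Prop := ∀ f : E → ℝ, Measurable f → (∀ x, 0 ≤ f x) →
  ∫⁻ x, ENNReal.ofReal (f x) ≠ ∞ →
  riesz (fun x => ENNReal.ofReal (f x)) ≤
    ENNReal.ofReal (6 / 5 * cB) * (∫⁻ x, ENNReal.ofReal (f x)) ^ (1 / 3 : ℝ) *
      ∫⁻ x, ENNReal.ofReal (f x ^ (5 / 3 : ℝ))

/-- The function `q = (c² + |z - p|²) / ((1 + |z|²) (1 + c² + |p|²))` (a squared chordal distance
between the point `z` of the sphere and the point `(p, c)` of the ball). -/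
noncomputable def qq (p q c s t : ℝ) : ℝ :=
  (c ^ 2 + (s - p) ^ 2 + (t - q) ^ 2) / ((1 + s ^ 2 + t ^ 2) * (1 + c ^ 2 + p ^ 2 + q ^ 2))

/-- Piece NC (no concentration on small caps).

Proof. Let `σ(s,t) = (2 s, 2 t, s² + t² - 1) / (1 + s² + t²)`, a unit vector of `ℝ³`, and
`v = (2 p, 2 q, c² + p² + q² - 1) / (1 + c² + p² + q²)`; then `‖v‖ < 1` and (algebra)
`qq p q c s t = (1 - ⟨v, σ(s,t)⟩) / 2`.  Suppose that the claim is false.  Then for every `n` there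
is a point `v_n` of the closed unit ball with `ν {1 - ⟨v_n, σ⟩ < 2 / (n + 1)} > m / 4`,
`m = ν univ`.  By compactness a subsequence converges to `v*`, `‖v*‖ ≤ 1`.  For every `η > 0`
the set `{1 - ⟨v*, σ⟩ < η}` contains one of the sets, as `|⟨v_n - v*, σ⟩| ≤ ‖v_n - v*‖`; so its
measure is at least `m / 4`.  Let `η → 0` (continuity from above, `ν` finite):
`ν {1 ≤ ⟨v*, σ⟩} ≥ m / 4 > 0`.  But `1 ≤ ⟨v*, σ⟩`, `‖v*‖ ≤ 1`, `‖σ‖ = 1` force `σ = v*`, and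
`σ` is injective, so this set has at most one point and `ν` of it is `0`. -/
def S_NC : Prop := ∀ ν : Measure (ℝ × ℝ), IsFiniteMeasure ν → ν univ ≠ 0 → (∀ z, ν {z} = 0) →
  ∃ δ : ℝ, 0 < δ ∧ ∀ p q c : ℝ, 0 < c →
    ν.real {z | qq p q c z.1 z.2 < δ} ≤ ν.real univ / 4

/-- Piece BAR (conformal barycentre).

Proof. Consider for `w = (p, q, y) ∈ ℝ³`, `c = exp y`,
`Φ(w) = ∫ F(w, z) dν(z)`, `F(w, z) = log ((c² + |z - p|²) / (c (1 + |z|²)))`.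
Let `W = (1 + c² + p² + q²) / c ≥ 2`.  Then `F = log W + log qq`, and `W⁻² ≤ qq ≤ 1`, because
`c² (1 + |z|²) ≤ (1 + c² + |p|²) (c² + |z - p|²)` (expand; AM-GM) and
`c² + |z - p|² ≤ (1 + |z|²) (1 + c² + |p|²)`.  So `|F| ≤ log W`, `Φ` is finite and continuous
(dominated convergence).  With `δ ≤ 1` from NC: `log qq ≥ log δ` off a set of measure `≤ m / 4`, on
which `log qq ≥ -2 log W`; hence `Φ ≥ m log W + m log δ - (m / 2) log W = (m/2) log W + m log δ`,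
which tends to infinity as `w → ∞` (`W ≥ c`, `W ≥ 1 / c`, `W ≥ (p² + q²) / c`, so `W ≤ K` bounds
`|y| ≤ log K` and `p² + q² ≤ K c ≤ K²`).  So `Φ` has a minimum.  The derivatives of `F` in
`p, q, y` are `-2 (s - p) / (c² + |z - p|²)`, `-2 (t - q) / (c² + |z - p|²)` and
`2 c² / (c² + |z - p|²) - 1`; they are bounded by `2 / c`, `2 / c` and `1` (locally uniformly), so
one can differentiate under the integral (`hasDerivAt_integral_of_dominated_loc_of_deriv_le`) and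
the three derivatives of `Φ` vanish at the minimum. -/
def S_BAR : Prop := ∀ ν : Measure (ℝ × ℝ), IsFiniteMeasure ν → ν univ ≠ 0 → (∀ z, ν {z} = 0) →
  ∃ p q c : ℝ, 0 < c ∧ ∫ z, hh p q c z.1 z.2 ∂ν = ν.real univ / 2 ∧
    ∫ z, (z.1 - p) / (c ^ 2 + (z.1 - p) ^ 2 + (z.2 - q) ^ 2) ∂ν = 0 ∧
    ∫ z, (z.2 - q) / (c ^ 2 + (z.1 - p) ^ 2 + (z.2 - q) ^ 2) ∂ν = 0

/-- Piece NUM: the constants.  With `α = 17/8` the total constant
`(π α² / 3) (1 / (2 π)) (6/5) cB 2^(1/3)` is at most `K_c = (3/5) (6 π²)^(2/3)`.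

Proof. The left side is `(α²/5) 4 π (3 / (2 π))^(1/3)`.  Raise to the third power: the claim is
`96 α⁶ π² ≤ 972 π⁴`, that is `α⁶ ≤ (81/8) π²`, and `α⁶ = 24137569 / 262144 < 92.1`,
`(81/8) π² > 99`. -/
def S_NUM : Prop :=
  (Real.pi * (17 / 8 : ℝ) ^ 2 / 3) * (2 * Real.pi)⁻¹ * (6 / 5 * cB) * (2:ℝ) ^ (1 / 3 : ℝ) ≤
    3 / 5 * (6 * Real.pi ^ 2) ^ (2 / 3 : ℝ)

/-- Piece POLY: `h + h² + (2 h - 1) / 8 ≤ (17/8) h^(3/2)` for `0 ≤ h ≤ 1`.

Proof. `t = √h`; `8` times the difference is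
`-8 t⁴ + 17 t³ - 10 t² + 1 = (1 - t) (8 t³ - 9 t² + t + 1)`, and
`8 t³ - 9 t² + t + 1 > 0` on `[0, 1]` (its minimum, near `t = 0.69`, is about `0.033`). -/
def S_POLY : Prop := ∀ h : ℝ, 0 ≤ h → h ≤ 1 →
  h + h ^ 2 + (2 * h - 1) / 8 ≤ 17 / 8 * h ^ (3 / 2 : ℝ)

/-- Piece COST.

Proof. Put `m(x) = hh p q c ⟪a, x⟫ ⟪b, x⟫ ∈ (0, 1]`, `∫ ρ = 2`, `∫ ρ m = 1`, `τ = ∫ ρ m²`,
`S = 1 + τ`.  By POLY and `∫ ρ (2 m - 1) = 0`: `S ≤ (17/8) ∫ ρ m^(3/2)`, and by CS (with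
`g = ofReal (hh ^ (3/2))`, so `g² = ofReal (hh³)`) and INT
`(∫ ρ m^(3/2))² ≤ lineEn ρ e * π c² / 2`.  So `S² ≤ (17/8)² (π c² / 2) lineEn`.  Jensen
(Cauchy-Schwarz): `τ ≥ (∫ ρ m)² / ∫ ρ = 1/2`, so `S ≥ 3/2` and `(3/2) S ≤ S²`; hence
`c⁻² S ≤ (2/3) (17/8)² (π / 2) lineEn = (π (17/8)² / 3) lineEn`. -/
def S_COST : Prop := ∀ (ρ : E → ℝ) (a b e : E) (p q c : ℝ), Measurable ρ → (∀ x, 0 ≤ ρ x) →
  Integrable ρ → ∫ x, ρ x = 2 → Orthonormal ℝ ![a, b, e] → 0 < c →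
  ∫ x, ρ x * hh p q c ⟪a, x⟫ ⟪b, x⟫ = 1 →
  ENNReal.ofReal ((c ^ 2)⁻¹ * ∫ x, ρ x *
      (hh p q c ⟪a, x⟫ ⟪b, x⟫ + hh p q c ⟪a, x⟫ ⟪b, x⟫ ^ 2)) ≤
    ENNReal.ofReal (Real.pi * (17 / 8 : ℝ) ^ 2 / 3) * lineEn (fun x => ENNReal.ofReal (ρ x)) e

end Pool.Agent.Run7.h670.MY
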