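import Pool.Agent.Run7.h670.MY.Defs

/-!
# Two-particle wave functions: the statement of the piece D_SLAT
-/

set_option autoImplicit false

open MeasureTheory Set
open scoped ContDiff

namespace Pool.Agent.Run7.h670.MY

variable {d : ℕ}

/-- `Ψ(x, y)` is an antisymmetric wave function of two particles in `ℝ^d`: it is in `H¹(ℝ^d × ℝ^d)`,
`g₁` and `g₂` are its weak gradients with respect to `x` and to `y`, it is normalised, and its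
one-particle density `2 ∫ |Ψ(x, y)|² dy` is `ρ`. -/
structure IsState (ρ : V d → ℝ) (Ψ : V d → V d → ℂ) (g₁ g₂ : Fin d → V d → V d → ℂ) : Prop where
  antisymm : ∀ x y, Ψ y x = -Ψ x y
  memLp : MemLp (fun z : V d × V d => Ψ z.1 z.2) 2
  memLp₁ : ∀ i, MemLp (fun z : V d × V d => g₁ i z.1 z.2) 2
  memLp₂ : ∀ i, MemLp (fun z : V d × V d => g₂ i z.1 z.2) 2
  weak₁ : ∀ η : V d × V d → ℝ, ContDiff ℝ ∞ η → HasCompactSupport η → ∀ i,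
    ∫ z : V d × V d, Ψ z.1 z.2 * (fderiv ℝ η z (EuclideanSpace.single i 1, 0) : ℂ) =
      -∫ z : V d × V d, g₁ i z.1 z.2 * (η z : ℂ)
  weak₂ : ∀ η : V d × V d → ℝ, ContDiff ℝ ∞ η → HasCompactSupport η → ∀ i,
    ∫ z : V d × V d, Ψ z.1 z.2 * (fderiv ℝ η z (0, EuclideanSpace.single i 1) : ℂ) =
      -∫ z : V d × V d, g₂ i z.1 z.2 * (η z : ℂ)
  norm : ∫ z : V d × V d, ‖Ψ z.1 z.2‖ ^ 2 = 1
  density : ∀ x, 2 * ∫ y, ‖Ψ x y‖ ^ 2 = ρ x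

/-- The kinetic energy `∫ |∇_x Ψ|² + ∫ |∇_y Ψ|²`. -/
noncomputable def kinetic2 (g₁ g₂ : Fin d → V d → V d → ℂ) : ℝ :=
  ∑ i, ((∫ z : V d × V d, ‖g₁ i z.1 z.2‖ ^ 2) + ∫ z : V d × V d, ‖g₂ i z.1 z.2‖ ^ 2)

/-- Piece D_SLAT (Slater determinant).

Proof. `Ψ(x, y) = (φ₁(x) φ₂(y) - φ₂(x) φ₁(y)) / √2`, `g₁ i (x, y) = (γ₁ i x φ₂ y - γ₂ i x φ₁ y) / √2`,
`g₂ i (x, y) = (φ₁ x γ₂ i y - φ₂ x γ₁ i y) / √2`.  A product `f(x) g(y)` of `L²` functions is in `L²`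
of the product (`MemLp.mul_prod` or integrability of the product of `‖f‖²` and `‖g‖²`).  Weak
gradients: Fubini; for fixed `y` the function `η(·, y)` is a test function on `ℝ^d` with the partial
derivative `fderiv η (x, y) (single i 1, 0)`.  Norm, density and kinetic energy: expand the square;
the cross terms contain `∫ φ₁ conj φ₂ = 0`. -/
def D_SLAT : Prop := ∀ (d : ℕ) (φ₁ φ₂ : V d → ℂ) (γ₁ γ₂ : Fin d → V d → ℂ),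
  IsSobolev φ₁ γ₁ → IsSobolev φ₂ γ₂ → ∫ x, star (φ₁ x) * φ₁ x = 1 → ∫ x, star (φ₂ x) * φ₂ x = 1 →
  ∫ x, star (φ₁ x) * φ₂ x = 0 →
  ∃ (Ψ : V d → V d → ℂ) (g₁ g₂ : Fin d → V d → V d → ℂ),
    IsState (fun x => ‖φ₁ x‖ ^ 2 + ‖φ₂ x‖ ^ 2) Ψ g₁ g₂ ∧
    kinetic2 g₁ g₂ = (∑ i, ∫ x, ‖γ₁ i x‖ ^ 2) + ∑ i, ∫ x, ‖γ₂ i x‖ ^ 2

end Pool.Agent.Run7.h670.MY
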