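import Pool.Agent.Run7.h670.MY.Sob
import Pool.Agent.Run7.h670.MY.Stm

/-!
# The trial functions
-/

set_option autoImplicit false
set_option linter.unusedSectionVars false

open MeasureTheory Set Filter Topology Real
open scoped ContDiff RealInnerProductSpace

namespace Pool.Agent.Run7.h670.MY

variable {d : ℕ} (a b : V d) (p q c : ℝ)

/-- The quadratic polynomial `c² + (⟪a,x⟫ - p)² + (⟪b,x⟫ - q)²`. -/
noncomputable def DD (x : V d) : ℝ := c ^ 2 + (⟪a, x⟫ - p) ^ 2 + (⟪b, x⟫ - q) ^ 2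

/-- The reciprocal of its square root. -/
noncomputable def ss (x : V d) : ℝ := (√(DD a b p q c x))⁻¹

/-- The trial functions. -/
noncomputable def w1 (x : V d) : ℝ := c * ss a b p q c x
noncomputable def w2 (x : V d) : ℝ := (⟪a, x⟫ - p) * ss a b p q c x
noncomputable def w3 (x : V d) : ℝ := (⟪b, x⟫ - q) * ss a b p q c x

variable {c} (hc : 0 < c)
include hc

lemma DD_pos (x : V d) : 0 < DD a b p q c x := by unfold DD; positivity

lemma DD_smooth : ContDiff ℝ ∞ (DD a b p q c) := by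
  have h1 : ContDiff ℝ ∞ (fun x : V d => (⟪a, x⟫ : ℝ)) := (innerSL ℝ a).contDiff
  have h2 : ContDiff ℝ ∞ (fun x : V d => (⟪b, x⟫ : ℝ)) := (innerSL ℝ b).contDiff
  unfold DD
  exact (contDiff_const.add ((h1.sub contDiff_const).pow 2)).add ((h2.sub contDiff_const).pow 2)

lemma ss_pos (x : V d) : 0 < ss a b p q c x := inv_pos.2 (Real.sqrt_pos.2 (DD_pos a b p q hc x))

lemma ss_sq (x : V d) : ss a b p q c x ^ 2 * DD a b p q c x = 1 := by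
  have h := DD_pos a b p q hc x
  unfold ss
  rw [inv_pow, Real.sq_sqrt h.le]
  exact inv_mul_cancel₀ h.ne'

lemma ss_le (x : V d) : ss a b p q c x ≤ c⁻¹ := by
  unfold ss
  refine inv_anti₀ hc (Real.le_sqrt_of_sq_le ?_)
  unfold DD; nlinarith [sq_nonneg (⟪a, x⟫ - p), sq_nonneg (⟪b, x⟫ - q)]

lemma ss_smooth : ContDiff ℝ ∞ (ss a b p q c) := by
  unfold ss
  exact ((DD_smooth a b p q hc).sqrt fun x => (DD_pos a b p q hc x).ne').inv fun x =>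
    (Real.sqrt_pos.2 (DD_pos a b p q hc x)).ne'

lemma w1_smooth : ContDiff ℝ ∞ (w1 a b p q c) := contDiff_const.mul (ss_smooth a b p q hc)
lemma w2_smooth : ContDiff ℝ ∞ (w2 a b p q c) :=
  (((innerSL ℝ a).contDiff : ContDiff ℝ ∞ (fun x : V d => (⟪a, x⟫ : ℝ))).sub
    contDiff_const).mul (ss_smooth a b p q hc)
lemma w3_smooth : ContDiff ℝ ∞ (w3 a b p q c) :=
  (((innerSL ℝ b).contDiff : ContDiff ℝ ∞ (fun x : V d => (⟪b, x⟫ : ℝ))).sub
    contDiff_const).mul (ss_smooth a b p q hc)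

lemma w_sq (x : V d) : w1 a b p q c x ^ 2 + w2 a b p q c x ^ 2 + w3 a b p q c x ^ 2 = 1 := by
  have h := ss_sq a b p q hc x
  unfold w1 w2 w3
  rw [← h]
  simp only [DD]; ring

lemma w1_sq (x : V d) : w1 a b p q c x ^ 2 = hh p q c ⟪a, x⟫ ⟪b, x⟫ := by
  have h := ss_sq a b p q hc x
  have h2 := DD_pos a b p q hc x
  unfold w1 hh
  change _ = c ^ 2 / DD a b p q c x
  rw [eq_div_iff h2.ne', mul_pow, mul_assoc, h, mul_one]

lemma ss_hasF (x : V d) : HasFDerivAt (ss a b p q c)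
    ((-(ss a b p q c x ^ 3 * (⟪a, x⟫ - p))) • (innerSL ℝ a) +
      (-(ss a b p q c x ^ 3 * (⟪b, x⟫ - q))) • (innerSL ℝ b)) x := by
  have hpos := DD_pos a b p q hc x
  have h1 : HasFDerivAt (fun x : V d => (⟪a, x⟫ : ℝ) - p) (innerSL ℝ a) x :=
    (innerSL ℝ a).hasFDerivAt.sub_const p
  have h2 : HasFDerivAt (fun x : V d => (⟪b, x⟫ : ℝ) - q) (innerSL ℝ b) x :=
    (innerSL ℝ b).hasFDerivAt.sub_const q
  have h3 : HasFDerivAt (DD a b p q c)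
      ((2 * (⟪a, x⟫ - p)) • (innerSL ℝ a) + (2 * (⟪b, x⟫ - q)) • (innerSL ℝ b)) x := by
    have := ((h1.pow 2).const_add (c ^ 2)).add (h2.pow 2)
    unfold DD
    refine this.congr_fderiv ?_
    ext y
    simp
  have h4 : HasDerivAt (fun t : ℝ => (√t)⁻¹) (-(1 / (2 * √(DD a b p q c x))) /
      (√(DD a b p q c x)) ^ 2) (DD a b p q c x) :=
    (Real.hasDerivAt_sqrt hpos.ne').inv (Real.sqrt_pos.2 hpos).ne'
  have h5 := h4.comp_hasFDerivAt x h3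
  refine (h5.congr_fderiv ?_ : HasFDerivAt ((fun t : ℝ => (√t)⁻¹) ∘ DD a b p q c) _ x)
  have hs : (√(DD a b p q c x)) ≠ 0 := (Real.sqrt_pos.2 hpos).ne'
  have e : (-(1 / (2 * √(DD a b p q c x))) / (√(DD a b p q c x)) ^ 2) =
      -(ss a b p q c x ^ 3) / 2 := by
    unfold ss
    field_simp
  rw [e, smul_add, smul_smul, smul_smul]
  congr 2 <;> ring

lemma pd_of {f : V d → ℝ} {L : V d →L[ℝ] ℝ} {x : V d} (h : HasFDerivAt f L x) (i : Fin d) :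
    pd i f x = L (EuclideanSpace.single i 1) := by
  unfold pd; rw [h.fderiv]

lemma inner_single' (a : V d) (i : Fin d) :
    (innerSL ℝ a) (EuclideanSpace.single i (1:ℝ)) = a i := by
  simp [EuclideanSpace.inner_single_right]

lemma w1_pd (i : Fin d) (x : V d) : pd i (w1 a b p q c) x =
    -(c * ss a b p q c x ^ 3 * ((⟪a, x⟫ - p) * a i + (⟪b, x⟫ - q) * b i)) := by
  have h := (ss_hasF a b p q hc x).const_mul c
  rw [pd_of hc (f := w1 a b p q c) h]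
  simp only [_root_.smul_apply, _root_.add_apply, smul_eq_mul,
    inner_single' hc]
  ring

lemma w2_pd (i : Fin d) (x : V d) : pd i (w2 a b p q c) x =
    ss a b p q c x * a i - (⟪a, x⟫ - p) * ss a b p q c x ^ 3 *
      ((⟪a, x⟫ - p) * a i + (⟪b, x⟫ - q) * b i) := by
  have h1 : HasFDerivAt (fun x : V d => (⟪a, x⟫ : ℝ) - p) (innerSL ℝ a) x :=
    (innerSL ℝ a).hasFDerivAt.sub_const p
  have h := h1.mul (ss_hasF a b p q hc x)
  rw [pd_of hc (f := w2 a b p q c) h]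
  simp only [_root_.smul_apply, _root_.add_apply, smul_eq_mul,
    inner_single' hc]
  ring

lemma w3_pd (i : Fin d) (x : V d) : pd i (w3 a b p q c) x =
    ss a b p q c x * b i - (⟪b, x⟫ - q) * ss a b p q c x ^ 3 *
      ((⟪a, x⟫ - p) * a i + (⟪b, x⟫ - q) * b i) := by
  have h1 : HasFDerivAt (fun x : V d => (⟪b, x⟫ : ℝ) - q) (innerSL ℝ b) x :=
    (innerSL ℝ b).hasFDerivAt.sub_const q
  have h := h1.mul (ss_hasF a b p q hc x)
  rw [pd_of hc (f := w3 a b p q c) h]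
  simp only [_root_.smul_apply, _root_.add_apply, smul_eq_mul,
    inner_single' hc]
  ring

lemma w_abs (x : V d) : |w1 a b p q c x| ≤ 1 ∧ |w2 a b p q c x| ≤ 1 ∧ |w3 a b p q c x| ≤ 1 := by
  have h := w_sq a b p q hc x
  refine ⟨?_, ?_, ?_⟩ <;> refine abs_le_one_of_sq ?_ <;>
    nlinarith [sq_nonneg (w1 a b p q c x), sq_nonneg (w2 a b p q c x), sq_nonneg (w3 a b p q c x)]
where
  abs_le_one_of_sq {t : ℝ} (h : t ^ 2 ≤ 1) : |t| ≤ 1 := by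
    rw [← sq_abs] at h
    exact abs_le_of_sq_le_one h
  abs_le_of_sq_le_one {t : ℝ} (h : |t| ^ 2 ≤ 1) : |t| ≤ 1 := by
    nlinarith [abs_nonneg t]

/-- Orthonormality of the two directions. -/
structure IsON (a b : V d) : Prop where
  a1 : ∑ i, a i ^ 2 = 1
  b1 : ∑ i, b i ^ 2 = 1
  ab : ∑ i, a i * b i = 0

omit hc in
lemma IsON.abs_a {a b : V d} (h : IsON a b) (i : Fin d) : |a i| ≤ 1 ∧ |b i| ≤ 1 := by
  have h1 : a i ^ 2 ≤ 1 := by
    rw [← h.a1]; exact Finset.single_le_sum (fun j _ => sq_nonneg (a j)) (Finset.mem_univ i)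
  have h2 : b i ^ 2 ≤ 1 := by
    rw [← h.b1]; exact Finset.single_le_sum (fun j _ => sq_nonneg (b j)) (Finset.mem_univ i)
  exact ⟨abs_le_one_iff_mul_self_le_one.2 (by nlinarith),
    abs_le_one_iff_mul_self_le_one.2 (by nlinarith)⟩

/-- The sum of the squares of the gradients. -/
lemma grad_sum (h : IsON a b) (x : V d) :
    ∑ i, (pd i (w1 a b p q c) x ^ 2 + pd i (w2 a b p q c) x ^ 2 + pd i (w3 a b p q c) x ^ 2) =
      (c ^ 2)⁻¹ * (hh p q c ⟪a, x⟫ ⟪b, x⟫ + hh p q c ⟪a, x⟫ ⟪b, x⟫ ^ 2) := by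
  simp only [w1_pd a b p q hc, w2_pd a b p q hc, w3_pd a b p q hc]
  set X := ⟪a, x⟫ - p with hX
  set Y := ⟪b, x⟫ - q with hY
  set s := ss a b p q c x with hs
  have hD : s ^ 2 * (c ^ 2 + X ^ 2 + Y ^ 2) = 1 := ss_sq a b p q hc x
  have e : ∀ i, (-(c * s ^ 3 * (X * a i + Y * b i))) ^ 2 +
      (s * a i - X * s ^ 3 * (X * a i + Y * b i)) ^ 2 +
      (s * b i - Y * s ^ 3 * (X * a i + Y * b i)) ^ 2 =
      (s ^ 2 - 2 * X ^ 2 * s ^ 4 + X ^ 2 * (s ^ 6 * (c ^ 2 + X ^ 2 + Y ^ 2))) * a i ^ 2 +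
      (s ^ 2 - 2 * Y ^ 2 * s ^ 4 + Y ^ 2 * (s ^ 6 * (c ^ 2 + X ^ 2 + Y ^ 2))) * b i ^ 2 +
      (2 * X * Y * (s ^ 6 * (c ^ 2 + X ^ 2 + Y ^ 2)) - 4 * X * Y * s ^ 4) * (a i * b i) := by
    intro i; ring
  rw [Finset.sum_congr rfl fun i _ => e i, Finset.sum_add_distrib, Finset.sum_add_distrib,
    ← Finset.mul_sum, ← Finset.mul_sum, ← Finset.mul_sum, h.a1, h.b1, h.ab]
  have hh1 : hh p q c ⟪a, x⟫ ⟪b, x⟫ = c ^ 2 * s ^ 2 := by
    rw [← w1_sq a b p q hc x]; simp only [w1]; ring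
  rw [hh1]
  have hc2 : c ^ 2 ≠ 0 := by positivity
  have e2 : s ^ 6 * (c ^ 2 + X ^ 2 + Y ^ 2) = s ^ 4 := by
    linear_combination s ^ 4 * hD
  rw [e2]
  have e3 : (c ^ 2)⁻¹ * (c ^ 2 * s ^ 2 + (c ^ 2 * s ^ 2) ^ 2) = s ^ 2 + c ^ 2 * s ^ 4 := by
    field_simp
  rw [e3]
  linear_combination (-s ^ 2) * hD

/-- Bounds for the derivatives. -/
lemma pd_abs (h : IsON a b) (i : Fin d) (x : V d) : |pd i (w1 a b p q c) x| ≤ 2 / c ∧
    |pd i (w2 a b p q c) x| ≤ 2 / c ∧ |pd i (w3 a b p q c) x| ≤ 2 / c := by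
  have h1 := grad_sum a b p q hc h x
  have h2 : hh p q c ⟪a, x⟫ ⟪b, x⟫ ≤ 1 := by
    rw [← w1_sq a b p q hc x]
    nlinarith [w_sq a b p q hc x, sq_nonneg (w2 a b p q c x), sq_nonneg (w3 a b p q c x)]
  have h3 : 0 ≤ hh p q c ⟪a, x⟫ ⟪b, x⟫ := by
    rw [← w1_sq a b p q hc x]; positivity
  have h4 : pd i (w1 a b p q c) x ^ 2 + pd i (w2 a b p q c) x ^ 2 + pd i (w3 a b p q c) x ^ 2 ≤
      (c ^ 2)⁻¹ * (hh p q c ⟪a, x⟫ ⟪b, x⟫ + hh p q c ⟪a, x⟫ ⟪b, x⟫ ^ 2) := by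
    rw [← h1]
    exact Finset.single_le_sum (f := fun i => pd i (w1 a b p q c) x ^ 2 +
      pd i (w2 a b p q c) x ^ 2 + pd i (w3 a b p q c) x ^ 2)
      (fun j _ => by positivity) (Finset.mem_univ i)
  have h5 : (c ^ 2)⁻¹ * (hh p q c ⟪a, x⟫ ⟪b, x⟫ + hh p q c ⟪a, x⟫ ⟪b, x⟫ ^ 2) ≤ (2 / c) ^ 2 := by
    have : hh p q c ⟪a, x⟫ ⟪b, x⟫ + hh p q c ⟪a, x⟫ ⟪b, x⟫ ^ 2 ≤ 4 := by nlinarith
    have h6 : 0 < (c ^ 2)⁻¹ := by positivity
    have e : (2 / c) ^ 2 = (c ^ 2)⁻¹ * 4 := by field_simp; norm_num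
    rw [e]
    exact mul_le_mul_of_nonneg_left this h6.le
  have h7 : 0 ≤ 2 / c := by positivity
  refine ⟨abs_le_of_sq_le_sq ?_ h7, abs_le_of_sq_le_sq ?_ h7, abs_le_of_sq_le_sq ?_ h7⟩ <;>
    nlinarith [sq_nonneg (pd i (w1 a b p q c) x), sq_nonneg (pd i (w2 a b p q c) x),
      sq_nonneg (pd i (w3 a b p q c) x)]

end Pool.Agent.Run7.h670.MY
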