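import Pool.Agent.Run7.h670.MY.StmN
import Pool.Agent.Run7.h670.MY.Sob

/-!
# The trigonometric determinant along a line
-/

set_option autoImplicit false

open MeasureTheory Set Filter Topology Real
open scoped RealInnerProductSpace ENNReal

namespace Pool.Agent.Run7.h670.MY

section line

variable {d : ℕ} {ρ : V d → ℝ} {e : V d} {F : ℝ → ℝ}

lemma line_int (h0 : ∀ x, 0 ≤ ρ x) (hi : Integrable ρ) (hF : Measurable F) (hF0 : ∀ t, 0 ≤ F t)
    (hmap : (volume.withDensity (fun x => ENNReal.ofReal (ρ x))).map (fun x => ⟪e, x⟫) =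
      volume.withDensity (fun t => ENNReal.ofReal (F t)))
    {H : Type*} [NormedAddCommGroup H] [NormedSpace ℝ H] {h : ℝ → H} (hh : StronglyMeasurable h) :
    ∫ x, ρ x • h ⟪e, x⟫ = ∫ t, F t • h t := by
  have e1 : ∫ t, h t ∂((volume.withDensity (fun x => ENNReal.ofReal (ρ x))).map
      (fun x => (⟪e, x⟫ : ℝ))) = ∫ x, ρ x • h ⟪e, x⟫ := by
    rw [integral_map (by fun_prop) hh.aestronglyMeasurable,
      integral_withDensity_eq_integral_toReal_smul₀ hi.1.aemeasurable.ennreal_ofReal
        (Eventually.of_forall fun _ => ENNReal.ofReal_lt_top)]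
    refine integral_congr_ae (Eventually.of_forall fun x => ?_)
    simp only
    rw [ENNReal.toReal_ofReal (h0 x)]
  rw [← e1, hmap, integral_withDensity_eq_integral_toReal_smul₀ hF.aemeasurable.ennreal_ofReal
        (Eventually.of_forall fun _ => ENNReal.ofReal_lt_top)]
  refine integral_congr_ae (Eventually.of_forall fun x => ?_)
  simp only
  rw [ENNReal.toReal_ofReal (hF0 x)]

lemma line_integrable (h0 : ∀ x, 0 ≤ ρ x) (hi : Integrable ρ) (hF : Measurable F)
    (hF0 : ∀ t, 0 ≤ F t)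
    (hmap : (volume.withDensity (fun x => ENNReal.ofReal (ρ x))).map (fun x => ⟪e, x⟫) =
      volume.withDensity (fun t => ENNReal.ofReal (F t)))
    {H : Type*} [NormedAddCommGroup H] [NormedSpace ℝ H] {h : ℝ → H} (hh : StronglyMeasurable h)
    (hint : Integrable (fun t => F t • h t)) : Integrable (fun x => ρ x • h ⟪e, x⟫) := by
  have h1 : Integrable h (volume.withDensity (fun t => ENNReal.ofReal (F t))) := by
    rw [integrable_withDensity_iff_integrable_smul₀' hF.aemeasurable.ennreal_ofReal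
        (Eventually.of_forall fun _ => ENNReal.ofReal_lt_top)]
    refine hint.congr (Eventually.of_forall fun t => ?_)
    simp only
    rw [ENNReal.toReal_ofReal (hF0 t)]
  rw [← hmap, integrable_map_measure hh.aestronglyMeasurable (by fun_prop),
    integrable_withDensity_iff_integrable_smul₀' hi.1.aemeasurable.ennreal_ofReal
        (Eventually.of_forall fun _ => ENNReal.ofReal_lt_top)] at h1
  refine h1.congr (Eventually.of_forall fun t => ?_)
  simp only [Function.comp]
  rw [ENNReal.toReal_ofReal (h0 t)]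

end line

lemma norm_add_I (G : ℂ) (a : ℝ) : ‖G + Complex.I * (a : ℂ)‖ ^ 2 = ‖G‖ ^ 2 + 2 * a * G.im + a ^ 2 := by
  rw [← Complex.normSq_eq_norm_sq, ← Complex.normSq_eq_norm_sq, Complex.normSq_apply,
    Complex.normSq_apply]
  simp only [Complex.add_re, Complex.mul_re, Complex.ofReal_re, Complex.ofReal_im, mul_zero,
    sub_zero, Complex.add_im, Complex.mul_im, zero_add, Complex.I_re, Complex.I_im,
    zero_mul, one_mul]
  ring

/-- The trigonometric determinant with spin. -/
lemma trig (hPH : N_PHASE) (hPIT : N_PIT) {d N q : ℕ} (hN : 1 ≤ N) {ρ : V d → ℝ}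
    {G : Fin d → V d → ℂ} {e : V d} {F : ℝ → ℝ} (h0 : ∀ x, 0 ≤ ρ x) (hi : Integrable ρ)
    (hρ : ∫ x, ρ x = N) (hG : IsSobolev (fun x => ((√(ρ x) : ℝ) : ℂ)) G) (he : ‖e‖ = 1)
    (hF : Measurable F) (hF0 : ∀ t, 0 ≤ F t) (hFi : Integrable F) (hF3 : MemLp F 3 volume)
    (hmap : (volume.withDensity (fun x => ENNReal.ofReal (ρ x))).map (fun x => ⟪e, x⟫) =
      volume.withDensity (fun t => ENNReal.ofReal (F t)))
    (sp : Fin N → Fin q) (κ : Fin N → ℝ)
    (hκ : ∀ n m, n ≠ m → sp n = sp m → ∃ z : ℤ, z ≠ 0 ∧ κ m - κ n = z) (hκ0 : ∑ n, κ n = 0) :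
    ∃ (φ : Fin N → Fin q → V d → ℂ) (g : Fin N → Fin q → Fin d → V d → ℂ), IsFamily ρ φ g ∧
      kinetic g = (∑ i, ∫ x, ‖G i x‖ ^ 2) +
        (4 * π ^ 2 / (N:ℝ) ^ 3 * ∑ n, κ n ^ 2) * ∫ t, F t ^ 3 := by
  classical
  have hN0 : (0:ℝ) < N := by exact_mod_cast hN
  set c : ℝ := (√(N:ℝ))⁻¹ with hc
  have hc2 : c ^ 2 = (N:ℝ)⁻¹ := by rw [hc, inv_pow, Real.sq_sqrt hN0.le]
  set k : Fin N → ℝ := fun n => 2 * π * κ n / N with hk
  set Γ : ℝ → ℝ := fun t => ∫ s in Iic t, F s with hΓ
  have hΓm : Monotone Γ := by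
    intro s t hst
    refine setIntegral_mono_set hFi.integrableOn (Eventually.of_forall fun x => hF0 x) ?_
    exact (Iic_subset_Iic.2 hst).eventuallyLE
  have hΓmeas : Measurable Γ := hΓm.measurable
  set E : Fin N → V d → ℂ := fun n x => Complex.exp (Complex.I * ((k n * Γ ⟪e, x⟫ : ℝ) : ℂ)) with hE
  have hEn : ∀ n x, ‖E n x‖ = 1 := by
    intro n x
    simp only [hE]
    rw [mul_comm]; exact Complex.norm_exp_ofReal_mul_I _
  set r : V d → ℂ := fun x => ((√(ρ x) : ℝ) : ℂ) with hr
  set φ₀ : Fin N → V d → ℂ := fun n x => (c : ℂ) * (r x * E n x) with hφ₀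
  set g₀ : Fin N → Fin d → V d → ℂ := fun n i x =>
    (c : ℂ) * ((G i x + Complex.I * ((k n * F ⟪e, x⟫ * e i * √(ρ x) : ℝ) : ℂ)) * E n x) with hg₀
  have sob : ∀ n, IsSobolev (φ₀ n) (g₀ n) := fun n =>
    (hPH d ρ G e F (k n) h0 hi hG he hF hF0 hFi hF3 hmap).const_mul (c : ℂ)
  refine ⟨fun n σ => if sp n = σ then φ₀ n else fun _ => 0,
    fun n σ => if sp n = σ then g₀ n else fun _ _ => 0, ⟨fun n σ => ?_, fun n m => ?_, fun x => ?_⟩,
    ?_⟩
  · by_cases h : sp n = σ
    · simp only [h, if_true]; exact sob n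
    · simp only [h, if_false]; exact IsSobolev.zero
  · -- orthonormality
    have e0 : ∀ σ, ∫ x, star ((if sp n = σ then φ₀ n else fun _ => 0) x) *
        (if sp m = σ then φ₀ m else fun _ => 0) x =
        if sp n = σ ∧ sp m = σ then ∫ x, star (φ₀ n x) * φ₀ m x else 0 := by
      intro σ
      by_cases h1 : sp n = σ <;> by_cases h2 : sp m = σ <;> simp [h1, h2]
    simp only [e0]
    by_cases hnm : sp n = sp m
    · have e1 : ∀ σ, (if sp n = σ ∧ sp m = σ then ∫ x, star (φ₀ n x) * φ₀ m x else 0) =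
          if sp n = σ then ∫ x, star (φ₀ n x) * φ₀ m x else 0 := by
        intro σ; rw [← hnm]; simp
      simp only [e1]
      rw [Finset.sum_ite_eq]
      simp only [Finset.mem_univ, if_true]
      have hsq : ∀ x, r x * r x = ((ρ x : ℝ) : ℂ) := by
        intro x
        simp only [hr]
        rw [← Complex.ofReal_mul, Real.mul_self_sqrt (h0 x)]
      have hst : ∀ t : ℝ, star (t : ℂ) = t := fun t => Complex.conj_ofReal t
      have e2 : ∀ x, star (φ₀ n x) * φ₀ m x = ρ x • (((c ^ 2 : ℝ) : ℂ) *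
          Complex.exp (Complex.I * (((k m - k n) * Γ ⟪e, x⟫ : ℝ) : ℂ))) := by
        intro x
        have e3 : star (E n x) * E m x =
            Complex.exp (Complex.I * (((k m - k n) * Γ ⟪e, x⟫ : ℝ) : ℂ)) := by
          simp only [hE]
          have : star (Complex.exp (Complex.I * ((k n * Γ ⟪e, x⟫ : ℝ) : ℂ))) =
              Complex.exp (-(Complex.I * ((k n * Γ ⟪e, x⟫ : ℝ) : ℂ))) := by
            change (starRingEnd ℂ) _ = _
            rw [← Complex.exp_conj, map_mul, Complex.conj_I, Complex.conj_ofReal, neg_mul]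
          rw [this, ← Complex.exp_add]
          congr 1
          push_cast; ring
        rw [← e3]
        simp only [hφ₀, star_mul', hst]
        have hrs : star (r x) = r x := hst _
        rw [hrs, Complex.real_smul, ← hsq x]
        push_cast
        ring
      simp only [e2]
      have hmeas : StronglyMeasurable (fun t : ℝ => ((c ^ 2 : ℝ) : ℂ) *
          Complex.exp (Complex.I * (((k m - k n) * Γ t : ℝ) : ℂ))) := by
        refine Measurable.stronglyMeasurable ?_
        fun_prop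
      rw [line_int h0 hi hF hF0 hmap hmeas]
      have hFρ : ∫ t, F t = N := by
        have := line_int h0 hi hF hF0 hmap (h := fun _ => (1:ℝ)) stronglyMeasurable_const
        simp only [smul_eq_mul, mul_one] at this
        rw [← this, hρ]
      by_cases h : n = m
      · subst h
        rw [if_pos rfl]
        have e4 : ∀ t, F t • (((c ^ 2 : ℝ) : ℂ) *
            Complex.exp (Complex.I * (((k n - k n) * Γ t : ℝ) : ℂ))) =
            ((F t * (N:ℝ)⁻¹ : ℝ) : ℂ) := by
          intro t
          rw [sub_self, zero_mul, Complex.ofReal_zero, mul_zero, Complex.exp_zero, mul_one, hc2,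
            Complex.real_smul]
          push_cast; ring
        simp only [e4]
        rw [integral_complex_ofReal, integral_mul_const, hFρ, mul_inv_cancel₀ hN0.ne']
        norm_num
      · rw [if_neg h]
        obtain ⟨z, hz, hz'⟩ := hκ n m h hnm
        have e5 : k m - k n = 2 * π * z / N := by
          simp only [hk]
          rw [← hz']; ring
        have e4 : ∀ t, F t • (((c ^ 2 : ℝ) : ℂ) *
            Complex.exp (Complex.I * (((k m - k n) * Γ t : ℝ) : ℂ))) =
            ((c ^ 2 : ℝ) : ℂ) * ((F t : ℂ) * Complex.exp (Complex.I *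
              ((2 * π * z / N * ∫ s in Iic t, F s : ℝ) : ℂ))) := by
          intro t
          rw [e5, Complex.real_smul]
          ring
        simp only [e4]
        rw [integral_const_mul, hPIT F N z hF hF0 hFi hFρ hN0 hz, mul_zero]
    · have e1 : ∀ σ, (if sp n = σ ∧ sp m = σ then ∫ x, star (φ₀ n x) * φ₀ m x else 0) = 0 := by
        intro σ
        rw [if_neg]
        rintro ⟨h1, h2⟩
        exact hnm (h1.trans h2.symm)
      simp only [e1, Finset.sum_const_zero]
      rw [if_neg]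
      rintro rfl
      exact hnm rfl
  · -- density
    have e1 : ∀ n, ∑ σ, ‖(if sp n = σ then φ₀ n else fun _ => 0) x‖ ^ 2 = ρ x * (N:ℝ)⁻¹ := by
      intro n
      have e2 : ∀ σ, ‖(if sp n = σ then φ₀ n else fun _ => 0) x‖ ^ 2 =
          if sp n = σ then ‖φ₀ n x‖ ^ 2 else 0 := by
        intro σ; by_cases h1 : sp n = σ <;> simp [h1]
      simp only [e2]
      rw [Finset.sum_ite_eq]
      simp only [Finset.mem_univ, if_true, hφ₀, hr]
      rw [norm_mul, norm_mul, hEn, Complex.norm_real, Complex.norm_real, Real.norm_eq_abs,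
        Real.norm_eq_abs, mul_one, mul_pow, sq_abs, sq_abs, Real.sq_sqrt (h0 x), hc2]
      ring
    simp only [e1]
    rw [Finset.sum_const, Finset.card_univ, Fintype.card_fin, nsmul_eq_mul]
    field_simp
  · -- the kinetic energy
    have e1 : ∀ n, ∑ σ, ∑ i, ∫ x, ‖(if sp n = σ then g₀ n else fun _ _ => 0) i x‖ ^ 2 =
        ∑ i, ∫ x, ‖g₀ n i x‖ ^ 2 := by
      intro n
      have e2 : ∀ σ, ∑ i, ∫ x, ‖(if sp n = σ then g₀ n else fun _ _ => 0) i x‖ ^ 2 =
          if sp n = σ then ∑ i, ∫ x, ‖g₀ n i x‖ ^ 2 else 0 := by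
        intro σ; by_cases h1 : sp n = σ <;> simp [h1]
      simp only [e2]
      rw [Finset.sum_ite_eq]
      simp
    rw [kinetic, Finset.sum_congr rfl fun n _ => e1 n, Finset.sum_comm]
    have hgi : ∀ n i, Integrable (fun x => ‖g₀ n i x‖ ^ 2) := fun n i =>
      ((sob n).memLp_grad i).integrable_norm_pow (by norm_num)
    have hGi : ∀ i, Integrable (fun x => ‖G i x‖ ^ 2) := fun i =>
      (hG.memLp_grad i).integrable_norm_pow (by norm_num)
    have hF3i : Integrable (fun t => F t • F t ^ 2) := by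
      have := hF3.integrable_norm_pow (by norm_num)
      refine this.congr (Eventually.of_forall fun t => ?_)
      simp only [smul_eq_mul]
      have h3 : (3 : ℝ≥0∞).toReal = 3 := by norm_num
      rw [Real.norm_eq_abs, abs_of_nonneg (hF0 t)]
      norm_num
      ring
    have hsm : StronglyMeasurable (fun t : ℝ => F t ^ 2) := (hF.pow_const 2).stronglyMeasurable
    have hρi : Integrable (fun x => ρ x • F ⟪e, x⟫ ^ 2) :=
      line_integrable h0 hi hF hF0 hmap hsm hF3i
    have hρI : ∫ x, ρ x • F ⟪e, x⟫ ^ 2 = ∫ t, F t ^ 3 := by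
      rw [line_int h0 hi hF hF0 hmap hsm]
      refine integral_congr_ae (Eventually.of_forall fun t => ?_)
      simp only [smul_eq_mul]; ring
    have hk0 : ∑ n, k n = 0 := by
      simp only [hk]
      rw [← Finset.sum_div, ← Finset.mul_sum, hκ0]; simp
    have e3 : ∀ i, ∑ n, ∫ x, ‖g₀ n i x‖ ^ 2 = (∫ x, ‖G i x‖ ^ 2) +
        (e i ^ 2) * (c ^ 2 * (∑ n, k n ^ 2) * ∫ t, F t ^ 3) := by
      intro i
      rw [← integral_finsetSum _ fun n _ => hgi n i, ← hρI, ← integral_const_mul,
        ← integral_const_mul, ← integral_add (hGi i) ((hρi.const_mul _).const_mul _)]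
      refine integral_congr_ae (Eventually.of_forall fun x => ?_)
      simp only
      have e4 : ∀ n, ‖g₀ n i x‖ ^ 2 = c ^ 2 * ‖G i x‖ ^ 2 +
          (2 * c ^ 2 * F ⟪e, x⟫ * e i * √(ρ x) * (G i x).im) * k n +
          (c ^ 2 * e i ^ 2 * (ρ x * F ⟪e, x⟫ ^ 2)) * k n ^ 2 := by
        intro n
        simp only [hg₀]
        rw [norm_mul, norm_mul, hEn, mul_one, mul_pow, Complex.norm_real, Real.norm_eq_abs, sq_abs,
          norm_add_I]
        have hs := Real.sq_sqrt (h0 x)
        linear_combination (c ^ 2 * k n ^ 2 * F ⟪e, x⟫ ^ 2 * e i ^ 2) * hs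
      rw [Finset.sum_congr rfl fun n _ => e4 n, Finset.sum_add_distrib, Finset.sum_add_distrib,
        ← Finset.mul_sum, ← Finset.mul_sum, ← Finset.mul_sum, hk0, Finset.sum_const,
        Finset.card_univ, Fintype.card_fin, nsmul_eq_mul, hc2, smul_eq_mul]
      have : (N:ℝ)⁻¹ * ((N:ℝ) * ‖G i x‖ ^ 2) = ‖G i x‖ ^ 2 := by
        rw [← mul_assoc, inv_mul_cancel₀ hN0.ne', one_mul]
      rw [this]
      ring
    rw [Finset.sum_congr rfl fun i _ => e3 i, Finset.sum_add_distrib, ← Finset.sum_mul]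
    have he2 : ∑ i, e i ^ 2 = 1 := by
      rw [← EuclideanSpace.real_norm_sq_eq, he]; norm_num
    rw [he2, one_mul, hc2]
    congr 1
    have : ∑ n, k n ^ 2 = (4 * π ^ 2 / (N:ℝ) ^ 2) * ∑ n, κ n ^ 2 := by
      rw [Finset.mul_sum]
      refine Finset.sum_congr rfl fun n _ => ?_
      simp only [hk]
      ring
    rw [this]
    field_simp

end Pool.Agent.Run7.h670.MY
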