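import Pool.Agent.Run7.h670.MY.GeoD
import Pool.Agent.Run7.h670.MY.Spin
import Pool.Agent.Run7.h670.MY.StmS

/-!
# Two spinless particles in every dimension
-/

set_option autoImplicit false

open MeasureTheory Set Filter Topology Real
open scoped ContDiff RealInnerProductSpace ENNReal

namespace Pool.Agent.Run7.h670.MY

/-- Two orbitals with a prescribed density. -/
theorem pair_orb (hBAR : S_BAR) (hCOST : D_COST) (hPL : D_PLANE) (hCS2 : D_CS2) (hCAKE : D_CAKE)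
    (hNUM : D_NUM) {d : ℕ} (hd : 2 ≤ d) {ρ : V d → ℝ} {G : Fin d → V d → ℂ} (h0 : ∀ x, 0 ≤ ρ x)
    (hi : Integrable ρ) (h2 : ∫ x, ρ x = 2) (hG : IsSobolev (fun x => ((√(ρ x) : ℝ) : ℂ)) G) :
    ∃ (φ₁ φ₂ : V d → ℂ) (γ₁ γ₂ : Fin d → V d → ℂ) (X : ℝ), IsSobolev φ₁ γ₁ ∧ IsSobolev φ₂ γ₂ ∧
      ∫ x, star (φ₁ x) * φ₁ x = 1 ∧ ∫ x, star (φ₂ x) * φ₂ x = 1 ∧
      ∫ x, star (φ₁ x) * φ₂ x = 0 ∧ (∀ x, ‖φ₁ x‖ ^ 2 + ‖φ₂ x‖ ^ 2 = ρ x) ∧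
      (∑ i, ∫ x, ‖γ₁ i x‖ ^ 2) + ∑ i, ∫ x, ‖γ₂ i x‖ ^ 2 = (∑ i, ∫ x, ‖G i x‖ ^ 2) + X ∧
      ENNReal.ofReal X ≤
        ENNReal.ofReal (Kcl d) * ∫⁻ x, ENNReal.ofReal (ρ x ^ (1 + 2 / (d : ℝ))) := by
  obtain ⟨a, b, p, q, c, hON, hc, k1, k2, k3, k4⟩ :=
    geoD hBAR hCOST hPL hCS2 hCAKE hNUM hd h0 hi h2
  have e22 : (2:ℝ) / 2 = 1 := by norm_num
  have h := many 1 0 le_rfl h0 hi (N := 2) (by norm_num) h2 hG hON hc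
    (by simp only [e22, one_mul]; exact k1) (by simp only [e22, one_mul]; exact k2)
    (by simp only [e22, one_mul]; exact k3)
  obtain ⟨φ, g, f1, f2⟩ := h
  have f1' : @IsFamily d ρ 2 1 φ g := f1
  have f2' : @kinetic d 2 1 g = (∑ i, ∫ x, ‖G i x‖ ^ 2) + ((1:ℕ):ℝ) * ((c ^ 2)⁻¹ *
      ∫ x, (2 / 2 * ρ x) * (hh p q c ⟪a, x⟫ ⟪b, x⟫ + hh p q c ⟪a, x⟫ ⟪b, x⟫ ^ 2)) := f2
  refine ⟨φ 0 0, φ 1 0, g 0 0, g 1 0, (c ^ 2)⁻¹ * ∫ x, ρ x * (hh p q c ⟪a, x⟫ ⟪b, x⟫ +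
    hh p q c ⟪a, x⟫ ⟪b, x⟫ ^ 2), f1'.sobolev 0 0, f1'.sobolev 1 0, ?_, ?_, ?_, ?_, ?_, k4⟩
  · have := f1'.orthonormal 0 0
    rw [Fin.sum_univ_one] at this
    simpa using this
  · have := f1'.orthonormal 1 1
    rw [Fin.sum_univ_one] at this
    simpa using this
  · have := f1'.orthonormal 0 1
    rw [Fin.sum_univ_one] at this
    simpa using this
  · intro x
    have := f1'.density x
    rw [Fin.sum_univ_two, Fin.sum_univ_one, Fin.sum_univ_one] at this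
    exact this
  · simp only [e22, one_mul, Nat.cast_one] at f2'
    rw [← f2', kinetic, Fin.sum_univ_two, Fin.sum_univ_one, Fin.sum_univ_one]

/-- Two particles: the wave function. -/
theorem pair_state (hBAR : S_BAR) (hCOST : D_COST) (hPL : D_PLANE) (hCS2 : D_CS2)
    (hCAKE : D_CAKE) (hNUM : D_NUM) (hSL : D_SLAT) {d : ℕ} (hd : 2 ≤ d) {f : V d → ℝ}
    {G : Fin d → V d → ℂ} (h0 : ∀ x, 0 ≤ f x) (hi : Integrable f) (h1 : ∫ x, f x = 1)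
    (hG : IsSobolev (fun x => ((√(f x) : ℝ) : ℂ)) G) :
    ∃ (Ψ : V d → V d → ℂ) (g₁ g₂ : Fin d → V d → V d → ℂ),
      IsState (fun x => 2 * f x) Ψ g₁ g₂ ∧
      ENNReal.ofReal ((2:ℝ) ^ (-1 - 2 / (d:ℝ)) * kinetic2 g₁ g₂) ≤
        ENNReal.ofReal (Kcl d) * (∫⁻ x, ENNReal.ofReal (f x ^ (1 + 2 / (d:ℝ)))) +
          ENNReal.ofReal ((2:ℝ) ^ (-(2 / (d:ℝ))) * ∑ i, ∫ x, ‖G i x‖ ^ 2) := by
  set t : ℂ := ((√2 : ℝ) : ℂ) with ht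
  have hsob : IsSobolev (fun x => ((√(2 * f x) : ℝ) : ℂ)) (fun i x => t * G i x) := by
    have e : (fun x => ((√(2 * f x) : ℝ) : ℂ)) = fun x => t * ((√(f x) : ℝ) : ℂ) := by
      funext x
      rw [Real.sqrt_mul (by norm_num), Complex.ofReal_mul]
    rw [e]
    exact hG.const_mul t
  obtain ⟨φ₁, φ₂, γ₁, γ₂, X, s1, s2, o1, o2, o3, o4, o5, o6⟩ :=
    pair_orb hBAR hCOST hPL hCS2 hCAKE hNUM hd (ρ := fun x => 2 * f x)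
      (fun x => mul_nonneg (by norm_num) (h0 x)) (hi.const_mul 2)
      (by rw [integral_const_mul, h1, mul_one]) hsob
  obtain ⟨Ψ, g₁, g₂, hst, hk⟩ := hSL d φ₁ φ₂ γ₁ γ₂ s1 s2 o1 o2 o3
  have hst' : IsState (fun x => 2 * f x) Ψ g₁ g₂ := by
    have : (fun x => ‖φ₁ x‖ ^ 2 + ‖φ₂ x‖ ^ 2) = fun x => 2 * f x := funext o4
    rwa [this] at hst
  refine ⟨Ψ, g₁, g₂, hst', ?_⟩
  have h3 : ∀ i, ∫ x, ‖t * G i x‖ ^ 2 = 2 * ∫ x, ‖G i x‖ ^ 2 := by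
    intro i
    rw [← integral_const_mul]
    refine integral_congr_ae (Filter.Eventually.of_forall fun x => ?_)
    simp only
    rw [norm_mul, mul_pow, ht, Complex.norm_real, Real.norm_eq_abs, sq_abs,
      Real.sq_sqrt (by norm_num)]
  rw [hk, o5, Finset.sum_congr rfl fun i _ => h3 i, ← Finset.mul_sum]
  set Γ := ∑ i, ∫ x, ‖G i x‖ ^ 2 with hΓ
  set I := ∫⁻ x, ENNReal.ofReal (f x ^ (1 + 2 / (d:ℝ))) with hI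
  have e1 : ∫⁻ x, ENNReal.ofReal ((2 * f x) ^ (1 + 2 / (d:ℝ))) =
      ENNReal.ofReal ((2:ℝ) ^ (1 + 2 / (d:ℝ))) * I := by
    rw [hI, ← lintegral_const_mul' _ _ ENNReal.ofReal_ne_top]
    refine lintegral_congr fun x => ?_
    rw [Real.mul_rpow (by norm_num) (h0 x), ENNReal.ofReal_mul (by positivity)]
  rw [e1] at o6
  have p1 : (2:ℝ) ^ (-1 - 2 / (d:ℝ)) * (2:ℝ) ^ (1 + 2 / (d:ℝ)) = 1 := by
    rw [← Real.rpow_add (by norm_num)]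
    have : (-1 - 2 / (d:ℝ)) + (1 + 2 / (d:ℝ)) = 0 := by ring
    rw [this, Real.rpow_zero]
  have p2 : (2:ℝ) ^ (-1 - 2 / (d:ℝ)) * 2 = (2:ℝ) ^ (-(2 / (d:ℝ))) := by
    have : -(2 / (d:ℝ)) = (-1 - 2 / (d:ℝ)) + 1 := by ring
    rw [this, Real.rpow_add (by norm_num), Real.rpow_one]
  have e2 : (2:ℝ) ^ (-1 - 2 / (d:ℝ)) * (2 * Γ + X) =
      (2:ℝ) ^ (-1 - 2 / (d:ℝ)) * X + (2:ℝ) ^ (-(2 / (d:ℝ))) * Γ := by
    rw [← p2]; ring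
  rw [e2]
  refine (ENNReal.ofReal_add_le).trans ?_
  gcongr
  calc ENNReal.ofReal ((2:ℝ) ^ (-1 - 2 / (d:ℝ)) * X)
      = ENNReal.ofReal ((2:ℝ) ^ (-1 - 2 / (d:ℝ))) * ENNReal.ofReal X :=
        ENNReal.ofReal_mul (by positivity)
    _ ≤ ENNReal.ofReal ((2:ℝ) ^ (-1 - 2 / (d:ℝ))) *
          (ENNReal.ofReal (Kcl d) * (ENNReal.ofReal ((2:ℝ) ^ (1 + 2 / (d:ℝ))) * I)) := by
        gcongr
    _ = (ENNReal.ofReal ((2:ℝ) ^ (-1 - 2 / (d:ℝ))) * ENNReal.ofReal ((2:ℝ) ^ (1 + 2 / (d:ℝ)))) *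
          (ENNReal.ofReal (Kcl d) * I) := by ring
    _ = ENNReal.ofReal (Kcl d) * I := by
        rw [← ENNReal.ofReal_mul (by positivity), p1, ENNReal.ofReal_one, one_mul]

end Pool.Agent.Run7.h670.MY
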